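import Mathlib
import Pool.Agent.Lib.LR.Defs

/-!
# The reduction from label cover to 2-to-1 games with perfect completeness

The definitions used by the statement.
-/

set_option autoImplicit false

namespace Pool.Agent.MP_ec946a.SE

open Pool.Agent.MP_ec946a.LR

variable {A B : Type} {d k n : ℕ}

/-- The `2 ^ (d + 2)` labels, read as strings of `d + 2` bits: a vector of `d` bits and two further
bits. -/
def lab (d : ℕ) : Fin (2 ^ (d + 2)) ≃ (Fin d → ZMod 2) × ZMod 2 × ZMod 2 :=
  finFunctionFinEquiv.symm.trans ((Fin.appendEquiv d 2).symm.trans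
    ((Equiv.refl (Fin d → ZMod 2)).prodCongr (finTwoArrowEquiv (ZMod 2))))

/-- The function on `Fin k × A` which is `α` on the block `j` and `0` on the other blocks. -/
def loc (j : Fin k) (α : A → ZMod 2) : Fin k × A → ZMod 2 :=
  fun s => if s.1 = j then α s.2 else 0

/-- `z + ε x + δ`: to the `i`-th function of `z` one adds `ε i` times `x`, and on the block `j` the
constant `δ i j`. -/
def shift (z : Fin d → Fin k × A → ZMod 2) (x : Fin k × A → ZMod 2) (ε : Fin d → ZMod 2)
    (δ : Fin d → Fin k → ZMod 2) : Fin d → Fin k × A → ZMod 2 :=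
  fun i s => z i s + ε i * x s + δ i s.1

/-- To the `i`-th function of `g` one adds, on the block `j`, the function `ε i β + ε' i α β`. -/
def shift2 (g : Fin d → Fin k × A → ZMod 2) (j : Fin k) (α β : A → ZMod 2)
    (ε ε' : Fin d → ZMod 2) : Fin d → Fin k × A → ZMod 2 :=
  fun i s => g i s + ε i * loc j β s + ε' i * loc j (fun a => α a * β a) s

/-- The sum of `δ i j` over all blocks `j`. -/
def par (δ : Fin d → Fin k → ZMod 2) : Fin d → ZMod 2 := fun i => ∑ j, δ i j

/-- The `k` vertices: the right end of the edge `e j` if `b j = 0`, the left end otherwise. -/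
def side (I : LabelCover A B) (e : Fin k → I.E) (b : Fin k → Fin n) : Fin k → I.X ⊕ I.Y :=
  fun j => if (b j : ℕ) = 0 then Sum.inr (I.tgt (e j)) else Sum.inl (I.src (e j))

/-- The functions of left labels given by `y`: on the block `j` the function `y` of right labels,
pulled back along the edge `e j`, if `b j = 0`, and the function `y` of left labels otherwise. -/
def pull (I : LabelCover A B) (e : Fin k → I.E) (b : Fin k → Fin n)
    (y : Fin d → Fin k × (A ⊕ B) → ZMod 2) : Fin d → Fin k × A → ZMod 2 :=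
  fun i s => if (b s.1 : ℕ) = 0 then y i (s.1, Sum.inr (I.proj (e s.1) s.2))
    else y i (s.1, Sum.inl s.2)

/-- The part of `y` which belongs to the vertices `W`: on every block the functions of labels of
the other side are replaced by `0`. -/
def mask {P Q : Type} (W : Fin k → P ⊕ Q) (y : Fin d → Fin k × (A ⊕ B) → ZMod 2) :
    Fin d → Fin k × (A ⊕ B) → ZMod 2 :=
  fun i s => if (W s.1).isLeft = s.2.isLeft then y i s else 0

/-- The left vertices: `P = (u, g, x)` and `Q = (u, j, α, β, g)`. -/
abbrev VL (I : LabelCover A B) (d k : ℕ) : Type :=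
  ((Fin k → I.X) × (Fin d → Fin k × A → ZMod 2) × (Fin k × A → ZMod 2)) ⊕
    ((Fin k → I.X) × Fin k × (A → ZMod 2) × (A → ZMod 2) × (Fin d → Fin k × A → ZMod 2))

/-- The right vertices: `G = (W, y)` and `T = (u, j, α, t)`. -/
abbrev VR (I : LabelCover A B) (d k : ℕ) : Type :=
  ((Fin k → I.X ⊕ I.Y) × (Fin d → Fin k × (A ⊕ B) → ZMod 2)) ⊕
    ((Fin k → I.X) × Fin k × (A → ZMod 2) × (Fin d → Fin k × A → ZMod 2))

/-- The data of an edge. -/
structure Data (I : LabelCover A B) (d k n : ℕ) : Type where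
  e : Fin k → I.E
  b : Fin k → Fin n
  y : Fin d → Fin k × (A ⊕ B) → ZMod 2
  g : Fin d → Fin k × A → ZMod 2
  x : Fin k × A → ZMod 2
  ε : Fin d → ZMod 2
  ε' : Fin d → ZMod 2
  δ : Fin d → Fin k → ZMod 2
  j : Fin k
  α : A → ZMod 2
  β : A → ZMod 2

/-- The data as a product. -/
def dataEquiv (I : LabelCover A B) (d k n : ℕ) : Data I d k n ≃
    ((Fin k → I.E) × (Fin k → Fin n) × (Fin d → Fin k × (A ⊕ B) → ZMod 2)) ×
      ((Fin d → Fin k × A → ZMod 2) × (Fin k × A → ZMod 2) × (Fin d → ZMod 2) ×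
        (Fin d → ZMod 2) × (Fin d → Fin k → ZMod 2)) × (Fin k × (A → ZMod 2) × (A → ZMod 2)) where
  toFun t := ((t.e, t.b, t.y), (t.g, t.x, t.ε, t.ε', t.δ), (t.j, t.α, t.β))
  invFun t := ⟨t.1.1, t.1.2.1, t.1.2.2, t.2.1.1, t.2.1.2.1, t.2.1.2.2.1, t.2.1.2.2.2.1,
    t.2.1.2.2.2.2, t.2.2.1, t.2.2.2.1, t.2.2.2.2⟩
  left_inv _ := rfl
  right_inv _ := rfl

set_option synthInstance.maxSize 1000 in
instance [Fintype A] [Fintype B] [DecidableEq A] [DecidableEq B] (I : LabelCover A B) :
    Fintype (Data I d k n) :=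
  Fintype.ofEquiv _ (dataEquiv I d k n).symm

/-- The left vertex of an edge with number `m < 37` and data `t`. -/
def endL (I : LabelCover A B) (m : Fin 37) (t : Data I d k n) : VL I d k :=
  let u : Fin k → I.X := fun j => I.src (t.e j)
  let z := pull I t.e t.b t.y
  if (m : ℕ) < 17 then Sum.inl (u, shift z t.x t.ε t.δ, t.x)
  else if (m : ℕ) < 22 then Sum.inl (u, shift z (loc t.j t.α) t.ε t.δ, loc t.j t.α)
  else if (m : ℕ) < 27 then Sum.inl (u, t.g, loc t.j t.α)
  else Sum.inr (u, t.j, t.α, t.β, t.g)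

/-- The right vertex of an edge. -/
def endR (I : LabelCover A B) (m : Fin 37) (t : Data I d k n) : VR I d k :=
  let u : Fin k → I.X := fun j => I.src (t.e j)
  let W := side I t.e t.b
  if (m : ℕ) < 22 then Sum.inl (W, mask W t.y)
  else if (m : ℕ) < 27 then Sum.inr (u, t.j, t.α, t.g)
  else Sum.inr (u, t.j, t.α, shift2 t.g t.j t.α t.β t.ε t.ε')

/-- The map of an edge, for labels written as `(f, p, w)`. -/
def mapE (I : LabelCover A B) (m : Fin 37) (t : Data I d k n)
    (l : (Fin d → ZMod 2) × ZMod 2 × ZMod 2) : (Fin d → ZMod 2) × ZMod 2 × ZMod 2 :=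
  if (m : ℕ) < 22 then (fun i => l.1 i + t.ε i * l.2.1 + par t.δ i, l.2.2, 0)
  else if (m : ℕ) < 27 then (l.1, l.2.1, 0)
  else (fun i => l.1 i + t.ε i * l.2.2 + t.ε' i * (l.2.1 * l.2.2), l.2.1, 0)

theorem card_fibre {L M : Type} (F : L → M) (c : M) (s : ZMod 2 → L) (hs : Function.Injective s)
    (h : ∀ l, F l = c ↔ ∃ a, s a = l) : Nat.card {l // F l = c} = 2 := by
  have e : ZMod 2 ≃ {l // F l = c} := Equiv.ofBijective (fun a => ⟨s a, (h _).2 ⟨a, rfl⟩⟩)
    ⟨fun a b hab => hs (congrArg Subtype.val hab), fun l => by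
      obtain ⟨a, ha⟩ := (h l.1).1 l.2
      exact ⟨a, Subtype.ext ha⟩⟩
  rw [← Nat.card_congr e, Nat.card_eq_fintype_card, ZMod.card]

theorem two_cancel {x y z : ZMod 2} : x + y = z ↔ z + y = x := by
  revert x y z; decide

theorem two_cancel3 {x y w z : ZMod 2} : x + y + w = z ↔ z + w + y = x := by
  revert x y w z; decide

theorem mapE_fibre (I : LabelCover A B) (m : Fin 37) (t : Data I d k n)
    (c : (Fin d → ZMod 2) × ZMod 2 × ZMod 2) :
    Nat.card {l // mapE I m t l = c} = if c.2.2 = 0 then 2 else 0 := by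
  obtain ⟨c1, c2, c3⟩ := c
  split_ifs with h0
  · simp only at h0
    subst h0
    unfold mapE
    split_ifs with h1 h2
    · refine card_fibre _ _ (fun a => (fun i => c1 i + par t.δ i + t.ε i * a, a, c2)) ?_ ?_
      · intro a b hab
        exact congrArg (fun l => l.2.1) hab
      · rintro ⟨f, p, w⟩
        simp only [Prod.mk.injEq, and_true, funext_iff, two_cancel3]
        constructor
        · rintro ⟨h3, h4⟩
          exact ⟨p, h3, rfl, h4.symm⟩
        · rintro ⟨a, h3, h4, h5⟩
          subst h4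
          exact ⟨h3, h5.symm⟩
    · refine card_fibre _ _ (fun a => (c1, c2, a)) ?_ ?_
      · intro a b hab
        exact congrArg (fun l => l.2.2) hab
      · rintro ⟨f, p, w⟩
        simp only [Prod.mk.injEq, and_true]
        constructor
        · rintro ⟨h3, h4⟩
          exact ⟨w, h3.symm, h4.symm, rfl⟩
        · rintro ⟨a, h3, h4, h5⟩
          exact ⟨h3.symm, h4.symm⟩
    · refine card_fibre _ _ (fun a => (fun i => c1 i + t.ε' i * (c2 * a) + t.ε i * a, c2, a)) ?_ ?_
      · intro a b hab
        exact congrArg (fun l => l.2.2) hab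
      · rintro ⟨f, p, w⟩
        simp only [Prod.mk.injEq, and_true, funext_iff, two_cancel3]
        constructor
        · rintro ⟨h3, h4⟩
          subst h4
          exact ⟨w, h3, rfl, rfl⟩
        · rintro ⟨a, h3, h4, h5⟩
          subst h4 h5
          exact ⟨h3, rfl⟩
  · have : IsEmpty {l // mapE I m t l = (c1, c2, c3)} := by
      constructor
      rintro ⟨l, hl⟩
      apply h0
      have h1 : (mapE I m t l).2.2 = 0 := by
        unfold mapE
        split_ifs <;> rfl
      rw [hl] at h1
      exact h1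
    exact Nat.card_of_isEmpty

theorem lab_fibre (I : LabelCover A B) (m : Fin 37) (t : Data I d k n) (b : Fin (2 ^ (d + 2))) :
    Nat.card {a // (lab d).symm (mapE I m t (lab d a)) = b} =
      if (lab d b).2.2 = 0 then 2 else 0 := by
  rw [← mapE_fibre I m t (lab d b)]
  refine Nat.card_congr ((lab d).subtypeEquiv fun a => ?_)
  rw [Equiv.symm_apply_eq]

/-- The game: the vertices, edges and maps as above, the labels being coded by `lab`. -/
def game [Fintype A] [Fintype B] [DecidableEq A] [DecidableEq B] (I : LabelCover A B)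
    (d k n : ℕ) [NeZero k] [NeZero n] : Game (2 ^ (d + 2)) where
  U := VL I d k
  V := VR I d k
  E := Fin 37 × Data I d k n
  finU := by classical exact inferInstance
  finV := by classical exact inferInstance
  finE := inferInstance
  neE := ⟨0, ⟨fun _ => Classical.arbitrary _, fun _ => 0, 0, 0, 0, 0, 0, 0, 0, 0, 0⟩⟩
  src p := endL I p.1 p.2
  tgt p := endR I p.1 p.2
  proj p l := (lab d).symm (mapE I p.1 p.2 (lab d l))
  two_to_one p b := by
    rw [lab_fibre]
    split_ifs <;> norm_num

/-- The reduction: `d = 126`, so that there are `2 ^ 128` labels. -/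
def red [Fintype A] [Fintype B] [DecidableEq A] [DecidableEq B] (I : LabelCover A B) :
    Game (2 ^ 128) :=
  game I 126 (2 ^ (248 + 126 * Fintype.card A)) (2 ^ (138 + 126 * Fintype.card A))

end Pool.Agent.MP_ec946a.SE
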