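import Mathlib
import Pool.Agent.Lib.SE.Defs

/-!
# Averages, characters: definitions and first lemmas
-/

set_option autoImplicit false

namespace Pool.Agent.MP_ec946a.SE

open Finset

/-! ### Averages -/

section avg

variable {α β γ : Type} [Fintype α] [Fintype β] [Fintype γ]

/-- The average of a function on a finite type (`0` if the type is empty). -/
noncomputable def avg (f : α → ℝ) : ℝ := (∑ x, f x) / (Fintype.card α : ℝ)

open Classical in
/-- The indicator of a proposition. -/
noncomputable def ind (p : Prop) : ℝ := if p then 1 else 0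

/-- The probability of an event under the uniform distribution. -/
noncomputable def pr (p : α → Prop) : ℝ := avg fun x => ind (p x)

lemma ind_nonneg (p : Prop) : 0 ≤ ind p := by unfold ind; split_ifs <;> norm_num
lemma ind_le_one (p : Prop) : ind p ≤ 1 := by unfold ind; split_ifs <;> norm_num
lemma ind_true {p : Prop} (h : p) : ind p = 1 := by unfold ind; rw [if_pos h]
lemma ind_false {p : Prop} (h : ¬ p) : ind p = 0 := by unfold ind; rw [if_neg h]
lemma ind_mono {p q : Prop} (h : p → q) : ind p ≤ ind q := by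
  by_cases hp : p
  · rw [ind_true hp, ind_true (h hp)]
  · rw [ind_false hp]; exact ind_nonneg q
lemma ind_not (p : Prop) : ind (¬ p) = 1 - ind p := by
  by_cases hp : p
  · rw [ind_true hp, ind_false (not_not.2 hp)]; norm_num
  · rw [ind_false hp, ind_true hp]; norm_num
lemma ind_or_le (p q : Prop) : ind (p ∨ q) ≤ ind p + ind q := by
  by_cases hp : p
  · rw [ind_true hp]; linarith [ind_le_one (p ∨ q), ind_nonneg q]
  · by_cases hq : q
    · rw [ind_true hq]; linarith [ind_le_one (p ∨ q), ind_nonneg p]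
    · rw [ind_false (not_or.2 ⟨hp, hq⟩)]; linarith [ind_nonneg p, ind_nonneg q]

lemma avg_add (f g : α → ℝ) : (avg fun x => f x + g x) = avg f + avg g := by
  unfold avg; rw [sum_add_distrib, add_div]

lemma avg_sub (f g : α → ℝ) : (avg fun x => f x - g x) = avg f - avg g := by
  unfold avg; rw [sum_sub_distrib, sub_div]

lemma avg_mul_left (c : ℝ) (f : α → ℝ) : (avg fun x => c * f x) = c * avg f := by
  unfold avg; rw [← mul_sum, mul_div_assoc]

lemma avg_mul_right (c : ℝ) (f : α → ℝ) : (avg fun x => f x * c) = avg f * c := by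
  unfold avg; rw [← sum_mul]; ring

lemma avg_const [Nonempty α] (c : ℝ) : (avg fun _ : α => c) = c := by
  unfold avg
  rw [sum_const, card_univ, nsmul_eq_mul]
  have : (Fintype.card α : ℝ) ≠ 0 := by exact_mod_cast Fintype.card_ne_zero
  field_simp

lemma avg_zero : (avg fun _ : α => (0 : ℝ)) = 0 := by
  unfold avg; rw [sum_const_zero, zero_div]

lemma avg_mono {f g : α → ℝ} (h : ∀ x, f x ≤ g x) : avg f ≤ avg g := by
  unfold avg
  exact div_le_div_of_nonneg_right (sum_le_sum fun x _ => h x) (Nat.cast_nonneg _)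

lemma avg_nonneg {f : α → ℝ} (h : ∀ x, 0 ≤ f x) : 0 ≤ avg f := by
  rw [← avg_zero (α := α)]; exact avg_mono h

lemma avg_le_const {f : α → ℝ} {c : ℝ} (hc : 0 ≤ c) (h : ∀ x, f x ≤ c) : avg f ≤ c := by
  cases isEmpty_or_nonempty α
  · unfold avg
    rw [Fintype.sum_empty, zero_div]; exact hc
  · calc avg f ≤ avg fun _ : α => c := avg_mono h
      _ = c := avg_const c

lemma abs_avg_le (f : α → ℝ) : |avg f| ≤ avg fun x => |f x| := by
  unfold avg
  rw [abs_div, Nat.abs_cast]
  exact div_le_div_of_nonneg_right (abs_sum_le_sum_abs _ _) (Nat.cast_nonneg _)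

lemma avg_equiv (e : α ≃ β) (f : β → ℝ) : (avg fun x => f (e x)) = avg f := by
  unfold avg
  rw [Fintype.card_congr e, Equiv.sum_comp e f]

lemma avg_prod (f : α × β → ℝ) : avg f = avg fun x => avg fun y => f (x, y) := by
  unfold avg
  rw [Fintype.sum_prod_type, Fintype.card_prod, ← sum_div, div_div]
  push_cast
  rw [mul_comm]

lemma avg_comm (f : α → β → ℝ) : (avg fun x => avg fun y => f x y) = avg fun y => avg fun x => f x y := by
  unfold avg
  rw [← sum_div, ← sum_div, sum_comm, div_div, div_div, mul_comm]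

/-- the average of a function of the first coordinate -/
lemma avg_fst [Nonempty β] (f : α → ℝ) : (avg fun x : α × β => f x.1) = avg f := by
  rw [avg_prod]
  exact congrArg avg (funext fun x => avg_const (α := β) (f x))

lemma avg_snd [Nonempty α] (f : β → ℝ) : (avg fun x : α × β => f x.2) = avg f := by
  rw [avg_prod, avg_comm]
  exact congrArg avg (funext fun x => avg_const (α := α) (f x))

lemma avg_finset_sum {ι : Type*} (s : Finset ι) (f : ι → α → ℝ) :
    (avg fun x => ∑ i ∈ s, f i x) = ∑ i ∈ s, avg (f i) := by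
  unfold avg
  rw [sum_comm, sum_div]

/-- Cauchy-Schwarz -/
lemma avg_mul_sq_le (f g : α → ℝ) :
    (avg fun x => f x * g x) ^ 2 ≤ (avg fun x => f x ^ 2) * avg fun x => g x ^ 2 := by
  unfold avg
  rw [div_pow, div_mul_div_comm, sq (Fintype.card α : ℝ)]
  exact div_le_div_of_nonneg_right (sum_mul_sq_le_sq_mul_sq _ _ _) (by positivity)

lemma avg_sq_le (f : α → ℝ) : (avg f) ^ 2 ≤ avg fun x => f x ^ 2 := by
  cases isEmpty_or_nonempty α
  · unfold avg
    simp
  · have h := avg_mul_sq_le f fun _ => 1
    simp only [mul_one, one_pow] at h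
    rw [avg_const] at h
    rwa [mul_one] at h

lemma pr_nonneg (p : α → Prop) : 0 ≤ pr p := avg_nonneg fun _ => ind_nonneg _
lemma pr_le_one (p : α → Prop) : pr p ≤ 1 := avg_le_const zero_le_one fun _ => ind_le_one _
lemma pr_mono {p q : α → Prop} (h : ∀ x, p x → q x) : pr p ≤ pr q :=
  avg_mono fun x => ind_mono (h x)
lemma pr_not [Nonempty α] (p : α → Prop) : pr (fun x => ¬ p x) = 1 - pr p := by
  unfold pr
  simp only [ind_not]
  rw [avg_sub, avg_const]
lemma pr_or_le (p q : α → Prop) : pr (fun x => p x ∨ q x) ≤ pr p + pr q := by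
  unfold pr
  rw [← avg_add]
  exact avg_mono fun x => ind_or_le _ _

open Classical in
lemma pr_eq_card (p : α → Prop) : pr p = ((univ.filter p).card : ℝ) / (Fintype.card α : ℝ) := by
  unfold pr avg ind
  rw [sum_boole]

/-- union bound over a finset -/
lemma pr_exists_le {ι : Type*} (s : Finset ι) (p : ι → α → Prop) :
    pr (fun x => ∃ i ∈ s, p i x) ≤ ∑ i ∈ s, pr (p i) := by
  unfold pr
  rw [← avg_finset_sum]
  refine avg_mono fun x => ?_
  by_cases h : ∃ i ∈ s, p i x
  · obtain ⟨i, hi, hp⟩ := h
    rw [ind_true ⟨i, hi, hp⟩]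
    calc (1 : ℝ) = ind (p i x) := (ind_true hp).symm
      _ ≤ ∑ i ∈ s, ind (p i x) := single_le_sum (fun j _ => ind_nonneg (p j x)) hi
  · rw [ind_false h]
    exact sum_nonneg fun _ _ => ind_nonneg _

/-- comparison on the fibres of a map -/
lemma avg_le_of_fib [DecidableEq γ] (π : α → γ) (f g : α → ℝ)
    (h : ∀ c, (∑ x ∈ univ.filter (fun x => π x = c), f x) ≤
      ∑ x ∈ univ.filter (fun x => π x = c), g x) : avg f ≤ avg g := by
  unfold avg
  refine div_le_div_of_nonneg_right ?_ (Nat.cast_nonneg _)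
  rw [← sum_fiberwise (s := univ) (g := π) (f := f), ← sum_fiberwise (s := univ) (g := π) (f := g)]
  exact sum_le_sum fun c _ => h c

end avg

/-! ### Characters -/

section char

variable {S : Type} [Fintype S] {d : ℕ}

/-- The sign. -/
noncomputable def sg (a : ZMod 2) : ℝ := if a = 0 then 1 else -1

/-- The pairing of two functions with values in `ZMod 2`. -/
def dt {S : Type} [Fintype S] (h x : S → ZMod 2) : ZMod 2 := ∑ s, h s * x s

/-- The values of the character `h` at the `d` vectors of `z`. -/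
def ev (h : S → ZMod 2) (z : Fin d → S → ZMod 2) : Fin d → ZMod 2 := fun i => dt h (z i)

/-- The combination of the vectors of `z` with the coefficients `c`. -/
def cz (c : Fin d → ZMod 2) (z : Fin d → S → ZMod 2) : S → ZMod 2 := fun s => ∑ i, c i * z i s

/-- The vectors `c i • h`. -/
def tn (c : Fin d → ZMod 2) (h : S → ZMod 2) : Fin d → S → ZMod 2 := fun i s => c i * h s

/-- The pairing of two tuples of vectors. -/
def dz (ξ z : Fin d → S → ZMod 2) : ZMod 2 := ∑ i, dt (ξ i) (z i)

lemma z2_cases (a : ZMod 2) : a = 0 ∨ a = 1 := by revert a; decide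
lemma z2_self (a : ZMod 2) : a + a = 0 := by revert a; decide
lemma z2_eq {a b : ZMod 2} : a + b = 0 ↔ a = b := by revert a b; decide
lemma z2_ne {a b : ZMod 2} (h : a ≠ b) : a = b + 1 := by revert h; revert a b; decide
lemma v2_self {S : Type} (a : S → ZMod 2) : a + a = 0 := funext fun s => z2_self (a s)

@[simp] lemma sg_zero : sg 0 = 1 := by unfold sg; rw [if_pos rfl]
@[simp] lemma sg_one : sg 1 = -1 := by unfold sg; rw [if_neg (by decide)]
lemma sg_add (a b : ZMod 2) : sg (a + b) = sg a * sg b := by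
  rcases z2_cases a with rfl | rfl <;> rcases z2_cases b with rfl | rfl
  · rw [add_zero, sg_zero, mul_one]
  · rw [zero_add, sg_zero, one_mul]
  · rw [add_zero, sg_zero, mul_one]
  · rw [z2_self, sg_zero, sg_one]; norm_num
lemma sg_mul_self (a : ZMod 2) : sg a * sg a = 1 := by rw [← sg_add, z2_self, sg_zero]
lemma sg_sq (a : ZMod 2) : sg a ^ 2 = 1 := by rw [sq, sg_mul_self]
lemma abs_sg (a : ZMod 2) : |sg a| = 1 := by
  rcases z2_cases a with rfl | rfl
  · rw [sg_zero, abs_one]
  · rw [sg_one, abs_neg, abs_one]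
lemma sg_sum {ι : Type*} (s : Finset ι) (f : ι → ZMod 2) : sg (∑ i ∈ s, f i) = ∏ i ∈ s, sg (f i) := by
  classical
  induction s using Finset.induction_on with
  | empty => rw [sum_empty, prod_empty, sg_zero]
  | insert a s ha ih => rw [sum_insert ha, prod_insert ha, sg_add, ih]

lemma dt_comm (h x : S → ZMod 2) : dt h x = dt x h := sum_congr rfl fun _ _ => mul_comm _ _
lemma dt_add_left (h h' x : S → ZMod 2) : dt (h + h') x = dt h x + dt h' x := by
  unfold dt
  rw [← sum_add_distrib]
  exact sum_congr rfl fun s _ => add_mul _ _ _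
lemma dt_add_right (h x y : S → ZMod 2) : dt h (x + y) = dt h x + dt h y := by
  rw [dt_comm, dt_add_left, dt_comm x, dt_comm y]
@[simp] lemma dt_zero_left (x : S → ZMod 2) : dt 0 x = 0 := by
  unfold dt; exact sum_eq_zero fun s _ => zero_mul _
@[simp] lemma dt_zero_right (x : S → ZMod 2) : dt x 0 = 0 := by rw [dt_comm, dt_zero_left]
lemma dt_smul_right (c : ZMod 2) (h x : S → ZMod 2) : dt h (fun s => c * x s) = c * dt h x := by
  unfold dt
  rw [mul_sum]
  exact sum_congr rfl fun s _ => by ring
lemma dt_smul_left (c : ZMod 2) (h x : S → ZMod 2) : dt (fun s => c * h s) x = c * dt h x := by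
  rw [dt_comm, dt_smul_right, dt_comm]

lemma ev_add_right (h : S → ZMod 2) (z w : Fin d → S → ZMod 2) : ev h (z + w) = ev h z + ev h w :=
  funext fun i => dt_add_right h (z i) (w i)
lemma ev_add_left (h h' : S → ZMod 2) (z : Fin d → S → ZMod 2) :
    ev (h + h') z = ev h z + ev h' z :=
  funext fun i => dt_add_left h h' (z i)

/-- `c · h(z) = h(c · z)` -/
lemma dt_ev (c : Fin d → ZMod 2) (h : S → ZMod 2) (z : Fin d → S → ZMod 2) :
    dt c (ev h z) = dt h (cz c z) := by
  unfold dt ev cz dt
  simp only [mul_sum]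
  rw [sum_comm]
  exact sum_congr rfl fun s _ => sum_congr rfl fun i _ => by ring

lemma dz_tn (c : Fin d → ZMod 2) (h : S → ZMod 2) (z : Fin d → S → ZMod 2) :
    dz (tn c h) z = dt c (ev h z) := by
  unfold dz tn
  simp only [dt_smul_left]
  rfl

lemma exists_dt_eq_one [DecidableEq S] {h : S → ZMod 2} (hh : h ≠ 0) : ∃ x, dt h x = 1 := by
  obtain ⟨i, hi⟩ := Function.ne_iff.1 hh
  refine ⟨Pi.single i 1, ?_⟩
  unfold dt
  rw [Finset.sum_eq_single i]
  · rw [Pi.single_eq_same, mul_one]
    exact (z2_cases (h i)).resolve_left hi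
  · intro j _ hj
    rw [Pi.single_eq_of_ne hj, mul_zero]
  · intro h
    exact absurd (mem_univ i) h

/-- orthogonality of characters -/
lemma avg_sg_dt [DecidableEq S] (h : S → ZMod 2) :
    (avg fun x => sg (dt h x)) = if h = 0 then 1 else 0 := by
  split_ifs with h0
  · subst h0
    simp only [dt_zero_left, sg_zero]
    exact avg_const 1
  · obtain ⟨y, hy⟩ := exists_dt_eq_one h0
    have h1 : (avg fun x => sg (dt h (x + y))) = avg fun x => sg (dt h x) :=
      avg_equiv (Equiv.addRight y) fun x => sg (dt h x)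
    have h2 : (avg fun x => sg (dt h (x + y))) = avg fun x => sg (dt h x) * (-1) := by
      congr 1
      funext x
      rw [dt_add_right, sg_add, hy, sg_one]
    rw [avg_mul_right] at h2
    linarith

lemma sum_sg_dt [DecidableEq S] (x : S → ZMod 2) :
    (∑ h, sg (dt h x)) = if x = 0 then (2 : ℝ) ^ Fintype.card S else 0 := by
  have h1 := avg_sg_dt x
  unfold avg at h1
  have h2 : (Fintype.card (S → ZMod 2) : ℝ) = 2 ^ Fintype.card S := by
    rw [Fintype.card_fun, ZMod.card]; push_cast; rfl
  rw [h2, div_eq_iff (by positivity)] at h1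
  simp only [dt_comm x] at h1
  rw [h1]
  split_ifs <;> ring

end char

end Pool.Agent.MP_ec946a.SE
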