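import Pool.Agent.Lib.SE.Four

/-!
# The objects of section 2 (MP_ec946a, helper71)

`I = Fin d`, `S = Fin k × A`, `K = Fin k`, `blk : S → K`. Elements of `X^d` are functions on
`I × S`.
-/

set_option autoImplicit false
set_option linter.unusedSectionVars false
open Finset

namespace Pool.Agent.SE.Four

variable {I S K : Type} [Fintype I] [DecidableEq I] [Fintype S] [DecidableEq S] [Fintype K]
  [DecidableEq K]

/-- `c ⊗ h` -/
def ten (c : I → ZMod 2) (h : S → ZMod 2) : I × S → ZMod 2 := fun p => c p.1 * h p.2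

/-- `h(z)` -/
def ap (h : S → ZMod 2) (z : I × S → ZMod 2) : I → ZMod 2 := fun i => ∑ s, h s * z (i, s)

theorem dt_ten (c : I → ZMod 2) (h : S → ZMod 2) (z : I × S → ZMod 2) :
    dt (ten c h) z = dt c (ap h z) := by
  unfold dt ten ap
  rw [Fintype.sum_prod_type]
  refine sum_congr rfl fun i _ => ?_
  rw [mul_sum]
  exact sum_congr rfl fun s _ => by ring

theorem ap_add_right (h : S → ZMod 2) (z w : I × S → ZMod 2) : ap h (z + w) = ap h z + ap h w := by
  funext i
  show ∑ s, h s * (z (i, s) + w (i, s)) = ∑ s, h s * z (i, s) + ∑ s, h s * w (i, s)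
  rw [← sum_add_distrib]
  exact sum_congr rfl fun s _ => by ring

theorem ap_add_left (h h' : S → ZMod 2) (z : I × S → ZMod 2) : ap (h + h') z = ap h z + ap h' z := by
  funext i
  show ∑ s, (h s + h' s) * z (i, s) = ∑ s, h s * z (i, s) + ∑ s, h' s * z (i, s)
  rw [← sum_add_distrib]
  exact sum_congr rfl fun s _ => by ring

theorem ap_ten (h x : S → ZMod 2) (ε : I → ZMod 2) : ap h (ten ε x) = fun i => ε i * dt h x := by
  funext i
  show ∑ s, h s * (ε i * x s) = ε i * dt h x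
  unfold dt
  rw [mul_sum]
  exact sum_congr rfl fun s _ => by ring

/-- the element `∑_j δ_ij 1_j` -/
def lft (blk : S → K) (δ : I × K → ZMod 2) : I × S → ZMod 2 := fun p => δ (p.1, blk p.2)

/-- the parity of the rows -/
def par (δ : I × K → ZMod 2) : I → ZMod 2 := fun i => ∑ j, δ (i, j)

/-- `h(1_j)` -/
def bs (blk : S → K) (h : S → ZMod 2) (j : K) : ZMod 2 := ∑ s, if blk s = j then h s else 0

/-- odd functionals -/
def IsOdd (blk : S → K) (h : S → ZMod 2) : Prop := ∀ j, bs blk h j = 1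

instance (blk : S → K) : DecidablePred (IsOdd blk) := fun h => by
  unfold IsOdd
  infer_instance

theorem ap_lft (blk : S → K) (h : S → ZMod 2) (δ : I × K → ZMod 2) (i : I) :
    ap h (lft blk δ) i = ∑ j, bs blk h j * δ (i, j) := by
  show ∑ s, h s * δ (i, blk s) = _
  unfold bs
  simp_rw [sum_mul]
  rw [sum_comm]
  refine sum_congr rfl fun s _ => ?_
  rw [sum_eq_single (blk s)]
  · rw [if_pos rfl]
  · intro j _ hj
    rw [if_neg (Ne.symm hj), zero_mul]
  · intro hh
    exact absurd (mem_univ _) hh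

theorem ap_lft_odd {blk : S → K} {h : S → ZMod 2} (hh : IsOdd blk h) (δ : I × K → ZMod 2) :
    ap h (lft blk δ) = par δ := by
  funext i
  rw [ap_lft]
  exact sum_congr rfl fun j _ => by rw [hh j, one_mul]

/-- the transform of the law of the label -/
noncomputable def F (μ : (I × S → ZMod 2) → (I → ZMod 2) → ℝ) (c : I → ZMod 2)
    (z : I × S → ZMod 2) : ℝ := ∑ s, μ z s * sg (dt c s)

/-- the mass of `(h, τ)` -/
noncomputable def mm (μ : (I × S → ZMod 2) → (I → ZMod 2) → ℝ) (h : S → ZMod 2)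
    (τ : I → ZMod 2) : ℝ := av fun z => μ z (ap h z + τ)

/-- the Fourier coefficient at `c ⊗ h` -/
noncomputable def ac (μ : (I × S → ZMod 2) → (I → ZMod 2) → ℝ) (c : I → ZMod 2)
    (h : S → ZMod 2) : ℝ := av fun z => F μ c z * sg (dt (ten c h) z)

/-- `2^d` -/
noncomputable def qd (I : Type) [Fintype I] [DecidableEq I] : ℝ := (Fintype.card (I → ZMod 2) : ℝ)

theorem qd_pos : 0 < qd I := card_pos'

/-- `M = m - 2^{-d}` -/
noncomputable def Mm (μ : (I × S → ZMod 2) → (I → ZMod 2) → ℝ) (h : S → ZMod 2)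
    (τ : I → ZMod 2) : ℝ := mm μ h τ - 1 / qd I

/-- a probability for each `z` -/
def IsPr (μ : (I × S → ZMod 2) → (I → ZMod 2) → ℝ) : Prop :=
  (∀ z s, 0 ≤ μ z s) ∧ ∀ z, ∑ s, μ z s = 1

variable {μ : (I × S → ZMod 2) → (I → ZMod 2) → ℝ}

theorem F_zero (hμ : IsPr μ) (z : I × S → ZMod 2) : F μ 0 z = 1 := by
  unfold F
  simp_rw [dt_zero_left, sg_zero, mul_one]
  exact hμ.2 z

theorem abs_F_le (hμ : IsPr μ) (c : I → ZMod 2) (z : I × S → ZMod 2) : |F μ c z| ≤ 1 := by
  unfold F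
  refine (abs_sum_le_sum_abs _ _).trans ?_
  rw [← hμ.2 z]
  refine sum_le_sum fun s _ => ?_
  rw [abs_mul, abs_sg, mul_one, abs_of_nonneg (hμ.1 z s)]

/-- `μ z s = 2^{-d} ∑_c F_c(z) sg(c.s)` -/
theorem mu_eq (z : I × S → ZMod 2) (s : I → ZMod 2) : μ z s = av fun c => F μ c z * sg (dt c s) := by
  have h := inversion (μ z) s
  rw [← h]
  unfold fc F av
  rw [sum_div]
  refine sum_congr rfl fun c _ => ?_
  rw [div_mul_eq_mul_div]

/-- (F1) -/
theorem F1 (c : I → ZMod 2) (h : S → ZMod 2) : ac μ c h = ∑ τ, sg (dt c τ) * mm μ h τ := by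
  unfold ac mm F
  simp_rw [← av_mul_left]
  rw [← av_sum]
  congr 1
  funext z
  rw [sum_mul, dt_ten]
  rw [← Equiv.sum_comp (Equiv.addLeft (ap h z))]
  refine sum_congr rfl fun τ _ => ?_
  show μ z (ap h z + τ) * sg (dt c (ap h z + τ)) * sg (dt c (ap h z)) = _
  rw [dt_add_right, sg_add]
  have e := sg_mul_self (dt c (ap h z))
  linear_combination (μ z (ap h z + τ) * sg (dt c τ)) * e

theorem sum_mm (hμ : IsPr μ) (h : S → ZMod 2) : ∑ τ, mm μ h τ = 1 := by
  have h1 := F1 (μ := μ) 0 h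
  simp_rw [dt_zero_left, sg_zero, one_mul] at h1
  rw [← h1]
  unfold ac
  simp_rw [F_zero hμ, one_mul, dt_ten, dt_zero_left, sg_zero]
  exact av_const 1

theorem sum_Mm (hμ : IsPr μ) (h : S → ZMod 2) : ∑ τ, Mm μ h τ = 0 := by
  unfold Mm
  rw [sum_sub_distrib, sum_mm hμ, sum_const, card_univ, nsmul_eq_mul]
  have := qd_pos (I := I)
  show 1 - qd I * (1 / qd I) = 0
  field_simp
  ring

/-- (F1) for `M` -/
theorem F1' {c : I → ZMod 2} (hc : c ≠ 0) (h : S → ZMod 2) :
    ac μ c h = ∑ τ, sg (dt c τ) * Mm μ h τ := by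
  rw [F1]
  unfold Mm
  simp_rw [mul_sub]
  rw [sum_sub_distrib, ← sum_mul]
  have h1 : ∑ τ : I → ZMod 2, sg (dt c τ) = 0 := by
    have := orth c
    rw [if_neg hc] at this
    unfold av at this
    rw [div_eq_zero_iff] at this
    rcases this with h | h
    · exact h
    · exact absurd h (card_pos' (α := I → ZMod 2)).ne'
  rw [h1, zero_mul, sub_zero]

/-- (F2) -/
theorem F2 (hμ : IsPr μ) (h : S → ZMod 2) :
    ∑ τ, Mm μ h τ ^ 2 = (∑ c, if c = 0 then 0 else ac μ c h ^ 2) / qd I := by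
  have hq := qd_pos (I := I)
  have h1 := parseval (fun τ : I → ZMod 2 => Mm μ h τ)
  have h2 : av (fun τ : I → ZMod 2 => Mm μ h τ ^ 2) = (∑ τ, Mm μ h τ ^ 2) / qd I := rfl
  have h3 : ∀ c : I → ZMod 2, fc (fun τ => Mm μ h τ) c ^ 2 =
      (if c = 0 then 0 else ac μ c h ^ 2) / qd I ^ 2 := by
    intro c
    have h4 : fc (fun τ => Mm μ h τ) c = (∑ τ, sg (dt c τ) * Mm μ h τ) / qd I := by
      unfold fc av
      congr 1
      exact sum_congr rfl fun τ _ => mul_comm _ _
    rw [h4]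
    by_cases hc : c = 0
    · rw [if_pos hc, hc]
      simp_rw [dt_zero_left, sg_zero, one_mul]
      rw [sum_Mm hμ]
      simp
    · rw [if_neg hc, ← F1' hc, div_pow]
  simp_rw [h3] at h1
  rw [← sum_div, h2] at h1
  have h5 : (∑ c, if c = 0 then (0 : ℝ) else ac μ c h ^ 2) =
      (∑ τ, Mm μ h τ ^ 2) * qd I := by
    field_simp at h1
    linarith
  rw [h5]
  field_simp

theorem ten_injective {c : I → ZMod 2} (hc : c ≠ 0) :
    Function.Injective (fun h : S → ZMod 2 => ten c h) := by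
  intro h h' hh
  obtain ⟨i, hi⟩ := Function.ne_iff.1 hc
  funext s
  have h1 := congrFun hh (i, s)
  have h2 : c i = 1 := by
    rcases zcases (c i) with h | h
    · exact absurd h hi
    · exact h
  simpa [ten, h2] using h1

/-- (F3) -/
theorem F3 (hμ : IsPr μ) {c : I → ZMod 2} (hc : c ≠ 0) : ∑ h : S → ZMod 2, ac μ c h ^ 2 ≤ 1 := by
  have h1 := parseval (fun z : I × S → ZMod 2 => F μ c z)
  have h2 : av (fun z : I × S → ZMod 2 => F μ c z ^ 2) ≤ 1 := by
    refine av_le_one fun z => ?_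
    rw [sq_le_one_iff_abs_le_one]
    exact abs_F_le hμ c z
  have h3 : ∑ h : S → ZMod 2, ac μ c h ^ 2 = ∑ h : S → ZMod 2, fc (fun z => F μ c z) (ten c h) ^ 2 :=
    rfl
  rw [h3]
  refine le_trans ?_ (h1.trans_le h2)
  rw [← sum_image (f := fun ξ => fc (fun z => F μ c z) ξ ^ 2) (g := fun h : S → ZMod 2 => ten c h)
    (s := univ) (fun a _ b _ hab => ten_injective hc hab)]
  exact sum_le_sum_of_subset_of_nonneg (subset_univ _) fun ξ _ _ => sq_nonneg _

theorem mm_nonneg (hμ : IsPr μ) (h : S → ZMod 2) (τ : I → ZMod 2) : 0 ≤ mm μ h τ :=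
  av_nonneg fun z => hμ.1 z _

theorem mu_le_one (hμ : IsPr μ) (z : I × S → ZMod 2) (s : I → ZMod 2) : μ z s ≤ 1 := by
  rw [← hμ.2 z]
  exact single_le_sum (f := fun s => μ z s) (fun s _ => hμ.1 z s) (mem_univ s)

theorem mm_le_one (hμ : IsPr μ) (h : S → ZMod 2) (τ : I → ZMod 2) : mm μ h τ ≤ 1 :=
  av_le_one fun z => mu_le_one hμ z _

end Pool.Agent.SE.Four
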