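import Mathlib
import Pool.Agent.Lib.SE.Base

/-!
# The statements of the rows
-/

set_option autoImplicit false

namespace Pool.Agent.MP_ec946a.SE

open Finset Pool.Agent.MP_ec946a.LR

/-! ### Section 2: one map -/

section two

variable {S : Type} [Fintype S] [DecidableEq S] {d : ℕ}

/-- A probability law on the labels for every `z`. -/
structure IsLaw {Z L : Type} [Fintype L] (μ : Z → L → ℝ) : Prop where
  nonneg : ∀ z s, 0 ≤ μ z s
  sum : ∀ z, ∑ s, μ z s = 1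

/-- `m(h, τ)` -/
noncomputable def ms (μ : (Fin d → S → ZMod 2) → (Fin d → ZMod 2) → ℝ)
    (q : (S → ZMod 2) × (Fin d → ZMod 2)) : ℝ := avg fun z => μ z (ev q.1 z + q.2)

/-- `M(h, τ)` -/
noncomputable def Ms (μ : (Fin d → S → ZMod 2) → (Fin d → ZMod 2) → ℝ)
    (q : (S → ZMod 2) × (Fin d → ZMod 2)) : ℝ := ms μ q - 1 / 2 ^ d

/-- `F_c(z)` -/
noncomputable def Fc (μ : (Fin d → S → ZMod 2) → (Fin d → ZMod 2) → ℝ)
    (c : Fin d → ZMod 2) (z : Fin d → S → ZMod 2) : ℝ := ∑ s, μ z s * sg (dt c s)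

/-- `a_c(h)` -/
noncomputable def ac (μ : (Fin d → S → ZMod 2) → (Fin d → ZMod 2) → ℝ)
    (c : Fin d → ZMod 2) (h : S → ZMod 2) : ℝ := avg fun z => Fc μ c z * sg (dt c (ev h z))

/-- The heavy pairs. -/
noncomputable def Hvy (μ : (Fin d → S → ZMod 2) → (Fin d → ZMod 2) → ℝ) (t : ℝ) :
    Finset ((S → ZMod 2) × (Fin d → ZMod 2)) := by
  classical exact univ.filter fun q => t ≤ ms μ q

lemma mem_Hvy {μ : (Fin d → S → ZMod 2) → (Fin d → ZMod 2) → ℝ} {t : ℝ}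
    {q : (S → ZMod 2) × (Fin d → ZMod 2)} : q ∈ Hvy μ t ↔ t ≤ ms μ q := by
  unfold Hvy; simp

end two

section odd

variable {A : Type} [Fintype A] {k d : ℕ}

/-- All blocks of `h` have odd support. -/
def IsOdd (h : Fin k × A → ZMod 2) : Prop := ∀ j, ∑ a, h (j, a) = 1

variable [DecidableEq A]

/-- The odd functions. -/
noncomputable def Odds (A : Type) [Fintype A] [DecidableEq A] (k : ℕ) :
    Finset (Fin k × A → ZMod 2) := by
  classical exact univ.filter IsOdd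

lemma mem_Odds {h : Fin k × A → ZMod 2} : h ∈ Odds A k ↔ IsOdd h := by
  unfold Odds; simp

/-- The sum of the squares over the odd pairs. -/
noncomputable def Sig (μ : (Fin d → Fin k × A → ZMod 2) → (Fin d → ZMod 2) → ℝ) : ℝ :=
  ∑ h ∈ Odds A k, ∑ τ, Ms μ (h, τ) ^ 2

/-- The odd heavy pairs. -/
noncomputable def HO (μ : (Fin d → Fin k × A → ZMod 2) → (Fin d → ZMod 2) → ℝ) (t : ℝ) :
    Finset ((Fin k × A → ZMod 2) × (Fin d → ZMod 2)) := by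
  classical exact univ.filter fun q => IsOdd q.1 ∧ t ≤ ms μ q

lemma mem_HO {μ : (Fin d → Fin k × A → ZMod 2) → (Fin d → ZMod 2) → ℝ} {t : ℝ}
    {q : (Fin k × A → ZMod 2) × (Fin d → ZMod 2)} : q ∈ HO μ t ↔ IsOdd q.1 ∧ t ≤ ms μ q := by
  unfold HO; simp

/-- `f + ε p + π` -/
def lz (f : Fin d → ZMod 2) (p : ZMod 2) (ε π : Fin d → ZMod 2) : Fin d → ZMod 2 :=
  fun i => f i + ε i * p + π i

/-- The bound `θ` of Lemma L. -/
noncomputable def theta (d : ℕ) (t Hn : ℝ) : ℝ :=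
  Hn / 2 ^ d + √(√(t ^ 2 + 14 / 2 ^ d * (1 + Hn) ^ 4))

end odd

/-- F1, F2, F3 -/
def COEF : Prop := ∀ (S : Type) [Fintype S] [DecidableEq S] (d : ℕ)
  (μ : (Fin d → S → ZMod 2) → (Fin d → ZMod 2) → ℝ), IsLaw μ →
    (∀ c, c ≠ 0 → ∀ h, ac μ c h = ∑ τ, sg (dt c τ) * Ms μ (h, τ)) ∧
    (∀ h, ∑ τ, Ms μ (h, τ) = 0) ∧
    (∀ h, ∑ τ, Ms μ (h, τ) ^ 2 = (∑ c ∈ univ.erase 0, ac μ c h ^ 2) / 2 ^ d) ∧
    (∀ c, c ≠ 0 → ∑ h, ac μ c h ^ 2 ≤ 1) ∧ ∑ q, Ms μ q ^ 2 ≤ 1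

/-- F4 -/
def COUNT : Prop := ∀ (S : Type) [Fintype S] [DecidableEq S] (d : ℕ)
  (μ : (Fin d → S → ZMod 2) → (Fin d → ZMod 2) → ℝ), IsLaw μ → ∀ t : ℝ, 1 / 2 ^ d < t →
    ((Hvy μ t).card : ℝ) ≤ 1 / (t - 1 / 2 ^ d) ^ 2

/-- F5 -/
def SUP : Prop := ∀ (A : Type) [Fintype A] [DecidableEq A] (d k : ℕ)
  (μ : (Fin d → Fin k × A → ZMod 2) → (Fin d → ZMod 2) → ℝ), IsLaw μ → ∀ c, c ≠ 0 →
    ∀ y, |∑ h ∈ Odds A k, ac μ c h * sg (dt h y)| ≤ 1

/-- F6 -/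
def PAIR : Prop := ∀ (S : Type) [Fintype S] [DecidableEq S] (d : ℕ)
  (q q' : (S → ZMod 2) × (Fin d → ZMod 2)), q ≠ q' →
    pr (fun z : Fin d → S → ZMod 2 => ev q.1 z + q.2 = ev q'.1 z + q'.2) ≤ 1 / 2 ^ d

/-- The second moment estimate in the proof of Lemma S. -/
def SECOND : Prop := ∀ (S : Type) [Fintype S] [DecidableEq S] (d : ℕ)
  (Φ : (Fin d → S → ZMod 2) → ℝ) (c : Fin d → ZMod 2), c ≠ 0 →
    (avg fun w : (Fin d → S → ZMod 2) × (S → ZMod 2) =>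
      (avg fun ε => Φ (w.1 + tn ε w.2)) ^ 2 +
        (avg fun ε => sg (dt c ε) * Φ (w.1 + tn ε w.2)) ^ 2) ≤
      ((avg fun y => Φ y ^ 2) + ∑ h, (avg fun y => Φ y * sg (dt c (ev h y))) ^ 2) / 2

/-- Lemma S -/
def LEMS : Prop := ∀ (A : Type) [Fintype A] [DecidableEq A] (d k : ℕ)
  (μ : (Fin d → Fin k × A → ZMod 2) → (Fin d → ZMod 2) → ℝ), IsLaw μ →
  ∀ (f : (Fin d → Fin k × A → ZMod 2) → (Fin k × A → ZMod 2) → Fin d → ZMod 2)
    (p : (Fin d → Fin k × A → ZMod 2) → (Fin k × A → ZMod 2) → ZMod 2),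
    (avg fun w : (Fin d → Fin k × A → ZMod 2) × (Fin k × A → ZMod 2) × (Fin d → ZMod 2) ×
        (Fin d → Fin k → ZMod 2) =>
      μ w.1 (lz (f (shift w.1 w.2.1 w.2.2.1 w.2.2.2) w.2.1)
        (p (shift w.1 w.2.1 w.2.2.1 w.2.2.2) w.2.1) w.2.2.1 (par w.2.2.2))) ≤
      1 / 2 ^ d + √((1 + Sig μ) / 2)

/-- Linear independence of three vectors over `F_2`. -/
def Ind3 {d : ℕ} (c₁ c₂ c₃ : Fin d → ZMod 2) : Prop :=
  ∀ l₁ l₂ l₃ : ZMod 2, (∀ i, l₁ * c₁ i + l₂ * c₂ i + l₃ * c₃ i = 0) → l₁ = 0 ∧ l₂ = 0 ∧ l₃ = 0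

/-- The function with the given coefficients. -/
noncomputable def PhiF {S : Type} [Fintype S] [DecidableEq S] {d : ℕ}
    (a : (Fin d → ZMod 2) → (S → ZMod 2) → ℝ) (c : Fin d → ZMod 2) (y : S → ZMod 2) : ℝ :=
  ∑ h, a c h * sg (dt h y)

def IND : Prop := ∀ (S : Type) [Fintype S] [DecidableEq S] (d : ℕ)
  (a : (Fin d → ZMod 2) → (S → ZMod 2) → ℝ) (c₁ c₂ c₃ : Fin d → ZMod 2), Ind3 c₁ c₂ c₃ →
    (avg fun z : Fin d → S → ZMod 2 => PhiF a c₁ (cz c₁ z) * PhiF a c₂ (cz c₂ z) *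
      PhiF a c₃ (cz c₃ z) * PhiF a (c₁ + c₂ + c₃) (cz (c₁ + c₂ + c₃) z)) =
      ∑ h, a c₁ h * a c₂ h * a c₃ h * a (c₁ + c₂ + c₃) h

def DEP : Prop := ∀ d : ℕ,
  pr (fun c : (Fin d → ZMod 2) × (Fin d → ZMod 2) × (Fin d → ZMod 2) =>
    ¬ Ind3 c.1 c.2.1 c.2.2) ≤ 7 / 2 ^ d

def QUAD : Prop := ∀ (S : Type) [Fintype S] [DecidableEq S] (a₁ a₂ a₃ a₄ : (S → ZMod 2) → ℝ)
  (K : ℝ), 0 ≤ K → (∀ y, |∑ h, a₁ h * sg (dt h y)| ≤ K) → (∀ y, |∑ h, a₂ h * sg (dt h y)| ≤ K) →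
    (∀ y, |∑ h, a₃ h * sg (dt h y)| ≤ K) → (∀ y, |∑ h, a₄ h * sg (dt h y)| ≤ K) →
    |∑ h, a₁ h * a₂ h * a₃ h * a₄ h| ≤ K ^ 4

def FOURTH : Prop := ∀ (S : Type) [Fintype S] [DecidableEq S] (d : ℕ)
  (a : (Fin d → ZMod 2) → (S → ZMod 2) → ℝ) (K : ℝ), 0 ≤ K → (∀ c y, |PhiF a c y| ≤ K) →
    (avg fun c : (Fin d → ZMod 2) × (Fin d → ZMod 2) × (Fin d → ZMod 2) =>
      avg fun z : Fin d → S → ZMod 2 => PhiF a c.1 (cz c.1 z) * PhiF a c.2.1 (cz c.2.1 z) *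
      PhiF a c.2.2 (cz c.2.2 z) * PhiF a (c.1 + c.2.1 + c.2.2) (cz (c.1 + c.2.1 + c.2.2) z)) ≤
    (avg fun c : (Fin d → ZMod 2) × (Fin d → ZMod 2) × (Fin d → ZMod 2) =>
      ∑ h, a c.1 h * a c.2.1 h * a c.2.2 h * a (c.1 + c.2.1 + c.2.2) h) + 14 / 2 ^ d * K ^ 4

/-- Lemma L -/
def LEML : Prop := ∀ (A : Type) [Fintype A] [DecidableEq A] (d k : ℕ)
  (μ : (Fin d → Fin k × A → ZMod 2) → (Fin d → ZMod 2) → ℝ), IsLaw μ → ∀ t Hn : ℝ,
    1 / 2 ^ d ≤ t → ((HO μ t).card : ℝ) ≤ Hn →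
    Sig μ ≤ (∑ q ∈ HO μ t, Ms μ q ^ 2) + theta d t Hn

/-- Lemma L and Bonferroni. -/
def HEAVY : Prop := ∀ (A : Type) [Fintype A] [DecidableEq A] (d k : ℕ)
  (μ : (Fin d → Fin k × A → ZMod 2) → (Fin d → ZMod 2) → ℝ), IsLaw μ → ∀ t Hn : ℝ,
    1 / 2 ^ d ≤ t → ((HO μ t).card : ℝ) ≤ Hn →
    Sig μ ≤ ((avg fun z => ∑ s, μ z s * ind (∃ q ∈ HO μ t, s = ev q.1 z + q.2)) +
      Hn ^ 2 / 2 ^ d) ^ 2 + theta d t Hn

/-! ### Section 3: one tuple of left vertices -/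

section three

variable {A : Type} [Fintype A] [DecidableEq A] {d k : ℕ}

/-- The labels at one tuple of left vertices. -/
structure Str (A : Type) (d k : ℕ) where
  f : (Fin d → Fin k × A → ZMod 2) → (Fin k × A → ZMod 2) → Fin d → ZMod 2
  p : (Fin d → Fin k × A → ZMod 2) → (Fin k × A → ZMod 2) → ZMod 2
  f' : Fin k → (A → ZMod 2) → (Fin d → Fin k × A → ZMod 2) → Fin d → ZMod 2
  p' : Fin k → (A → ZMod 2) → (Fin d → Fin k × A → ZMod 2) → ZMod 2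
  F : Fin k → (A → ZMod 2) → (A → ZMod 2) → (Fin d → Fin k × A → ZMod 2) → Fin d → ZMod 2
  q : Fin k → (A → ZMod 2) → (A → ZMod 2) → (Fin d → Fin k × A → ZMod 2) → ZMod 2
  r : Fin k → (A → ZMod 2) → (A → ZMod 2) → (Fin d → Fin k × A → ZMod 2) → ZMod 2

variable {Ω : Type} [Fintype Ω]

/-- The fraction of the satisfied edges of type z. -/
noncomputable def pz (z : Ω → Fin d → Fin k × A → ZMod 2) (s : Ω → Fin d → ZMod 2)
    (T : Str A d k) : ℝ :=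
  pr fun w : Ω × (Fin k × A → ZMod 2) × (Fin d → ZMod 2) × (Fin d → Fin k → ZMod 2) =>
    lz (T.f (shift (z w.1) w.2.1 w.2.2.1 w.2.2.2) w.2.1)
      (T.p (shift (z w.1) w.2.1 w.2.2.1 w.2.2.2) w.2.1) w.2.2.1 (par w.2.2.2) = s w.1

/-- The fraction of the satisfied edges of type c. -/
noncomputable def pc (z : Ω → Fin d → Fin k × A → ZMod 2) (s : Ω → Fin d → ZMod 2)
    (T : Str A d k) : ℝ :=
  pr fun w : Ω × (Fin k × (A → ZMod 2)) × (Fin d → ZMod 2) × (Fin d → Fin k → ZMod 2) =>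
    lz (T.f (shift (z w.1) (loc w.2.1.1 w.2.1.2) w.2.2.1 w.2.2.2) (loc w.2.1.1 w.2.1.2))
      (T.p (shift (z w.1) (loc w.2.1.1 w.2.1.2) w.2.2.1 w.2.2.2) (loc w.2.1.1 w.2.1.2))
      w.2.2.1 (par w.2.2.2) = s w.1

/-- The fraction of the satisfied edges of type e. -/
noncomputable def pe (T : Str A d k) : ℝ :=
  pr fun w : (Fin d → Fin k × A → ZMod 2) × Fin k × (A → ZMod 2) =>
    T.f w.1 (loc w.2.1 w.2.2) = T.f' w.2.1 w.2.2 w.1 ∧
      T.p w.1 (loc w.2.1 w.2.2) = T.p' w.2.1 w.2.2 w.1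

/-- The fraction of the satisfied edges of type a; `w = (g, (j, α, β), (ε, ε'))`. -/
noncomputable def pa (T : Str A d k) : ℝ :=
  pr fun w : (Fin d → Fin k × A → ZMod 2) × (Fin k × (A → ZMod 2) × (A → ZMod 2)) ×
      ((Fin d → ZMod 2) × (Fin d → ZMod 2)) =>
    (fun i => T.F w.2.1.1 w.2.1.2.1 w.2.1.2.2 w.1 i +
        w.2.2.1 i * T.r w.2.1.1 w.2.1.2.1 w.2.1.2.2 w.1 +
        w.2.2.2 i * (T.q w.2.1.1 w.2.1.2.1 w.2.1.2.2 w.1 * T.r w.2.1.1 w.2.1.2.1 w.2.1.2.2 w.1)) =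
      T.f' w.2.1.1 w.2.1.2.1 (shift2 w.1 w.2.1.1 w.2.1.2.1 w.2.1.2.2 w.2.2.1 w.2.2.2) ∧
    T.q w.2.1.1 w.2.1.2.1 w.2.1.2.2 w.1 =
      T.p' w.2.1.1 w.2.1.2.1 (shift2 w.1 w.2.1.1 w.2.1.2.1 w.2.1.2.2 w.2.2.1 w.2.2.2)

/-- The law of `z` is close to the uniform distribution. -/
def Cov {Z : Type} [Fintype Z] (z : Ω → Z) (ξ : ℝ) : Prop :=
  ∀ φ : Z → ℝ, (∀ w, 0 ≤ φ w ∧ φ w ≤ 1) → |(avg fun ω => φ (z ω)) - avg φ| ≤ ξ

/-- The list. -/
noncomputable def LL (z : Ω → Fin d → Fin k × A → ZMod 2) (s : Ω → Fin d → ZMod 2) (t : ℝ) :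
    Finset ((Fin k × A → ZMod 2) × (Fin d → ZMod 2)) := by
  classical exact univ.filter fun q => IsOdd q.1 ∧ t ≤ pr fun ω => s ω = ev q.1 (z ω) + q.2

lemma mem_LL {z : Ω → Fin d → Fin k × A → ZMod 2} {s : Ω → Fin d → ZMod 2} {t : ℝ}
    {q : (Fin k × A → ZMod 2) × (Fin d → ZMod 2)} :
    q ∈ LL z s t ↔ IsOdd q.1 ∧ t ≤ pr fun ω => s ω = ev q.1 (z ω) + q.2 := by
  unfold LL; simp

/-- The probability that `s` follows a member of the list. -/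
noncomputable def GG (z : Ω → Fin d → Fin k × A → ZMod 2) (s : Ω → Fin d → ZMod 2)
    (L : Finset ((Fin k × A → ZMod 2) × (Fin d → ZMod 2))) : ℝ :=
  pr fun ω => ∃ q ∈ L, s ω = ev q.1 (z ω) + q.2

/-- The probability that `P` follows a member of the list. -/
noncomputable def PP (T : Str A d k) (L : Finset ((Fin k × A → ZMod 2) × (Fin d → ZMod 2))) : ℝ :=
  pr fun w : (Fin d → Fin k × A → ZMod 2) × Fin k × (A → ZMod 2) =>
    ∃ q ∈ L, T.f w.1 (loc w.2.1 w.2.2) = ev q.1 w.1 + q.2 ∧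
      T.p w.1 (loc w.2.1 w.2.2) = dt q.1 (loc w.2.1 w.2.2)

/-- The probability that `T` follows a member of the list. -/
noncomputable def PT (T : Str A d k) (L : Finset ((Fin k × A → ZMod 2) × (Fin d → ZMod 2))) : ℝ :=
  pr fun w : (Fin d → Fin k × A → ZMod 2) × Fin k × (A → ZMod 2) =>
    ∃ q ∈ L, T.f' w.2.1 w.2.2 w.1 = ev q.1 w.1 + q.2 ∧
      T.p' w.2.1 w.2.2 w.1 = dt q.1 (loc w.2.1 w.2.2)

/-- The probability that `α` is constant on the `j`-th support of a member of the list. -/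
noncomputable def kap (L : Finset ((Fin k × A → ZMod 2) × (Fin d → ZMod 2))) : ℝ :=
  pr fun w : Fin k × (A → ZMod 2) => ∃ q ∈ L, ∃ c, ∀ a, q.1 (w.1, a) = 1 → w.2 a = c

end three

/-- The law of `s` given `z`. -/
def LAW : Prop := ∀ (Ω Z L : Type) [Fintype Ω] [Fintype Z] [Fintype L] [Nonempty L]
  (z : Ω → Z) (s : Ω → L), ∃ μ : Z → L → ℝ, IsLaw μ ∧
    ∀ φ : Z → L → ℝ, (avg fun ω => φ (z ω) (s ω)) = avg fun ω => ∑ l, μ (z ω) l * φ (z ω) l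

/-- (Z) -/
def ROWZ : Prop := ∀ (A : Type) [Fintype A] [DecidableEq A] (d k : ℕ) (Ω : Type) [Fintype Ω]
  [Nonempty Ω] (z : Ω → Fin d → Fin k × A → ZMod 2) (s : Ω → Fin d → ZMod 2) (T : Str A d k)
  (ξ t Hn : ℝ), Cov z ξ → 1 / 2 ^ d < t → 1 / (t - 1 / 2 ^ d) ^ 2 ≤ Hn →
    pz z s T ≤ 1 / 2 ^ d + ξ +
      √((1 + (GG z s (LL z s (t - ξ)) + ξ + Hn ^ 2 / 2 ^ d) ^ 2 + theta d t Hn) / 2)

/-- The number of elements of the list. -/
def ROWLL : Prop := ∀ (A : Type) [Fintype A] [DecidableEq A] (d k : ℕ) (Ω : Type) [Fintype Ω]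
  [Nonempty Ω] (z : Ω → Fin d → Fin k × A → ZMod 2) (s : Ω → Fin d → ZMod 2)
  (ξ t : ℝ), Cov z ξ → 1 / 2 ^ d + ξ < t →
    ((LL z s t).card : ℝ) ≤ 1 / (t - ξ - 1 / 2 ^ d) ^ 2

/-- (C) -/
def ROWC : Prop := ∀ (A : Type) [Fintype A] [DecidableEq A] (d k : ℕ) [NeZero k] (Ω : Type)
  [Fintype Ω] [Nonempty Ω] (z : Ω → Fin d → Fin k × A → ZMod 2) (s : Ω → Fin d → ZMod 2)
  (T : Str A d k) (ξ : ℝ) (L : Finset ((Fin k × A → ZMod 2) × (Fin d → ZMod 2))),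
    Cov z ξ → (∀ q ∈ L, IsOdd q.1) →
    GG z s L ≤ (1 - pc z s T) + PP T L + L.card / 2 ^ d + 2 * ξ

/-- (E) -/
def ROWE : Prop := ∀ (A : Type) [Fintype A] [DecidableEq A] (d k : ℕ) [NeZero k] (T : Str A d k)
  (L : Finset ((Fin k × A → ZMod 2) × (Fin d → ZMod 2))), PP T L ≤ (1 - pe T) + PT T L

/-- (A) -/
def ROWA : Prop := ∀ (A : Type) [Fintype A] [DecidableEq A] (d k : ℕ) [NeZero k] (T : Str A d k)
  (L : Finset ((Fin k × A → ZMod 2) × (Fin d → ZMod 2))),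
    PT T L ≤ 2 * (1 - pa T) + 2 * (L.card / 2 ^ d) + kap L

/-- (SUM) with the numbers. -/
def INNER : Prop := ∀ (A : Type) [Fintype A] [DecidableEq A] (k : ℕ) [NeZero k] (Ω : Type)
  [Fintype Ω] [Nonempty Ω] (z : Ω → Fin 126 → Fin k × A → ZMod 2) (s : Ω → Fin 126 → ZMod 2)
  (T : Str A 126 k) (ξ : ℝ), ξ ≤ 1 / 2 ^ 13 → Cov z ξ →
    ((LL z s (1 / 2 ^ 12)).card : ℝ) ≤ 2 ^ 28 ∧
    47 / 10 - 5 * kap (LL z s (1 / 2 ^ 12)) ≤
      17 * (1 - pz z s T) + 5 * (1 - pc z s T) + 5 * (1 - pe T) + 10 * (1 - pa T)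

/-! ### Covering and outer soundness -/

section outer

variable {A B : Type} [Fintype A] [Fintype B] [DecidableEq A] [DecidableEq B] {d k n : ℕ}

/-- The edge tuples over the tuple `u` of left vertices. -/
def EU (I : LabelCover A B) {k : ℕ} (u : Fin k → I.X) : Type :=
  {e : Fin k → I.E // ∀ j, I.src (e j) = u j}

noncomputable instance (I : LabelCover A B) {k : ℕ} (u : Fin k → I.X) : Fintype (EU I u) := by
  classical exact inferInstanceAs (Fintype {e : Fin k → I.E // ∀ j, I.src (e j) = u j})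

/-- The probability space over the tuple `u`. -/
abbrev OU (I : LabelCover A B) (d k n : ℕ) (u : Fin k → I.X) : Type :=
  EU I u × (Fin k → Fin n) × (Fin d → Fin k × (A ⊕ B) → ZMod 2)

/-- The map `z` over the tuple `u`. -/
def zU (I : LabelCover A B) (d k n : ℕ) (u : Fin k → I.X) (ω : OU I d k n u) :
    Fin d → Fin k × A → ZMod 2 := pull I ω.1.1 ω.2.1 ω.2.2

/-- The labels of the vertices `G` over the tuple `u`. -/
def sU (I : LabelCover A B) (d k n : ℕ)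
    (s : (Fin k → I.X ⊕ I.Y) × (Fin d → Fin k × (A ⊕ B) → ZMod 2) → Fin d → ZMod 2)
    (u : Fin k → I.X) (ω : OU I d k n u) : Fin d → ZMod 2 :=
  s (side I ω.1.1 ω.2.1, mask (side I ω.1.1 ω.2.1) ω.2.2)

/-- The restriction of the character `h`. -/
def rst (I : LabelCover A B) (e : Fin k → I.E) (b : Fin k → Fin n) (h : Fin k × A → ZMod 2) :
    Fin k × (A ⊕ B) → ZMod 2 := fun s =>
  match s.2 with
  | Sum.inl a => if (b s.1 : ℕ) = 0 then 0 else h (s.1, a)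
  | Sum.inr c => if (b s.1 : ℕ) = 0 then ∑ a, if I.proj (e s.1) a = c then h (s.1, a) else 0 else 0

/-- The list of the tuple `W`. -/
noncomputable def MM (I : LabelCover A B) (d k : ℕ)
    (s : (Fin k → I.X ⊕ I.Y) × (Fin d → Fin k × (A ⊕ B) → ZMod 2) → Fin d → ZMod 2) (t : ℝ)
    (W : Fin k → I.X ⊕ I.Y) : Finset ((Fin k × (A ⊕ B) → ZMod 2) × (Fin d → ZMod 2)) := by
  classical exact univ.filter fun q => t ≤ pr fun y => s (W, mask W y) = ev q.1 y + q.2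

lemma mem_MM {I : LabelCover A B} {d k : ℕ}
    {s : (Fin k → I.X ⊕ I.Y) × (Fin d → Fin k × (A ⊕ B) → ZMod 2) → Fin d → ZMod 2} {t : ℝ}
    {W : Fin k → I.X ⊕ I.Y} {q : (Fin k × (A ⊕ B) → ZMod 2) × (Fin d → ZMod 2)} :
    q ∈ MM I d k s t W ↔ t ≤ pr fun y => s (W, mask W y) = ev q.1 y + q.2 := by
  unfold MM; simp

/-- The `j`-th support. -/
def sj (h : Fin k × A → ZMod 2) (j : Fin k) : Finset A := univ.filter fun a => h (j, a) = 1

/-- The blocks with small support. -/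
def JJ (l : ℕ) (h : Fin k × A → ZMod 2) : Finset (Fin k) := univ.filter fun j => (sj h j).card ≤ l

end outer

/-- The covering estimate for a fixed tuple of edges. -/
def COVE : Prop := ∀ (A B : Type) [Fintype A] [Fintype B] [DecidableEq A] [DecidableEq B]
  (I : LabelCover A B) (d k n : ℕ) [NeZero n] (e : Fin k → I.E),
    Cov (fun ω : (Fin k → Fin n) × (Fin d → Fin k × (A ⊕ B) → ZMod 2) => pull I e ω.1 ω.2)
      √((1 + 2 ^ (d * Fintype.card A) / (n : ℝ) ^ 2) ^ k - 1)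

/-- The covering estimate over a tuple of left vertices. -/
def COVU : Prop := ∀ (A B : Type) [Fintype A] [Fintype B] [DecidableEq A] [DecidableEq B]
  (I : LabelCover A B) (d k n : ℕ) [NeZero n] (u : Fin k → I.X), Nonempty (EU I u) →
    Cov (zU I d k n u) √((1 + 2 ^ (d * Fintype.card A) / (n : ℝ) ^ 2) ^ k - 1)

/-- `h(z(e, b, y)) = h^{e,b}(y)` -/
def RST : Prop := ∀ (A B : Type) [Fintype A] [Fintype B] [DecidableEq A] [DecidableEq B]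
  (I : LabelCover A B) (d k n : ℕ) (e : Fin k → I.E) (b : Fin k → Fin n)
  (h : Fin k × A → ZMod 2) (y : Fin d → Fin k × (A ⊕ B) → ZMod 2),
    ev h (pull I e b y) = ev (rst I e b h) y

def MMCARD : Prop := ∀ (A B : Type) [Fintype A] [Fintype B] [DecidableEq A] [DecidableEq B]
  (I : LabelCover A B) (d k : ℕ)
  (s : (Fin k → I.X ⊕ I.Y) × (Fin d → Fin k × (A ⊕ B) → ZMod 2) → Fin d → ZMod 2) (t : ℝ)
  (W : Fin k → I.X ⊕ I.Y), 1 / 2 ^ d < t → ((MM I d k s t W).card : ℝ) ≤ 1 / (t - 1 / 2 ^ d) ^ 2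

/-- `P(R_h) ≥ t - t'` for the members of the list. -/
def RPROB : Prop := ∀ (A B : Type) [Fintype A] [Fintype B] [DecidableEq A] [DecidableEq B]
  (I : LabelCover A B) (d k n : ℕ) [NeZero n]
  (s : (Fin k → I.X ⊕ I.Y) × (Fin d → Fin k × (A ⊕ B) → ZMod 2) → Fin d → ZMod 2) (t t' : ℝ)
  (u : Fin k → I.X), Nonempty (EU I u) → 0 ≤ t' →
    ∀ q ∈ LL (zU I d k n u) (sU I d k n s u) t,
      t - t' ≤ pr fun w : EU I u × (Fin k → Fin n) =>
        (rst I w.1.1 w.2 q.1, q.2) ∈ MM I d k s t' (side I w.1.1 w.2)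

/-- The second moment estimate for the number of replaced blocks. -/
def VAR : Prop := ∀ (D : Type) [Fintype D] [Nonempty D] (k n : ℕ) [NeZero n]
  (R : D × (Fin k → Fin n) → Prop) (J : Finset (Fin k)),
    pr R * (J.card / n) ≤
      (avg fun w : D × (Fin k → Fin n) =>
        ind (R w) * ((J.filter fun j => (w.2 j : ℕ) = 0).card : ℝ)) + √(k / n)

/-- The labelings. -/
def LABEL : Prop := ∀ (A B : Type) [Fintype A] [Fintype B] [DecidableEq A] [DecidableEq B]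
  [Nonempty A] (I : LabelCover A B) (d k n N l : ℕ)
  (L : (Fin k → I.X) → Finset ((Fin k × A → ZMod 2) × (Fin d → ZMod 2)))
  (M : (Fin k → I.X ⊕ I.Y) → Finset ((Fin k × (A ⊕ B) → ZMod 2) × (Fin d → ZMod 2))),
    (∀ u, (L u).card ≤ N) → (∀ W, (M W).card ≤ N) → (∀ u, ∀ q ∈ L u, IsOdd q.1) →
    ∀ (b : Fin k → Fin n) (j : Fin k), (b j : ℕ) = 0 →
    (avg fun e : Fin k → I.E => ∑ q ∈ L fun i => I.src (e i),
      ind ((sj q.1 j).card ≤ l ∧ (rst I e b q.1, q.2) ∈ M (side I e b))) ≤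
      (N : ℝ) ^ 2 * (l : ℝ) ^ 2 * I.value

def KAP : Prop := ∀ (A : Type) [Fintype A] [DecidableEq A] (d k l : ℕ) [NeZero k]
  (L : Finset ((Fin k × A → ZMod 2) × (Fin d → ZMod 2))),
    kap L ≤ (∑ q ∈ L, ((JJ l q.1).card / k : ℝ)) + L.card / 2 ^ l

/-- Outer soundness, general parameters. -/
def OUTER : Prop := ∀ (A B : Type) [Fintype A] [Fintype B] [DecidableEq A] [DecidableEq B]
  [Nonempty A] (I : LabelCover A B) (d k n N l : ℕ) [NeZero k] [NeZero n]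
  (s : (Fin k → I.X ⊕ I.Y) × (Fin d → Fin k × (A ⊕ B) → ZMod 2) → Fin d → ZMod 2) (t t' : ℝ),
    0 ≤ t' → t' < t →
    (∀ u, Nonempty (EU I u) → (LL (zU I d k n u) (sU I d k n s u) t).card ≤ N) →
    (∀ W, (MM I d k s t' W).card ≤ N) →
    (avg fun e : Fin k → I.E => kap (LL (zU I d k n fun i => I.src (e i))
      (sU I d k n s fun i => I.src (e i)) t)) ≤
      1 / (t - t') * ((N : ℝ) ^ 2 * (l : ℝ) ^ 2 * I.value + N * √(n / k)) + N / 2 ^ l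

/-! ### The game -/

section game

variable {A B : Type} [Fintype A] [Fintype B] [DecidableEq A] [DecidableEq B] {d k n : ℕ}

/-- The labels at the tuple `u` of a labeling of the game. -/
def strat (I : LabelCover A B) (LU : VL I d k → (Fin d → ZMod 2) × ZMod 2 × ZMod 2)
    (LV : VR I d k → (Fin d → ZMod 2) × ZMod 2 × ZMod 2) (u : Fin k → I.X) : Str A d k where
  f g x := (LU (Sum.inl (u, g, x))).1
  p g x := (LU (Sum.inl (u, g, x))).2.1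
  f' j α t := (LV (Sum.inr (u, j, α, t))).1
  p' j α t := (LV (Sum.inr (u, j, α, t))).2.1
  F j α β g := (LU (Sum.inr (u, j, α, β, g))).1
  q j α β g := (LU (Sum.inr (u, j, α, β, g))).2.1
  r j α β g := (LU (Sum.inr (u, j, α, β, g))).2.2

end game

/-- Averages over all tuples of edges and over the tuples of edges over `u`. -/
def FIB : Prop := ∀ (A B : Type) (I : LabelCover A B) (k : ℕ) (f : (Fin k → I.E) → ℝ)
  (g : (Fin k → I.X) → ℝ),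
  (∀ u : Fin k → I.X, Nonempty (EU I u) → g u ≤ avg fun e : EU I u => f e.1) →
    (avg fun e : Fin k → I.E => g fun i => I.src (e i)) ≤ avg f

/-- The value of the game and the four fractions. -/
def VALUE : Prop := ∀ (A B : Type) [Fintype A] [Fintype B] [DecidableEq A] [DecidableEq B]
  (I : LabelCover A B) (d k n : ℕ) [NeZero k] [NeZero n] (v : ℝ),
  (∀ (LU : VL I d k → (Fin d → ZMod 2) × ZMod 2 × ZMod 2)
    (LV : VR I d k → (Fin d → ZMod 2) × ZMod 2 × ZMod 2),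
    37 * (1 - v) ≤ avg fun e : Fin k → I.E =>
      17 * (1 - pz (fun ω : (Fin k → Fin n) × (Fin d → Fin k × (A ⊕ B) → ZMod 2) =>
          pull I e ω.1 ω.2) (fun ω => (LV (Sum.inl (side I e ω.1, mask (side I e ω.1) ω.2))).1)
          (strat I LU LV fun i => I.src (e i))) +
      5 * (1 - pc (fun ω : (Fin k → Fin n) × (Fin d → Fin k × (A ⊕ B) → ZMod 2) =>
          pull I e ω.1 ω.2) (fun ω => (LV (Sum.inl (side I e ω.1, mask (side I e ω.1) ω.2))).1)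
          (strat I LU LV fun i => I.src (e i))) +
      5 * (1 - pe (strat I LU LV fun i => I.src (e i))) +
      10 * (1 - pa (strat I LU LV fun i => I.src (e i)))) →
  (game I d k n).value ≤ v

def COMPL : Prop := ∀ (A B : Type) [Fintype A] [Fintype B] [DecidableEq A] [DecidableEq B]
  (I : LabelCover A B) (d k n : ℕ) [NeZero k] [NeZero n], I.value = 1 → (game I d k n).value = 1

def CARDE : Prop := ∀ (A B : Type) [Fintype A] [Fintype B] [DecidableEq A] [DecidableEq B]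
  (d k n : ℕ) [NeZero k] [NeZero n], ∃ C : ℕ, ∀ I : LabelCover A B,
    Nat.card (game I d k n).E = C * Nat.card I.E ^ k

/-- The theorem. -/
def MAIN : Prop := ∀ (A B : Type) [Fintype A] [Fintype B] [DecidableEq A] [DecidableEq B]
  [Nonempty A], ∃ k C : ℕ, ∀ I : LabelCover A B,
    (∀ e b, Nat.card {a // (red I).proj e a = b} = 0 ∨ Nat.card {a // (red I).proj e a = b} = 2) ∧
    Nat.card (red I).E = C * Nat.card I.E ^ k ∧
    (I.value = 1 → (red I).value = 1) ∧ (I.value ≤ 1 / 2 ^ 90 → (red I).value ≤ 7 / 8)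

end Pool.Agent.MP_ec946a.SE
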