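import Mathlib
import Pool.Agent.Lib.SE.Props

/-!
# Row CARDE: the number of edges of the game
-/

set_option autoImplicit false

namespace Pool.Agent.MP_ec946a.SE

open Finset Pool.Agent.MP_ec946a.LR

theorem carde : CARDE := by
  intro A B _ _ _ _ d k n _ _
  refine ⟨37 * (Nat.card ((Fin k → Fin n) × (Fin d → Fin k × (A ⊕ B) → ZMod 2)) *
    Nat.card (((Fin d → Fin k × A → ZMod 2) × (Fin k × A → ZMod 2) × (Fin d → ZMod 2) ×
        (Fin d → ZMod 2) × (Fin d → Fin k → ZMod 2)) × (Fin k × (A → ZMod 2) × (A → ZMod 2)))),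
    fun I => ?_⟩
  change Nat.card (Fin 37 × Data I d k n) = _
  rw [Nat.card_prod, Nat.card_congr (dataEquiv I d k n), Nat.card_prod,
    Nat.card_prod (Fin k → I.E), Nat.card_fun, Nat.card_fin, Nat.card_fin]
  ring

end Pool.Agent.MP_ec946a.SE
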