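import Pool.Agent.Lib.SE.Base71
import Pool.Agent.Lib.SE.Props

/-!
# Row COEF (helper71)
-/

set_option autoImplicit false
set_option linter.unusedSectionVars false

namespace Pool.Agent.MP_ec946a.SE

open Finset Pool.Agent.MP_ec946a.LR

namespace C71

open Pool.Agent.SE

variable {S : Type} [Fintype S] [DecidableEq S] {d : ℕ}

/-- currying -/
def cur (S : Type) (d : ℕ) : (Fin d × S → ZMod 2) ≃ (Fin d → S → ZMod 2) :=
  Equiv.curry (Fin d) S (ZMod 2)

/-- the law in the uncurried form -/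
def un (μ : (Fin d → S → ZMod 2) → (Fin d → ZMod 2) → ℝ) :
    (Fin d × S → ZMod 2) → (Fin d → ZMod 2) → ℝ := fun z s => μ (cur S d z) s

theorem isPr {μ : (Fin d → S → ZMod 2) → (Fin d → ZMod 2) → ℝ} (hμ : IsLaw μ) :
    Four.IsPr (un μ) := ⟨fun z s => hμ.nonneg _ s, fun z => hμ.sum _⟩

theorem ev_cur (h : S → ZMod 2) (z : Fin d × S → ZMod 2) : ev h (cur S d z) = Four.ap h z := rfl

theorem qd_eq : Four.qd (Fin d) = 2 ^ d := by
  unfold Four.qd
  rw [Fintype.card_fun, ZMod.card, Fintype.card_fin]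
  push_cast
  rfl

theorem mm_eq (μ : (Fin d → S → ZMod 2) → (Fin d → ZMod 2) → ℝ) (h : S → ZMod 2)
    (τ : Fin d → ZMod 2) : Four.mm (un μ) h τ = ms μ (h, τ) :=
  avg_equiv (cur S d) fun z => μ z (ev h z + τ)

theorem Mm_eq (μ : (Fin d → S → ZMod 2) → (Fin d → ZMod 2) → ℝ) (h : S → ZMod 2)
    (τ : Fin d → ZMod 2) : Four.Mm (un μ) h τ = Ms μ (h, τ) := by
  unfold Four.Mm Ms
  rw [mm_eq, qd_eq]

theorem ac_eq (μ : (Fin d → S → ZMod 2) → (Fin d → ZMod 2) → ℝ) (c : Fin d → ZMod 2)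
    (h : S → ZMod 2) : Four.ac (un μ) c h = ac μ c h := by
  unfold Four.ac
  simp_rw [Four.dt_ten]
  exact avg_equiv (cur S d) fun z => Fc μ c z * sg (dt c (ev h z))

end C71

open C71 Pool.Agent.SE in
theorem coef : COEF := by
  intro S _ _ d μ hμ
  have hp := isPr hμ
  have h3 : ∀ h, ∑ τ, Ms μ (h, τ) ^ 2 = (∑ c ∈ univ.erase 0, ac μ c h ^ 2) / 2 ^ d := by
    intro h
    have e := Four.F2 hp h
    simp_rw [Mm_eq, ac_eq] at e
    rw [e, qd_eq]
    congr 1
    rw [← sum_erase univ (a := (0 : Fin d → ZMod 2)) (by rw [if_pos rfl])]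
    refine sum_congr rfl fun c hc => ?_
    rw [if_neg (ne_of_mem_erase hc)]
  have h4 : ∀ c : Fin d → ZMod 2, c ≠ 0 → ∑ h, ac μ c h ^ 2 ≤ 1 := by
    intro c hc
    have e := Four.F3 hp hc
    simp_rw [ac_eq] at e
    exact e
  refine ⟨fun c hc h => ?_, fun h => ?_, h3, h4, ?_⟩
  · have e := Four.F1' (μ := un μ) hc h
    rw [ac_eq] at e
    simp_rw [Mm_eq] at e
    exact e
  · have e := Four.sum_Mm hp h
    simp_rw [Mm_eq] at e
    exact e
  · rw [Fintype.sum_prod_type]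
    simp_rw [h3]
    rw [← sum_div, sum_comm, div_le_one (by positivity)]
    calc ∑ c ∈ univ.erase (0 : Fin d → ZMod 2), ∑ h, ac μ c h ^ 2
        ≤ ∑ c ∈ univ.erase (0 : Fin d → ZMod 2), (1 : ℝ) :=
          sum_le_sum fun c hc => h4 c (ne_of_mem_erase hc)
      _ ≤ ∑ c : Fin d → ZMod 2, (1 : ℝ) :=
          sum_le_sum_of_subset_of_nonneg (erase_subset _ _) fun _ _ _ => zero_le_one
      _ = 2 ^ d := by
          rw [sum_const, card_univ, nsmul_eq_mul, mul_one]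
          exact qd_eq

end Pool.Agent.MP_ec946a.SE
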