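import Mathlib
import Pool.Agent.Lib.SE.Props

/-!
# Completeness of the reduction
-/

set_option autoImplicit false

namespace Pool.Agent.MP_ec946a.SE

open Finset Pool.Agent.MP_ec946a.LR

namespace COMPLrow

/-- a game all of whose edges are satisfied by one labeling has value one -/
lemma value_eq_one {q : ℕ} (G : Game q) (LU : G.U → Fin q) (LV : G.V → Fin q)
    (h : ∀ e, G.proj e (LU (G.src e)) = LV (G.tgt e)) : G.value = 1 := by
  have hc : (0 : ℝ) < (Nat.card G.E : ℝ) := by exact_mod_cast Nat.card_pos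
  have hle : ∀ L : (G.U → Fin q) × (G.V → Fin q),
      (Nat.card (G.satisfied L.1 L.2) : ℝ) / (Nat.card G.E : ℝ) ≤ 1 := by
    intro L
    rw [div_le_one hc]
    exact_mod_cast Nat.card_le_card_of_injective (Subtype.val : G.satisfied L.1 L.2 → G.E)
      Subtype.val_injective
  have : Nonempty ((G.U → Fin q) × (G.V → Fin q)) := ⟨(LU, LV)⟩
  refine le_antisymm (ciSup_le hle) ?_
  have hb : BddAbove (Set.range fun L : (G.U → Fin q) × (G.V → Fin q) =>
      (Nat.card (G.satisfied L.1 L.2) : ℝ) / (Nat.card G.E : ℝ)) := by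
    refine ⟨1, ?_⟩
    rintro _ ⟨L, rfl⟩
    exact hle L
  refine le_trans (le_of_eq ?_) (le_ciSup hb (LU, LV))
  have h1 : G.satisfied LU LV = Set.univ := Set.eq_univ_of_forall h
  simp only [h1]
  rw [Nat.card_congr (Equiv.Set.univ G.E), div_self hc.ne']

/-- an instance of value one has a labeling which satisfies all edges -/
lemma exists_labeling {A B : Type} [Fintype A] [Fintype B] (I : LabelCover A B)
    (h : I.value = 1) : ∃ L : I.Labeling, ∀ e, I.Sat L e := by
  unfold LabelCover.value at h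
  cases isEmpty_or_nonempty I.Labeling
  · rw [Real.iSup_of_isEmpty] at h
    exact absurd h zero_ne_one
  · obtain ⟨L, hL⟩ := exists_eq_ciSup_of_finite
      (f := fun L : I.Labeling => (Nat.card {e // I.Sat L e} : ℝ) / (Nat.card I.E : ℝ))
    refine ⟨L, ?_⟩
    rw [h] at hL
    have hc : (Nat.card I.E : ℝ) ≠ 0 := by exact_mod_cast Nat.card_pos.ne'
    have h2 : Nat.card {e // I.Sat L e} = Nat.card I.E := by
      exact_mod_cast (div_eq_one_iff_eq hc).1 hL
    have h3 : Function.Bijective (Subtype.val : {e // I.Sat L e} → I.E) :=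
      (Nat.bijective_iff_injective_and_card _).2 ⟨Subtype.val_injective, h2⟩
    intro e
    obtain ⟨x, hx⟩ := h3.2 e
    rw [← hx]
    exact x.2

variable {A B : Type} {d k n : ℕ}

/-- the labels of the left vertices -/
def labL (I : LabelCover A B) (L : I.Labeling) : VL I d k → (Fin d → ZMod 2) × ZMod 2 × ZMod 2
  | Sum.inl (u, g, x) => (fun i => ∑ j, g i (j, L.1 (u j)), ∑ j, x (j, L.1 (u j)), 0)
  | Sum.inr (u, j, α, β, g) => (fun i => ∑ j, g i (j, L.1 (u j)), α (L.1 (u j)), β (L.1 (u j)))

/-- the labels of the right vertices -/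
def labR (I : LabelCover A B) (L : I.Labeling) : VR I d k → (Fin d → ZMod 2) × ZMod 2 × ZMod 2
  | Sum.inl (W, y) => (fun i => ∑ j, y i (j, Sum.map L.1 L.2 (W j)), 0, 0)
  | Sum.inr (u, j, α, t) => (fun i => ∑ j, t i (j, L.1 (u j)), α (L.1 (u j)), 0)

lemma sum_loc (I : LabelCover A B) (L : I.Labeling) (u : Fin k → I.X) (j : Fin k)
    (α : A → ZMod 2) : ∑ j', loc j α (j', L.1 (u j')) = α (L.1 (u j)) := by
  unfold loc
  rw [Finset.sum_eq_single j]
  · exact if_pos rfl
  · intro b _ hb
    exact if_neg hb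
  · intro h
    exact absurd (mem_univ j) h

lemma pull_eq (I : LabelCover A B) (L : I.Labeling) (hL : ∀ e, I.Sat L e)
    (e : Fin k → I.E) (b : Fin k → Fin n) (y : Fin d → Fin k × (A ⊕ B) → ZMod 2) (i : Fin d)
    (j : Fin k) : pull I e b y i (j, L.1 (I.src (e j))) =
      mask (side I e b) y i (j, Sum.map L.1 L.2 (side I e b j)) := by
  have hs := hL (e j)
  unfold LabelCover.Sat at hs
  unfold pull mask side
  by_cases hb : (b j : ℕ) = 0
  · simp [hb, hs]
  · simp [hb]

lemma sum_shift (I : LabelCover A B) (L : I.Labeling) (u : Fin k → I.X)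
    (z : Fin d → Fin k × A → ZMod 2) (x : Fin k × A → ZMod 2) (ε : Fin d → ZMod 2)
    (δ : Fin d → Fin k → ZMod 2) (i : Fin d) :
    ∑ j, shift z x ε δ i (j, L.1 (u j)) + ε i * ∑ j, x (j, L.1 (u j)) + par δ i =
      ∑ j, z i (j, L.1 (u j)) := by
  unfold shift par
  rw [sum_add_distrib, sum_add_distrib, ← mul_sum]
  have h1 := z2_self (ε i * ∑ j, x (j, L.1 (u j)))
  have h2 := z2_self (∑ j, δ i j)
  linear_combination h1 + h2

lemma sum_shift2 (I : LabelCover A B) (L : I.Labeling) (u : Fin k → I.X)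
    (g : Fin d → Fin k × A → ZMod 2) (j : Fin k) (α β : A → ZMod 2) (ε ε' : Fin d → ZMod 2)
    (i : Fin d) :
    ∑ j', shift2 g j α β ε ε' i (j', L.1 (u j')) =
      ∑ j', g i (j', L.1 (u j')) + ε i * β (L.1 (u j)) +
        ε' i * (α (L.1 (u j)) * β (L.1 (u j))) := by
  unfold shift2
  rw [sum_add_distrib, sum_add_distrib, ← mul_sum, ← mul_sum, sum_loc, sum_loc]

lemma sat (I : LabelCover A B) (L : I.Labeling) (hL : ∀ e, I.Sat L e) (m : Fin 37)
    (t : Data I d k n) : mapE I m t (labL I L (endL I m t)) = labR I L (endR I m t) := by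
  unfold mapE endL endR
  by_cases h1 : (m : ℕ) < 17
  · have h2 : (m : ℕ) < 22 := by omega
    simp only [h1, h2, if_true, labL, labR]
    refine Prod.ext (funext fun i => ?_) rfl
    simp only
    rw [sum_shift]
    exact sum_congr rfl fun j _ => pull_eq I L hL t.e t.b t.y i j
  · by_cases h2 : (m : ℕ) < 22
    · simp only [h1, h2, if_true, if_false, labL, labR]
      refine Prod.ext (funext fun i => ?_) rfl
      simp only
      rw [sum_shift]
      exact sum_congr rfl fun j _ => pull_eq I L hL t.e t.b t.y i j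
    · by_cases h3 : (m : ℕ) < 27
      · simp only [h1, h2, h3, if_true, if_false, labL, labR, sum_loc]
      · simp only [h1, h2, h3, if_false, labL, labR]
        refine Prod.ext (funext fun i => ?_) rfl
        simp only
        rw [sum_shift2]

end COMPLrow

theorem compl : COMPL := by
  intro A B _ _ _ _ I d k n _ _ h
  obtain ⟨L, hL⟩ := COMPLrow.exists_labeling I h
  refine COMPLrow.value_eq_one (game I d k n)
    (fun x => (lab d).symm (COMPLrow.labL I L x)) (fun x => (lab d).symm (COMPLrow.labR I L x)) ?_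
  intro e
  show (lab d).symm (mapE I e.1 e.2 (lab d ((lab d).symm (COMPLrow.labL I L (endL I e.1 e.2))))) =
    (lab d).symm (COMPLrow.labR I L (endR I e.1 e.2))
  rw [Equiv.apply_symm_apply, COMPLrow.sat I L hL]

end Pool.Agent.MP_ec946a.SE
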