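import Mathlib
import Pool.Agent.Lib.SE.Props

/-!
# The number of heavy pairs (row COUNT)
-/

set_option autoImplicit false

namespace Pool.Agent.MP_ec946a.SE

open Finset Pool.Agent.MP_ec946a.LR

theorem count (h : COEF) : COUNT := by
  intro S _ _ d μ hμ t ht
  have h5 := (h S d μ hμ).2.2.2.2
  have ht0 : 0 < t - 1 / 2 ^ d := by linarith
  rw [le_div_iff₀ (by positivity)]
  calc ((Hvy μ t).card : ℝ) * (t - 1 / 2 ^ d) ^ 2 = ∑ q ∈ Hvy μ t, (t - 1 / 2 ^ d) ^ 2 := by
        rw [sum_const, nsmul_eq_mul]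
    _ ≤ ∑ q ∈ Hvy μ t, Ms μ q ^ 2 := by
        refine sum_le_sum fun q hq => ?_
        rw [mem_Hvy] at hq
        refine pow_le_pow_left₀ ht0.le ?_ 2
        unfold Ms
        linarith
    _ ≤ ∑ q, Ms μ q ^ 2 := sum_le_univ_sum_of_nonneg fun q => sq_nonneg _
    _ ≤ 1 := h5

namespace COUNT

/-- A deterministic label. -/
theorem isLaw_ind {Z L : Type} [Fintype L] (s : Z → L) :
    IsLaw fun z l => ind (s z = l) := by
  classical
  refine ⟨fun z l => ind_nonneg _, fun z => ?_⟩
  rw [sum_eq_single (s z)]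
  · exact ind_true rfl
  · intro l _ hl
    exact ind_false fun h => hl h.symm
  · intro h
    exact absurd (mem_univ _) h

/-- `∑ s, μ s * ind (s = a) = μ a` -/
theorem sum_ind {L : Type} [Fintype L] (μ : L → ℝ) (a : L) :
    ∑ s, μ s * ind (s = a) = μ a := by
  classical
  rw [sum_eq_single a]
  · rw [ind_true rfl, mul_one]
  · intro l _ hl
    rw [ind_false hl, mul_zero]
  · intro h
    exact absurd (mem_univ _) h

end COUNT

theorem mmcard (h : COUNT) : MMCARD := by
  intro A B _ _ _ _ I d k s t W ht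
  have h1 := h (Fin k × (A ⊕ B)) d (fun y l => ind (s (W, mask W y) = l))
    (COUNT.isLaw_ind fun y => s (W, mask W y)) t ht
  have h2 : MM I d k s t W = Hvy (fun y l => ind (s (W, mask W y) = l)) t := by
    ext q
    rw [mem_MM, mem_Hvy]
    rfl
  rw [h2]
  exact h1

theorem rowLL (h : LAW) (h' : COUNT) : ROWLL := by
  intro A _ _ d k Ω _ _ z s ξ t hc ht
  obtain ⟨μ, hμ, hφ⟩ := h Ω (Fin d → Fin k × A → ZMod 2) (Fin d → ZMod 2) z s
  have h1 := h' (Fin k × A) d μ hμ (t - ξ) (by linarith)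
  refine le_trans ?_ h1
  have h2 : LL z s t ⊆ Hvy μ (t - ξ) := by
    intro q hq
    rw [mem_LL] at hq
    rw [mem_Hvy]
    have h3 : (pr fun ω => s ω = ev q.1 (z ω) + q.2) = avg fun ω => μ (z ω) (ev q.1 (z ω) + q.2) := by
      unfold pr
      rw [hφ fun w l => ind (l = ev q.1 w + q.2)]
      exact congrArg avg (funext fun ω => COUNT.sum_ind _ _)
    have h4 := hc (fun w => μ w (ev q.1 w + q.2)) fun w => ⟨hμ.nonneg _ _, by
      rw [← hμ.sum w]
      exact single_le_sum (fun l _ => hμ.nonneg w l) (mem_univ _)⟩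
    have h5 := (abs_le.1 h4).2
    have h6 := hq.2
    rw [h3] at h6
    unfold ms
    linarith
  exact_mod_cast card_le_card h2

end Pool.Agent.MP_ec946a.SE
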