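import Mathlib
import Pool.Agent.Lib.SE.Props

/-!
# The covering estimate
-/

set_option autoImplicit false

namespace Pool.Agent.MP_ec946a.SE

open Finset Pool.Agent.MP_ec946a.LR

namespace COVE

section gen

variable {Ω Z X : Type} [Fintype Ω] [Fintype Z] [Fintype X]

lemma ind_and (p q : Prop) : ind (p ∧ q) = ind p * ind q := by
  by_cases hp : p <;> by_cases hq : q
  · rw [ind_true ⟨hp, hq⟩, ind_true hp, ind_true hq, mul_one]
  · rw [ind_false fun h => hq h.2, ind_false hq, mul_zero]
  · rw [ind_false fun h => hp h.1, ind_false hp, zero_mul]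
  · rw [ind_false fun h => hp h.1, ind_false hp, zero_mul]

lemma ind_forall {ι : Type} [Fintype ι] (p : ι → Prop) : ind (∀ j, p j) = ∏ j, ind (p j) := by
  by_cases h : ∀ j, p j
  · rw [ind_true h]
    exact (prod_eq_one fun j _ => ind_true (h j)).symm
  · rw [ind_false h]
    push Not at h
    obtain ⟨j, hj⟩ := h
    exact (prod_eq_zero (mem_univ j) (ind_false hj)).symm

lemma ind_congr {p q : Prop} (h : p ↔ q) : ind p = ind q := by rw [propext h]

/-- The sum over all values of the indicator. -/
lemma sum_ind_eq (φ : Z → ℝ) (w : Z) : ∑ v, ind (w = v) * φ v = φ w := by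
  classical
  rw [sum_eq_single w]
  · rw [ind_true rfl, one_mul]
  · intro v _ hv
    rw [ind_false fun h => hv h.symm, zero_mul]
  · intro h
    exact absurd (mem_univ w) h

/-- the average over a product space of a product -/
lemma avg_pi {k : ℕ} (f : Fin k → X → ℝ) :
    (avg fun x : Fin k → X => ∏ j, f j (x j)) = ∏ j, avg (f j) := by
  classical
  unfold avg
  rw [prod_div_distrib, prod_const, card_univ, Fintype.card_fin, Fintype.card_fun,
    Fintype.card_fin]
  congr 1
  · rw [Finset.prod_univ_sum]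
    simp
  · push_cast
    rfl

/-- The collision probability. -/
lemma cov_coll [Nonempty Ω] (z : Ω → Z) (x : ℝ)
    (h : (Fintype.card Z : ℝ) * pr (fun w : Ω × Ω => z w.1 = z w.2) ≤ 1 + x) :
    Cov z √x := by
  intro φ hφ
  have hZ : Nonempty Z := ⟨z (Classical.arbitrary Ω)⟩
  set N : ℝ := (Fintype.card Z : ℝ) with hN
  have hN0 : 0 < N := by
    rw [hN]
    exact_mod_cast Fintype.card_pos
  set q : Z → ℝ := fun v => pr fun ω => z ω = v with hq
  -- the density
  have h1 : (avg fun ω => φ (z ω)) = ∑ v, q v * φ v := by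
    have h2 : (avg fun ω => φ (z ω)) = avg fun ω => ∑ v, ind (z ω = v) * φ v := by
      congr 1
      funext ω
      exact (sum_ind_eq φ (z ω)).symm
    rw [h2, avg_finset_sum]
    refine sum_congr rfl fun v _ => ?_
    rw [avg_mul_right]
    rfl
  have h3 : ∑ v, q v = 1 := by
    have h4 : ∑ v, q v = avg fun ω => ∑ v, ind (z ω = v) := (avg_finset_sum _ _).symm
    rw [h4]
    have h5 : (fun ω => ∑ v, ind (z ω = v)) = fun _ : Ω => (1 : ℝ) := by
      funext ω
      have := sum_ind_eq (fun _ => (1 : ℝ)) (z ω)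
      simpa using this
    rw [h5, avg_const]
  have h6 : ∑ v, q v ^ 2 = pr (fun w : Ω × Ω => z w.1 = z w.2) := by
    have h7 : pr (fun w : Ω × Ω => z w.1 = z w.2) = avg fun ω => q (z ω) := by
      unfold pr
      rw [avg_prod, avg_comm]
      rfl
    rw [h7]
    have h8 : (avg fun ω => q (z ω)) = avg fun ω => ∑ v, ind (z ω = v) * q v := by
      congr 1
      funext ω
      exact (sum_ind_eq q (z ω)).symm
    rw [h8, avg_finset_sum]
    refine sum_congr rfl fun v _ => ?_
    rw [avg_mul_right, sq]
    rfl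
  have h9 : (avg fun ω => φ (z ω)) - avg φ = ∑ v, (q v - 1 / N) * φ v := by
    rw [h1]
    unfold avg
    rw [← hN, sum_div, ← sum_sub_distrib]
    refine sum_congr rfl fun v _ => ?_
    ring
  rw [h9]
  refine Real.abs_le_sqrt ?_
  have h10 : ∑ v, φ v ^ 2 ≤ N := by
    calc ∑ v, φ v ^ 2 ≤ ∑ _v : Z, (1 : ℝ) := by
          refine sum_le_sum fun v _ => ?_
          have := hφ v
          nlinarith [this.1, this.2]
      _ = N := by rw [sum_const, card_univ, nsmul_eq_mul, mul_one]
  have h11 : ∑ v, (q v - 1 / N) ^ 2 = (∑ v, q v ^ 2) - 1 / N := by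
    have h12 : ∑ v, (q v - 1 / N) ^ 2 = ∑ v, (q v ^ 2 - 2 / N * q v + 1 / N ^ 2) := by
      refine sum_congr rfl fun v _ => ?_
      field_simp
      ring
    rw [h12, sum_add_distrib, sum_sub_distrib, ← mul_sum, h3, sum_const, card_univ, nsmul_eq_mul,
      ← hN]
    field_simp
    ring
  calc (∑ v, (q v - 1 / N) * φ v) ^ 2 ≤ (∑ v, (q v - 1 / N) ^ 2) * ∑ v, φ v ^ 2 :=
        sum_mul_sq_le_sq_mul_sq _ _ _
    _ ≤ (∑ v, (q v - 1 / N) ^ 2) * N := by
        refine mul_le_mul_of_nonneg_left h10 (sum_nonneg fun _ _ => sq_nonneg _)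
    _ = N * (∑ v, q v ^ 2) - 1 := by
        rw [h11]
        field_simp
    _ ≤ x := by
        rw [h6]
        linarith

end gen

section block

variable {A B : Type} [Fintype A] [Fintype B] [DecidableEq A] [DecidableEq B] {d n : ℕ}

/-- One block. -/
def bl (A B : Type) (d n : ℕ) : Type := Fin n × (Fin d → A ⊕ B → ZMod 2)

instance : Fintype (bl A B d n) := inferInstanceAs (Fintype (Fin n × (Fin d → A ⊕ B → ZMod 2)))

/-- The map on one block. -/
def mb (π : A → B) (w : bl A B d n) : Fin d → A → ZMod 2 := fun i a =>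
  if (w.1 : ℕ) = 0 then w.2 i (Sum.inr (π a)) else w.2 i (Sum.inl a)

/-- A function with two parts. -/
def sp : (Fin d → A ⊕ B → ZMod 2) ≃ (Fin d → A → ZMod 2) × (Fin d → B → ZMod 2) where
  toFun y := (fun i a => y i (Sum.inl a), fun i b => y i (Sum.inr b))
  invFun y := fun i s => Sum.elim (y.1 i) (y.2 i) s
  left_inv y := by
    funext i s
    cases s <;> rfl
  right_inv y := rfl

lemma card_bl : (Fintype.card (Fin d → A → ZMod 2) : ℝ) = 2 ^ (d * Fintype.card A) := by
  rw [Fintype.card_fun, Fintype.card_fun, ZMod.card, Fintype.card_fin, ← pow_mul, mul_comm]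
  push_cast
  rfl

/-- A uniform value. -/
lemma avg_left (v : Fin d → A → ZMod 2) :
    (avg fun y : Fin d → A ⊕ B → ZMod 2 => ind ((fun i a => y i (Sum.inl a)) = v)) =
      1 / 2 ^ (d * Fintype.card A) := by
  have h1 := avg_equiv (sp (A := A) (B := B) (d := d))
    (fun w : (Fin d → A → ZMod 2) × (Fin d → B → ZMod 2) => ind (w.1 = v))
  have h2 := avg_fst (α := Fin d → A → ZMod 2) (β := Fin d → B → ZMod 2) (fun w => ind (w = v))
  have h3 : (avg fun w : Fin d → A → ZMod 2 => ind (w = v)) = 1 / 2 ^ (d * Fintype.card A) := by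
    unfold avg
    rw [card_bl]
    congr 1
    rw [sum_eq_single v]
    · exact ind_true rfl
    · intro w _ hw
      exact ind_false hw
    · intro h
      exact absurd (mem_univ v) h
  rw [h2, h3] at h1
  exact h1

lemma coll_one [NeZero n] (π : A → B) :
    (2 : ℝ) ^ (d * Fintype.card A) *
      pr (fun w : bl A B d n × bl A B d n => mb π w.1 = mb π w.2) ≤
      1 + 2 ^ (d * Fintype.card A) / (n : ℝ) ^ 2 := by
  set K : ℝ := 2 ^ (d * Fintype.card A) with hK
  have hK0 : 0 < K := by positivity
  have hn0 : (0 : ℝ) < n := by exact_mod_cast Nat.pos_of_ne_zero (NeZero.ne n)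
  have h1 : pr (fun w : bl A B d n × bl A B d n => mb π w.1 = mb π w.2) =
      avg fun b : Fin n => avg fun b' : Fin n =>
        avg fun y : Fin d → A ⊕ B → ZMod 2 => avg fun y' : Fin d → A ⊕ B → ZMod 2 =>
          ind (mb π ((b, y) : bl A B d n) = mb π ((b', y') : bl A B d n)) := by
    unfold pr
    rw [avg_prod]
    have h2 : ∀ g : bl A B d n → ℝ, avg g = avg fun b : Fin n =>
        avg fun y : Fin d → A ⊕ B → ZMod 2 => g ((b, y) : bl A B d n) :=
      fun g => avg_prod (α := Fin n) (β := Fin d → A ⊕ B → ZMod 2) g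
    rw [h2]
    congr 1
    funext b
    rw [avg_comm]
    rw [h2]
    congr 1
    funext b'
    rw [avg_comm]
  have h3 : ∀ b b' : Fin n, (avg fun y : Fin d → A ⊕ B → ZMod 2 =>
      avg fun y' : Fin d → A ⊕ B → ZMod 2 =>
        ind (mb π ((b, y) : bl A B d n) = mb π ((b', y') : bl A B d n))) ≤
      1 / K + ind (b = 0) * ind (b' = 0) := by
    intro b b'
    by_cases hb : b = 0
    · by_cases hb' : b' = 0
      · rw [ind_true hb, ind_true hb', mul_one]
        have : (avg fun y : Fin d → A ⊕ B → ZMod 2 => avg fun y' : Fin d → A ⊕ B → ZMod 2 =>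
            ind (mb π ((b, y) : bl A B d n) = mb π ((b', y') : bl A B d n))) ≤ 1 :=
          avg_le_const zero_le_one fun y => avg_le_const zero_le_one fun y' => ind_le_one _
        have h4 : 0 < 1 / K := by positivity
        linarith
      · rw [ind_false hb', mul_zero, add_zero]
        refine avg_le_const (by positivity) fun y => ?_
        have hb2 : ((b' : Fin n) : ℕ) ≠ 0 := fun h => hb' (Fin.ext (by rw [h]; rfl))
        have h5 : ∀ y', mb π ((b', y') : bl A B d n) = fun i a => y' i (Sum.inl a) := by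
          intro y'
          funext i a
          exact if_neg hb2
        have h6 := avg_left (A := A) (B := B) (mb π ((b, y) : bl A B d n))
        rw [← hK] at h6
        rw [← h6]
        refine le_of_eq (congrArg avg (funext fun y' => ind_congr ?_))
        rw [h5 y']
        exact eq_comm
    · rw [ind_false hb, zero_mul, add_zero, avg_comm]
      refine avg_le_const (by positivity) fun y' => ?_
      have hb2 : ((b : Fin n) : ℕ) ≠ 0 := fun h => hb (Fin.ext (by rw [h]; rfl))
      have h5 : ∀ y, mb π ((b, y) : bl A B d n) = fun i a => y i (Sum.inl a) := by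
        intro y
        funext i a
        exact if_neg hb2
      have h6 := avg_left (A := A) (B := B) (mb π ((b', y') : bl A B d n))
      rw [← hK] at h6
      rw [← h6]
      refine le_of_eq (congrArg avg (funext fun y => ind_congr ?_))
      rw [h5 y]
  have h7 : (avg fun b : Fin n => ind (b = 0)) = 1 / n := by
    unfold avg
    rw [Fintype.card_fin]
    congr 1
    rw [sum_eq_single 0]
    · exact ind_true rfl
    · intro w _ hw
      exact ind_false hw
    · intro h
      exact absurd (mem_univ _) h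
  have h8 : (avg fun b : Fin n => avg fun b' : Fin n => 1 / K + ind (b = 0) * ind (b' = 0)) =
      1 / K + 1 / n * (1 / n) := by
    have h9 : (fun b : Fin n => avg fun b' : Fin n => 1 / K + ind (b = 0) * ind (b' = 0)) =
        fun b : Fin n => 1 / K + ind (b = 0) * (1 / n) := by
      funext b
      rw [avg_add (fun _ => 1 / K) (fun b' : Fin n => ind (b = 0) * ind (b' = 0)), avg_const,
        avg_mul_left, h7]
    rw [h9, avg_add (fun _ : Fin n => 1 / K), avg_const, avg_mul_right, h7]
  rw [h1]
  calc K * (avg fun b : Fin n => avg fun b' : Fin n =>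
        avg fun y : Fin d → A ⊕ B → ZMod 2 => avg fun y' : Fin d → A ⊕ B → ZMod 2 =>
          ind (mb π ((b, y) : bl A B d n) = mb π ((b', y') : bl A B d n)))
      ≤ K * (1 / K + 1 / n * (1 / n)) := by
        refine mul_le_mul_of_nonneg_left ?_ hK0.le
        rw [← h8]
        exact avg_mono fun b => avg_mono fun b' => h3 b b'
    _ = 1 + K / (n : ℝ) ^ 2 := by field_simp

end block

/-- Blocks. -/
def re {A B : Type} (d k n : ℕ) :
    ((Fin k → Fin n) × (Fin d → Fin k × (A ⊕ B) → ZMod 2)) ×
      ((Fin k → Fin n) × (Fin d → Fin k × (A ⊕ B) → ZMod 2)) ≃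
      (Fin k → bl A B d n × bl A B d n) where
  toFun w := fun j => ((w.1.1 j, fun i s => w.1.2 i (j, s)), (w.2.1 j, fun i s => w.2.2 i (j, s)))
  invFun w := ((fun j => (w j).1.1, fun i s => (w s.1).1.2 i s.2),
    (fun j => (w j).2.1, fun i s => (w s.1).2.2 i s.2))
  left_inv _ := rfl
  right_inv _ := rfl

end COVE

open COVE in
theorem cove : COVE := by
  intro A B _ _ _ _ I d k n _ e
  refine cov_coll _ _ ?_
  have h1 : (Fintype.card (Fin d → Fin k × A → ZMod 2) : ℝ) =
      ∏ _j : Fin k, (2 : ℝ) ^ (d * Fintype.card A) := by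
    rw [card_bl, Fintype.card_prod, Fintype.card_fin, prod_const, card_univ, Fintype.card_fin,
      ← pow_mul]
    congr 1
    ring
  have h2 : pr (fun w : ((Fin k → Fin n) × (Fin d → Fin k × (A ⊕ B) → ZMod 2)) ×
      ((Fin k → Fin n) × (Fin d → Fin k × (A ⊕ B) → ZMod 2)) =>
      pull I e w.1.1 w.1.2 = pull I e w.2.1 w.2.2) =
      ∏ j, pr (fun w : bl A B d n × bl A B d n => mb (I.proj (e j)) w.1 = mb (I.proj (e j)) w.2)
      := by
    unfold pr
    rw [← avg_pi (fun j (w : bl A B d n × bl A B d n) =>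
      ind (mb (I.proj (e j)) w.1 = mb (I.proj (e j)) w.2)), ← avg_equiv (re d k n)]
    congr 1
    funext w
    rw [← ind_forall]
    refine ind_congr ⟨fun h j => ?_, fun h => ?_⟩
    · funext i a
      exact congrFun (congrFun h i) (j, a)
    · funext i s
      exact congrFun (congrFun (h s.1) i) s.2
  rw [h1, h2, ← prod_mul_distrib]
  have h3 : ∏ j, ((2 : ℝ) ^ (d * Fintype.card A) *
      pr (fun w : bl A B d n × bl A B d n => mb (I.proj (e j)) w.1 = mb (I.proj (e j)) w.2)) ≤
      ∏ _j : Fin k, (1 + 2 ^ (d * Fintype.card A) / (n : ℝ) ^ 2) :=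
    prod_le_prod (fun j _ => mul_nonneg (by positivity) (pr_nonneg _)) fun j _ => coll_one _
  rw [prod_const, card_univ, Fintype.card_fin] at h3
  linarith

end Pool.Agent.MP_ec946a.SE
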