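import Mathlib
import Pool.Agent.Lib.SE.Props

/-!
# Rows COVU and FIB
-/

set_option autoImplicit false

namespace Pool.Agent.MP_ec946a.SE

open Finset Pool.Agent.MP_ec946a.LR

theorem covu (h : COVE) : COVU := by
  intro A B _ _ _ _ I d k n _ u hne φ hφ
  set ξ : ℝ := √((1 + 2 ^ (d * Fintype.card A) / (n : ℝ) ^ 2) ^ k - 1) with hξ
  have h0 : 0 ≤ ξ := Real.sqrt_nonneg _
  have h1 : (avg fun ω : OU I d k n u => φ (zU I d k n u ω)) =
      avg fun e : EU I u => avg fun ω : (Fin k → Fin n) × (Fin d → Fin k × (A ⊕ B) → ZMod 2) =>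
        φ (pull I e.1 ω.1 ω.2) := avg_prod _
  have h2 : (avg fun ω : OU I d k n u => φ (zU I d k n u ω)) - avg φ =
      avg fun e : EU I u => (avg fun ω : (Fin k → Fin n) × (Fin d → Fin k × (A ⊕ B) → ZMod 2) =>
        φ (pull I e.1 ω.1 ω.2)) - avg φ := by
    rw [h1, avg_sub, avg_const]
  rw [h2]
  refine (abs_avg_le _).trans (avg_le_const h0 fun e => ?_)
  exact h A B I d k n e.1 φ hφ

theorem fib : FIB := by
  classical
  intro A B I k f g h
  refine avg_le_of_fib (fun e : Fin k → I.E => fun j => I.src (e j)) _ _ fun u => ?_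
  have h1 : ∀ F : (Fin k → I.E) → ℝ,
      (∑ x ∈ univ.filter (fun x : Fin k → I.E => (fun j => I.src (x j)) = u), F x) =
        ∑ e : EU I u, F e.1 := by
    intro F
    refine Finset.sum_bij' (fun x hx => (⟨x, fun j => congrFun (mem_filter.1 hx).2 j⟩ : EU I u))
      (fun e _ => e.1) ?_ ?_ ?_ ?_ ?_
    · intro x _
      exact mem_univ _
    · intro e _
      exact mem_filter.2 ⟨mem_univ _, funext e.2⟩
    · intro x _
      rfl
    · intro e _
      rfl
    · intro x _
      rfl
  rw [h1 f]
  have h2 : (∑ x ∈ univ.filter (fun x : Fin k → I.E => (fun j => I.src (x j)) = u),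
      g fun i => I.src (x i)) = ∑ _e : EU I u, g u := by
    rw [h1 fun x => g fun i => I.src (x i)]
    refine sum_congr rfl fun e _ => ?_
    congr 1
    exact funext e.2
  rw [h2]
  by_cases hne : Nonempty (EU I u)
  · have h3 := h u hne
    unfold avg at h3
    have h4 : (0 : ℝ) < Fintype.card (EU I u) := by exact_mod_cast Fintype.card_pos
    rw [le_div_iff₀ h4] at h3
    rw [sum_const, card_univ, nsmul_eq_mul, mul_comm]
    exact h3
  · rw [not_nonempty_iff] at hne
    rw [Fintype.sum_empty, Fintype.sum_empty]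

end Pool.Agent.MP_ec946a.SE
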