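import Mathlib

/-!
# Fourier analysis on `F₂^T` with averages (MP_ec946a, helper71)
-/

set_option autoImplicit false
open Finset

namespace Pool.Agent.SE.Four

/-- the sign -/
noncomputable def sg (a : ZMod 2) : ℝ := if a = 0 then 1 else -1

theorem zcases (a : ZMod 2) : a = 0 ∨ a = 1 := by
  fin_cases a
  · exact Or.inl rfl
  · exact Or.inr rfl

@[simp] theorem sg_zero : sg 0 = 1 := by simp [sg]

@[simp] theorem sg_one : sg 1 = -1 := by
  have : (1 : ZMod 2) ≠ 0 := by decide
  simp [sg]

theorem one_add_one : (1 : ZMod 2) + 1 = 0 := by decide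

theorem sg_add (a b : ZMod 2) : sg (a + b) = sg a * sg b := by
  rcases zcases a with rfl | rfl <;> rcases zcases b with rfl | rfl <;> simp [one_add_one]

@[simp] theorem sg_mul_self (a : ZMod 2) : sg a * sg a = 1 := by
  rcases zcases a with rfl | rfl <;> simp

@[simp] theorem abs_sg (a : ZMod 2) : |sg a| = 1 := by
  rcases zcases a with rfl | rfl <;> simp

theorem sg_sq (a : ZMod 2) : sg a ^ 2 = 1 := by rw [sq, sg_mul_self]

theorem sg_ne_zero (a : ZMod 2) : sg a ≠ 0 := by
  rcases zcases a with rfl | rfl <;> simp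

theorem sg_sum {ι : Type} (s : Finset ι) (f : ι → ZMod 2) : sg (∑ i ∈ s, f i) = ∏ i ∈ s, sg (f i) := by
  classical
  induction s using Finset.induction_on with
  | empty => simp
  | insert a s ha ih => rw [sum_insert ha, prod_insert ha, sg_add, ih]

/-- the average -/
noncomputable def av {α : Type} [Fintype α] (f : α → ℝ) : ℝ := (∑ x, f x) / Fintype.card α

section av
variable {α β : Type} [Fintype α] [Fintype β]

theorem card_pos' [Nonempty α] : (0 : ℝ) < Fintype.card α := by
  exact_mod_cast Fintype.card_pos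

theorem av_add (f g : α → ℝ) : av (fun x => f x + g x) = av f + av g := by
  unfold av
  rw [sum_add_distrib, add_div]

theorem av_sub (f g : α → ℝ) : av (fun x => f x - g x) = av f - av g := by
  unfold av
  rw [sum_sub_distrib, sub_div]

theorem av_mul_left (c : ℝ) (f : α → ℝ) : av (fun x => c * f x) = c * av f := by
  unfold av
  rw [← mul_sum, mul_div_assoc]

theorem av_mul_right (c : ℝ) (f : α → ℝ) : av (fun x => f x * c) = av f * c := by
  unfold av
  rw [← sum_mul, div_mul_eq_mul_div]

theorem av_const [Nonempty α] (c : ℝ) : av (fun _ : α => c) = c := by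
  unfold av
  have := card_pos' (α := α)
  rw [sum_const, nsmul_eq_mul, card_univ]
  field_simp

theorem av_sum {ι : Type} (s : Finset ι) (f : ι → α → ℝ) :
    av (fun x => ∑ i ∈ s, f i x) = ∑ i ∈ s, av (f i) := by
  unfold av
  rw [sum_comm, sum_div]

theorem av_mono {f g : α → ℝ} (h : ∀ x, f x ≤ g x) : av f ≤ av g := by
  unfold av
  exact div_le_div_of_nonneg_right (sum_le_sum fun x _ => h x) (Nat.cast_nonneg _)

theorem av_nonneg {f : α → ℝ} (h : ∀ x, 0 ≤ f x) : 0 ≤ av f := by
  unfold av
  exact div_nonneg (sum_nonneg fun x _ => h x) (Nat.cast_nonneg _)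

theorem abs_av_le (f : α → ℝ) : |av f| ≤ av (fun x => |f x|) := by
  unfold av
  rw [abs_div, Nat.abs_cast]
  exact div_le_div_of_nonneg_right (abs_sum_le_sum_abs _ _) (Nat.cast_nonneg _)

theorem av_le_one [Nonempty α] {f : α → ℝ} (h : ∀ x, f x ≤ 1) : av f ≤ 1 :=
  (av_mono h).trans (av_const (α := α) 1).le

theorem abs_av_le_one [Nonempty α] {f : α → ℝ} (h : ∀ x, |f x| ≤ 1) : |av f| ≤ 1 :=
  (abs_av_le f).trans (av_le_one h)

theorem av_equiv (e : α ≃ β) (f : β → ℝ) : av (fun x => f (e x)) = av f := by
  unfold av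
  rw [Fintype.card_congr e, e.sum_comp]

theorem av_prod (f : α → β → ℝ) : av (fun p : α × β => f p.1 p.2) = av (fun x => av (f x)) := by
  unfold av
  rw [Fintype.sum_prod_type, Fintype.card_prod, ← sum_div]
  push_cast
  rw [div_div, mul_comm]

theorem av_comm (f : α → β → ℝ) : av (fun x => av (f x)) = av (fun y => av (fun x => f x y)) := by
  unfold av
  rw [← sum_div, ← sum_div, sum_comm, div_div, div_div, mul_comm]

theorem av_mul_av (f : α → ℝ) (g : β → ℝ) :
    av f * av g = av (fun x => av (fun y => f x * g y)) := by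
  simp_rw [av_mul_left, av_mul_right]

/-- Cauchy–Schwarz -/
theorem av_sq_le (f : α → ℝ) : av f ^ 2 ≤ av (fun x => f x ^ 2) := by
  rcases isEmpty_or_nonempty α with h | h
  · simp [av]
  · unfold av
    have hc := card_pos' (α := α)
    have h1 := sq_sum_le_card_mul_sum_sq (s := (univ : Finset α)) (f := f)
    rw [card_univ] at h1
    rw [div_pow, div_le_div_iff₀ (by positivity) hc]
    calc (∑ x, f x) ^ 2 * (Fintype.card α : ℝ)
        ≤ ((Fintype.card α : ℝ) * ∑ x, f x ^ 2) * (Fintype.card α : ℝ) :=
          mul_le_mul_of_nonneg_right h1 hc.le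
      _ = (∑ x, f x ^ 2) * (Fintype.card α : ℝ) ^ 2 := by ring

theorem av_abs_le_sqrt (f : α → ℝ) : av (fun x => |f x|) ≤ Real.sqrt (av (fun x => f x ^ 2)) := by
  refine Real.le_sqrt_of_sq_le ((av_sq_le _).trans (le_of_eq ?_))
  simp_rw [sq_abs]

/-- concavity of the square root -/
theorem av_sqrt_le {f : α → ℝ} (h : ∀ x, 0 ≤ f x) :
    av (fun x => Real.sqrt (f x)) ≤ Real.sqrt (av f) := by
  refine Real.le_sqrt_of_sq_le ((av_sq_le _).trans (le_of_eq ?_))
  congr 1
  funext x
  exact Real.sq_sqrt (h x)

theorem av_pow_four_le (f : α → ℝ) : av f ^ 4 ≤ av (fun x => f x ^ 4) := by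
  have h1 := av_sq_le f
  have h2 := av_sq_le (fun x => f x ^ 2)
  calc av f ^ 4 = (av f ^ 2) ^ 2 := by ring
    _ ≤ (av (fun x => f x ^ 2)) ^ 2 := pow_le_pow_left₀ (sq_nonneg _) h1 2
    _ ≤ av (fun x => (f x ^ 2) ^ 2) := h2
    _ = av (fun x => f x ^ 4) := by
        congr 1
        funext x
        ring

end av

section four
variable {T : Type} [Fintype T] [DecidableEq T]

/-- the pairing -/
def dt (h x : T → ZMod 2) : ZMod 2 := ∑ t, h t * x t

theorem dt_add_right (h x y : T → ZMod 2) : dt h (x + y) = dt h x + dt h y := by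
  unfold dt
  rw [← sum_add_distrib]
  exact sum_congr rfl fun t _ => by simp [mul_add]

theorem dt_add_left (h h' x : T → ZMod 2) : dt (h + h') x = dt h x + dt h' x := by
  unfold dt
  rw [← sum_add_distrib]
  exact sum_congr rfl fun t _ => by simp [add_mul]

theorem dt_comm (h x : T → ZMod 2) : dt h x = dt x h := by
  unfold dt
  exact sum_congr rfl fun t _ => mul_comm _ _

theorem dt_zero_left (x : T → ZMod 2) : dt (0 : T → ZMod 2) x = 0 := by simp [dt]

theorem dt_zero_right (x : T → ZMod 2) : dt x (0 : T → ZMod 2) = 0 := by simp [dt]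

theorem dt_single (h : T → ZMod 2) (t : T) : dt h (Pi.single t 1) = h t := by
  unfold dt
  rw [sum_eq_single t]
  · simp
  · intro s _ hs
    simp [Pi.single_apply, hs]
  · intro ht
    exact absurd (mem_univ t) ht

theorem eq_zero_of_dt (h : T → ZMod 2) (H : ∀ x, dt h x = 0) : h = 0 := by
  funext t
  rw [← dt_single h t, H]
  rfl

theorem add_self' (x : T → ZMod 2) : x + x = 0 := by
  funext t
  show x t + x t = 0
  rcases zcases (x t) with h | h <;> rw [h] <;> decide

/-- translation in an average -/
theorem av_shift (c : T → ZMod 2) (f : (T → ZMod 2) → ℝ) : av (fun x => f (x + c)) = av f :=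
  av_equiv (Equiv.addRight c) f

/-- orthogonality -/
theorem orth (h : T → ZMod 2) : av (fun x => sg (dt h x)) = if h = 0 then 1 else 0 := by
  split_ifs with h0
  · subst h0
    simp_rw [dt_zero_left, sg_zero]
    exact av_const 1
  · have h1 : ∃ c, dt h c = 1 := by
      by_contra hc
      push Not at hc
      apply h0
      refine eq_zero_of_dt h fun x => ?_
      rcases zcases (dt h x) with h2 | h2
      · exact h2
      · exact absurd h2 (hc x)
    obtain ⟨c, hc⟩ := h1
    have h2 := av_shift c (fun x => sg (dt h x))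
    simp_rw [dt_add_right, hc, sg_add, sg_one, mul_neg_one] at h2
    have h3 : av (fun x => -sg (dt h x)) = - av (fun x => sg (dt h x)) := by
      have := av_mul_left (-1) (fun x => sg (dt h x))
      simpa using this
    rw [h3] at h2
    linarith

/-- the Fourier coefficient -/
noncomputable def fc (f : (T → ZMod 2) → ℝ) (h : T → ZMod 2) : ℝ := av (fun x => f x * sg (dt h x))

theorem sum_sg (x : T → ZMod 2) :
    ∑ h : T → ZMod 2, sg (dt h x) = if x = 0 then (Fintype.card (T → ZMod 2) : ℝ) else 0 := by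
  have h1 := orth x
  have hc := card_pos' (α := T → ZMod 2)
  unfold av at h1
  simp_rw [dt_comm x] at h1
  rw [div_eq_iff hc.ne'] at h1
  rw [h1]
  split_ifs <;> simp

theorem inversion (f : (T → ZMod 2) → ℝ) (y : T → ZMod 2) :
    ∑ h, fc f h * sg (dt h y) = f y := by
  unfold fc
  have hc := card_pos' (α := T → ZMod 2)
  simp_rw [← av_mul_right]
  rw [← av_sum]
  have h1 : ∀ x : T → ZMod 2, ∑ h : T → ZMod 2, f x * sg (dt h x) * sg (dt h y) =
      f x * if x = y then (Fintype.card (T → ZMod 2) : ℝ) else 0 := by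
    intro x
    have e : ∀ h : T → ZMod 2, f x * sg (dt h x) * sg (dt h y) = f x * sg (dt h (x + y)) := by
      intro h
      rw [dt_add_right, sg_add]
      ring
    simp_rw [e]
    rw [← mul_sum, sum_sg]
    congr 1
    by_cases hxy : x = y
    · rw [if_pos hxy, if_pos]
      rw [hxy, add_self']
    · rw [if_neg hxy, if_neg]
      intro h0
      apply hxy
      have := congrArg (· + y) h0
      simp only [add_assoc, add_self', add_zero, zero_add] at this
      exact this
  simp_rw [h1]
  unfold av
  rw [sum_eq_single y]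
  · rw [if_pos rfl]
    field_simp
  · intro x _ hx
    rw [if_neg hx, mul_zero]
  · intro h
    exact absurd (mem_univ y) h

/-- Plancherel -/
theorem plancherel (f g : (T → ZMod 2) → ℝ) : ∑ h, fc f h * fc g h = av (fun x => f x * g x) := by
  have h1 : ∀ h, fc f h * fc g h = av (fun x => (fc f h * sg (dt h x)) * g x) := by
    intro h
    conv_lhs => rw [fc.eq_1 g]
    rw [← av_mul_left]
    congr 1
    funext x
    ring
  simp_rw [h1]
  rw [← av_sum]
  congr 1
  funext x
  rw [← sum_mul, inversion]

theorem parseval (f : (T → ZMod 2) → ℝ) : ∑ h, fc f h ^ 2 = av (fun x => f x ^ 2) := by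
  simp_rw [sq]
  exact plancherel f f

end four

end Pool.Agent.SE.Four
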