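import Pool.Agent.Lib.SE.Ind

/-!
# Rows DEP, QUAD, FOURTH
-/

set_option autoImplicit false

namespace Pool.Agent.MP_ec946a.SE

open Finset Pool.Agent.MP_ec946a.LR H30

namespace H30

lemma pr_point {d : ℕ} (w : Fin d → ZMod 2) :
    pr (fun x : Fin d → ZMod 2 => x = w) = 1 / 2 ^ d := by
  have h : ∀ inst : DecidablePred fun x : Fin d → ZMod 2 => x = w,
      (@Finset.filter _ (fun x => x = w) inst univ).card = 1 := by
    intro inst
    rw [Finset.card_eq_one]
    exact ⟨w, by ext x; simp⟩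
  rw [pr_eq_card, h, Fintype.card_fun, ZMod.card, Fintype.card_fin]
  push_cast
  rfl

lemma avg_point_le {d : ℕ} (p : (Fin d → ZMod 2) → Prop) (w : Fin d → ZMod 2)
    (h : ∀ x, p x → x = w) : (avg fun x => ind (p x)) ≤ 1 / 2 ^ d := by
  rw [← pr_point w]
  exact pr_mono h

lemma lin_le {d : ℕ} (l : ZMod 2 × ZMod 2 × ZMod 2) (hl : l ≠ 0) :
    pr (fun c : (Fin d → ZMod 2) × (Fin d → ZMod 2) × (Fin d → ZMod 2) =>
      ∀ i, l.1 * c.1 i + l.2.1 * c.2.1 i + l.2.2 * c.2.2 i = 0) ≤ 1 / 2 ^ d := by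
  obtain ⟨l₁, l₂, l₃⟩ := l
  unfold pr
  have hpos : (0 : ℝ) ≤ 1 / 2 ^ d := by positivity
  have key : ∀ x y : ZMod 2, 1 * x + y = 0 → x = y := by decide
  rcases z2_cases l₁ with rfl | rfl
  · rcases z2_cases l₂ with rfl | rfl
    · rcases z2_cases l₃ with rfl | rfl
      · exact absurd rfl hl
      · rw [avg_prod]
        refine avg_le_const hpos fun c₁ => ?_
        rw [avg_prod]
        refine avg_le_const hpos fun c₂ => ?_
        refine avg_point_le _ 0 fun c₃ h => funext fun i => ?_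
        have := h i
        simp only [zero_mul, zero_add, one_mul] at this
        exact this
    · rw [avg_prod]
      refine avg_le_const hpos fun c₁ => ?_
      rw [avg_prod, avg_comm]
      refine avg_le_const hpos fun c₃ => ?_
      refine avg_point_le _ (fun i => l₃ * c₃ i) fun c₂ h => funext fun i => ?_
      have := h i
      simp only [zero_mul, zero_add] at this
      exact key _ _ this
  · rw [avg_prod, avg_comm]
    refine avg_le_const hpos fun c => ?_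
    refine avg_point_le _ (fun i => l₂ * c.1 i + l₃ * c.2 i) fun c₁ h => funext fun i => ?_
    have := h i
    simp only [add_assoc] at this
    exact key _ _ this

/-- Inversion. -/
lemma inversion {S : Type} [Fintype S] [DecidableEq S] (a : (S → ZMod 2) → ℝ)
    (g : S → ZMod 2) : (avg fun y => (∑ h, a h * sg (dt h y)) * sg (dt g y)) = a g := by
  have h1 : ∀ y, (∑ h, a h * sg (dt h y)) * sg (dt g y) = ∑ h, a h * sg (dt (h + g) y) := by
    intro y
    rw [Finset.sum_mul]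
    refine Finset.sum_congr rfl fun h _ => ?_
    rw [dt_add_left, sg_add, mul_assoc]
  simp only [h1]
  rw [avg_finset_sum]
  simp only [avg_mul_left, avg_sg_dt]
  rw [Finset.sum_eq_single g]
  · rw [if_pos (v2_self g), mul_one]
  · intro b _ hb
    rw [if_neg fun h => hb (v_eq.1 h), mul_zero]
  · intro h
    exact absurd (mem_univ _) h

end H30

theorem dep : DEP := by
  intro d
  classical
  set s : Finset (ZMod 2 × ZMod 2 × ZMod 2) := univ.erase 0 with hs
  have h1 : pr (fun c : (Fin d → ZMod 2) × (Fin d → ZMod 2) × (Fin d → ZMod 2) =>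
      ¬ Ind3 c.1 c.2.1 c.2.2) ≤
      pr (fun c : (Fin d → ZMod 2) × (Fin d → ZMod 2) × (Fin d → ZMod 2) =>
        ∃ l ∈ s, ∀ i, l.1 * c.1 i + l.2.1 * c.2.1 i + l.2.2 * c.2.2 i = 0) := by
    refine pr_mono fun c hc => ?_
    unfold Ind3 at hc
    push Not at hc
    obtain ⟨l₁, l₂, l₃, h0, hne⟩ := hc
    refine ⟨(l₁, l₂, l₃), ?_, h0⟩
    rw [hs, Finset.mem_erase]
    refine ⟨fun h => ?_, mem_univ _⟩
    have e1 : l₁ = 0 := congrArg Prod.fst h
    have e2 : l₂ = 0 := congrArg (fun x => x.2.1) h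
    have e3 : l₃ = 0 := congrArg (fun x => x.2.2) h
    exact hne e1 e2 e3
  refine h1.trans ((pr_exists_le s _).trans ?_)
  refine (Finset.sum_le_sum fun l hl => lin_le l (Finset.ne_of_mem_erase hl)).trans ?_
  rw [Finset.sum_const, nsmul_eq_mul]
  have h2 : s.card = 7 := by
    rw [hs, Finset.card_erase_of_mem (mem_univ _), Finset.card_univ, Fintype.card_prod,
      Fintype.card_prod, ZMod.card]
  rw [h2]
  push_cast
  exact le_of_eq (by ring)

theorem quad : QUAD := by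
  intro S _ _ a₁ a₂ a₃ a₄ K hK h₁ h₂ h₃ h₄
  set f₁ : (S → ZMod 2) → ℝ := fun y => ∑ h, a₁ h * sg (dt h y) with hf₁
  set f₂ : (S → ZMod 2) → ℝ := fun y => ∑ h, a₂ h * sg (dt h y) with hf₂
  set f₃ : (S → ZMod 2) → ℝ := fun y => ∑ h, a₃ h * sg (dt h y) with hf₃
  set f₄ : (S → ZMod 2) → ℝ := fun y => ∑ h, a₄ h * sg (dt h y) with hf₄
  have key : (∑ h, a₁ h * a₂ h * a₃ h * a₄ h) =
      avg fun y₁ => avg fun y₂ => avg fun y₃ => f₁ y₁ * f₂ y₂ * f₃ y₃ * f₄ (y₁ + y₂ + y₃) := by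
    have e1 : ∀ h, a₁ h * a₂ h * a₃ h * a₄ h =
        avg fun y₁ => avg fun y₂ => avg fun y₃ =>
          f₁ y₁ * f₂ y₂ * f₃ y₃ * (a₄ h * sg (dt h (y₁ + y₂ + y₃))) := by
      intro h
      have i1 : (avg fun y => f₁ y * sg (dt h y)) = a₁ h := inversion a₁ h
      have i2 : (avg fun y => f₂ y * sg (dt h y)) = a₂ h := inversion a₂ h
      have i3 : (avg fun y => f₃ y * sg (dt h y)) = a₃ h := inversion a₃ h
      have e2 : ∀ y₁ y₂ y₃, f₁ y₁ * f₂ y₂ * f₃ y₃ * (a₄ h * sg (dt h (y₁ + y₂ + y₃))) =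
          (a₄ h * (f₁ y₁ * sg (dt h y₁)) * (f₂ y₂ * sg (dt h y₂))) * (f₃ y₃ * sg (dt h y₃)) := by
        intro y₁ y₂ y₃
        rw [dt_add_right, dt_add_right, sg_add, sg_add]
        ring
      simp only [e2, avg_mul_left, i3, avg_mul_right, i2, i1]
      ring
    rw [Finset.sum_congr rfl fun h _ => e1 h]
    rw [← avg_finset_sum]
    congr 1
    funext y₁
    rw [← avg_finset_sum]
    congr 1
    funext y₂
    rw [← avg_finset_sum]
    congr 1
    funext y₃
    rw [← Finset.mul_sum]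
  rw [key]
  have hK4 : 0 ≤ K ^ 4 := by positivity
  refine (abs_avg_le _).trans (avg_le_const hK4 fun y₁ => ?_)
  refine (abs_avg_le _).trans (avg_le_const hK4 fun y₂ => ?_)
  refine (abs_avg_le _).trans (avg_le_const hK4 fun y₃ => ?_)
  rw [abs_mul, abs_mul, abs_mul]
  calc |f₁ y₁| * |f₂ y₂| * |f₃ y₃| * |f₄ (y₁ + y₂ + y₃)| ≤ K * K * K * K := by
        gcongr
        · exact h₁ y₁
        · exact h₂ y₂
        · exact h₃ y₃
        · exact h₄ _
    _ = K ^ 4 := by ring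

theorem fourth (h1 : IND) (h2 : DEP) (h3 : QUAD) : FOURTH := by
  intro S _ _ d a K hK hb
  have hK4 : 0 ≤ K ^ 4 := by positivity
  have key : ∀ c : (Fin d → ZMod 2) × (Fin d → ZMod 2) × (Fin d → ZMod 2),
      (avg fun z : Fin d → S → ZMod 2 => PhiF a c.1 (cz c.1 z) * PhiF a c.2.1 (cz c.2.1 z) *
        PhiF a c.2.2 (cz c.2.2 z) * PhiF a (c.1 + c.2.1 + c.2.2) (cz (c.1 + c.2.1 + c.2.2) z)) ≤
      (∑ h, a c.1 h * a c.2.1 h * a c.2.2 h * a (c.1 + c.2.1 + c.2.2) h) +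
        2 * K ^ 4 * ind (¬ Ind3 c.1 c.2.1 c.2.2) := by
    intro c
    by_cases hc : Ind3 c.1 c.2.1 c.2.2
    · rw [h1 S d a c.1 c.2.1 c.2.2 hc, ind_false (not_not.2 hc), mul_zero, add_zero]
    · rw [ind_true hc, mul_one]
      have e1 := h3 S (a c.1) (a c.2.1) (a c.2.2) (a (c.1 + c.2.1 + c.2.2)) K hK
        (fun y => hb _ y) (fun y => hb _ y) (fun y => hb _ y) (fun y => hb _ y)
      have e2 := (abs_le.1 e1).1
      have e3 : (avg fun z : Fin d → S → ZMod 2 => PhiF a c.1 (cz c.1 z) *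
          PhiF a c.2.1 (cz c.2.1 z) * PhiF a c.2.2 (cz c.2.2 z) *
          PhiF a (c.1 + c.2.1 + c.2.2) (cz (c.1 + c.2.1 + c.2.2) z)) ≤ K ^ 4 := by
        refine (le_abs_self _).trans ((abs_avg_le _).trans (avg_le_const hK4 fun z => ?_))
        rw [abs_mul, abs_mul, abs_mul]
        calc |PhiF a c.1 (cz c.1 z)| * |PhiF a c.2.1 (cz c.2.1 z)| * |PhiF a c.2.2 (cz c.2.2 z)| *
              |PhiF a (c.1 + c.2.1 + c.2.2) (cz (c.1 + c.2.1 + c.2.2) z)| ≤ K * K * K * K := by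
              gcongr <;> exact hb _ _
          _ = K ^ 4 := by ring
      linarith
  refine (avg_mono key).trans ?_
  rw [avg_add, avg_mul_left]
  have e1 := h2 d
  unfold pr at e1
  have e2 : 2 * K ^ 4 * (avg fun c : (Fin d → ZMod 2) × (Fin d → ZMod 2) × (Fin d → ZMod 2) =>
      ind (¬ Ind3 c.1 c.2.1 c.2.2)) ≤ 2 * K ^ 4 * (7 / 2 ^ d) :=
    mul_le_mul_of_nonneg_left e1 (by positivity)
  have e3 : 2 * K ^ 4 * (7 / 2 ^ d) = 14 / 2 ^ d * K ^ 4 := by ring
  linarith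

end Pool.Agent.MP_ec946a.SE
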