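import Mathlib
import Pool.Agent.Lib.SE.Props

/-!
# Lemma L and Bonferroni (row HEAVY)
-/

set_option autoImplicit false

namespace Pool.Agent.MP_ec946a.SE

open Finset

namespace HEAVY

/-- `∑ s, μ s * ind (s = a) = μ a` -/
theorem sum_ind {L : Type} [Fintype L] (μ : L → ℝ) (a : L) :
    ∑ s, μ s * ind (s = a) = μ a := by
  classical
  rw [sum_eq_single a]
  · rw [ind_true rfl, mul_one]
  · intro l _ hl
    rw [ind_false hl, mul_zero]
  · intro h
    exact absurd (mem_univ _) h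

/-- Bonferroni: the number of true propositions is at most the indicator that one of them is true
plus the number of ordered pairs. -/
theorem count_le {Q : Type} [DecidableEq Q] (H : Finset Q) (p : Q → Prop) :
    ∑ q ∈ H, ind (p q) ≤ ind (∃ q ∈ H, p q) +
      ∑ q ∈ H, ∑ q' ∈ H.erase q, ind (p q ∧ p q') := by
  by_cases hex : ∃ q ∈ H, p q
  · rw [ind_true hex]
    obtain ⟨q₀, hq₀, hp₀⟩ := hex
    have hsplit : ∑ q ∈ H, ind (p q) = ind (p q₀) + ∑ q ∈ H.erase q₀, ind (p q) :=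
      (add_sum_erase H (fun q => ind (p q)) hq₀).symm
    rw [hsplit, ind_true hp₀]
    have h1 : ∑ q ∈ H.erase q₀, ind (p q) = ∑ q' ∈ H.erase q₀, ind (p q₀ ∧ p q') := by
      refine sum_congr rfl fun q _ => ?_
      by_cases hq : p q
      · rw [ind_true hq, ind_true ⟨hp₀, hq⟩]
      · rw [ind_false hq, ind_false fun h => hq h.2]
    rw [h1]
    have h2 : ∑ q' ∈ H.erase q₀, ind (p q₀ ∧ p q') ≤
        ∑ q ∈ H, ∑ q' ∈ H.erase q, ind (p q ∧ p q') :=
      single_le_sum (f := fun q => ∑ q' ∈ H.erase q, ind (p q ∧ p q'))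
        (fun q _ => sum_nonneg fun q' _ => ind_nonneg _) hq₀
    linarith
  · have h0 : ∑ q ∈ H, ind (p q) = 0 :=
      sum_eq_zero fun q hq => ind_false fun h => hex ⟨q, hq, h⟩
    rw [h0]
    exact add_nonneg (ind_nonneg _) (sum_nonneg fun q _ => sum_nonneg fun q' _ => ind_nonneg _)

end HEAVY

theorem heavy (h1 : LEML) (h2 : PAIR) : HEAVY := by
  intro A _ _ d k μ hμ t Hn ht hcard
  classical
  refine (h1 A d k μ hμ t Hn ht hcard).trans ?_
  have hpos : (0 : ℝ) < 1 / 2 ^ d := by positivity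
  -- the sum of the masses
  have hms : ∑ q ∈ HO μ t, ms μ q =
      avg fun z => ∑ s, μ z s * ∑ q ∈ HO μ t, ind (s = ev q.1 z + q.2) := by
    unfold ms
    rw [← avg_finset_sum]
    refine congrArg avg (funext fun z => ?_)
    simp only [mul_sum]
    rw [sum_comm]
    exact sum_congr rfl fun q _ => (HEAVY.sum_ind _ _).symm
  have hbon : ∀ z, (∑ s, μ z s * ∑ q ∈ HO μ t, ind (s = ev q.1 z + q.2)) ≤
      (∑ s, μ z s * ind (∃ q ∈ HO μ t, s = ev q.1 z + q.2)) +
        ∑ q ∈ HO μ t, ∑ q' ∈ (HO μ t).erase q, ind (ev q.1 z + q.2 = ev q'.1 z + q'.2) := by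
    intro z
    have h3 : ∀ s, μ z s * ∑ q ∈ HO μ t, ind (s = ev q.1 z + q.2) ≤
        μ z s * ind (∃ q ∈ HO μ t, s = ev q.1 z + q.2) +
        μ z s * ∑ q ∈ HO μ t, ∑ q' ∈ (HO μ t).erase q,
          ind (ev q.1 z + q.2 = ev q'.1 z + q'.2) := by
      intro s
      rw [← mul_add]
      refine mul_le_mul_of_nonneg_left ?_ (hμ.nonneg z s)
      refine (HEAVY.count_le (HO μ t) fun q => s = ev q.1 z + q.2).trans ?_
      have h4 : ∑ q ∈ HO μ t, ∑ q' ∈ (HO μ t).erase q,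
          ind ((s = ev q.1 z + q.2) ∧ (s = ev q'.1 z + q'.2)) ≤
          ∑ q ∈ HO μ t, ∑ q' ∈ (HO μ t).erase q, ind (ev q.1 z + q.2 = ev q'.1 z + q'.2) :=
        sum_le_sum fun q _ => sum_le_sum fun q' _ => ind_mono fun h => h.1.symm.trans h.2
      linarith
    refine (sum_le_sum fun s _ => h3 s).trans ?_
    rw [sum_add_distrib, ← sum_mul, hμ.sum z, one_mul]
  have hsum : ∑ q ∈ HO μ t, ms μ q ≤
      (avg fun z => ∑ s, μ z s * ind (∃ q ∈ HO μ t, s = ev q.1 z + q.2)) + Hn ^ 2 / 2 ^ d := by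
    rw [hms]
    refine (avg_mono hbon).trans ?_
    rw [avg_add]
    have h5 : (avg fun z => ∑ q ∈ HO μ t, ∑ q' ∈ (HO μ t).erase q,
        ind (ev q.1 z + q.2 = ev q'.1 z + q'.2)) ≤ Hn ^ 2 / 2 ^ d := by
      rw [avg_finset_sum]
      have h6 : ∀ q ∈ HO μ t, (avg fun z => ∑ q' ∈ (HO μ t).erase q,
          ind (ev q.1 z + q.2 = ev q'.1 z + q'.2)) ≤ ((HO μ t).card : ℝ) * (1 / 2 ^ d) := by
        intro q _
        rw [avg_finset_sum]
        calc ∑ q' ∈ (HO μ t).erase q, (avg fun z => ind (ev q.1 z + q.2 = ev q'.1 z + q'.2))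
            ≤ ∑ q' ∈ (HO μ t).erase q, (1 / 2 ^ d : ℝ) := by
              refine sum_le_sum fun q' hq' => ?_
              exact h2 (Fin k × A) d q q' (ne_of_mem_erase hq').symm
          _ = (((HO μ t).erase q).card : ℝ) * (1 / 2 ^ d) := by rw [sum_const, nsmul_eq_mul]
          _ ≤ ((HO μ t).card : ℝ) * (1 / 2 ^ d) := by
              refine mul_le_mul_of_nonneg_right ?_ hpos.le
              exact_mod_cast card_le_card (erase_subset _ _)
      refine (sum_le_sum h6).trans ?_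
      rw [sum_const, nsmul_eq_mul, ← mul_assoc, ← sq, mul_one_div]
      refine div_le_div_of_nonneg_right ?_ (by positivity)
      exact pow_le_pow_left₀ (Nat.cast_nonneg _) hcard 2
    linarith
  have hMs : ∀ q ∈ HO μ t, 0 ≤ Ms μ q ∧ Ms μ q ≤ ms μ q := by
    intro q hq
    rw [mem_HO] at hq
    unfold Ms
    constructor <;> linarith [hq.2]
  have hsq : ∑ q ∈ HO μ t, Ms μ q ^ 2 ≤ (∑ q ∈ HO μ t, ms μ q) ^ 2 := by
    calc ∑ q ∈ HO μ t, Ms μ q ^ 2 ≤ ∑ q ∈ HO μ t, ms μ q * ∑ q' ∈ HO μ t, ms μ q' := by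
          refine sum_le_sum fun q hq => ?_
          rw [sq]
          have h7 : ms μ q ≤ ∑ q' ∈ HO μ t, ms μ q' :=
            single_le_sum (f := ms μ) (fun q' hq' => (hMs q' hq').1.trans (hMs q' hq').2) hq
          exact mul_le_mul (hMs q hq).2 ((hMs q hq).2.trans h7) (hMs q hq).1
            ((hMs q hq).1.trans (hMs q hq).2)
      _ = (∑ q ∈ HO μ t, ms μ q) ^ 2 := by rw [← sum_mul, sq]
  have h0 : 0 ≤ ∑ q ∈ HO μ t, ms μ q :=
    sum_nonneg fun q hq => (hMs q hq).1.trans (hMs q hq).2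
  have h8 := pow_le_pow_left₀ h0 hsum 2
  linarith

end Pool.Agent.MP_ec946a.SE
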