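import Pool.Agent.Lib.SE.Pair

/-!
# Row IND: the average of the product of four functions
-/

set_option autoImplicit false

namespace Pool.Agent.MP_ec946a.SE

open Finset Pool.Agent.MP_ec946a.LR H30

namespace H30

lemma sum4 {X : Type} [Fintype X] (f g h k : X → ℝ) :
    (∑ x, f x) * (∑ x, g x) * (∑ x, h x) * (∑ x, k x) =
      ∑ x₁, ∑ x₂, ∑ x₃, ∑ x₄, f x₁ * g x₂ * h x₃ * k x₄ := by
  rw [mul_assoc, mul_assoc, Finset.sum_mul]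
  refine Finset.sum_congr rfl fun x₁ _ => ?_
  rw [Finset.sum_mul, Finset.mul_sum]
  refine Finset.sum_congr rfl fun x₂ _ => ?_
  rw [← mul_assoc, Finset.sum_mul_sum, Finset.mul_sum]
  refine Finset.sum_congr rfl fun x₃ _ => ?_
  rw [Finset.mul_sum]
  refine Finset.sum_congr rfl fun x₄ _ => ?_
  ring

lemma key_zero {S : Type} {d : ℕ} {c₁ c₂ c₃ : Fin d → ZMod 2} (hc : Ind3 c₁ c₂ c₃)
    (h₁ h₂ h₃ h₄ : S → ZMod 2) :
    tn c₁ h₁ + tn c₂ h₂ + tn c₃ h₃ + tn (c₁ + c₂ + c₃) h₄ = 0 ↔ h₁ = h₄ ∧ h₂ = h₄ ∧ h₃ = h₄ := by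
  constructor
  · intro h0
    have h1 : ∀ s, h₁ s + h₄ s = 0 ∧ h₂ s + h₄ s = 0 ∧ h₃ s + h₄ s = 0 := by
      intro s
      refine hc _ _ _ fun i => ?_
      have h2 := congrFun (congrFun h0 i) s
      have h3 : c₁ i * h₁ s + c₂ i * h₂ s + c₃ i * h₃ s + (c₁ i + c₂ i + c₃ i) * h₄ s = 0 := h2
      rw [← h3]
      ring
    exact ⟨funext fun s => z2_eq.1 (h1 s).1, funext fun s => z2_eq.1 (h1 s).2.1,
      funext fun s => z2_eq.1 (h1 s).2.2⟩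
  · rintro ⟨rfl, rfl, rfl⟩
    funext i s
    show c₁ i * h₃ s + c₂ i * h₃ s + c₃ i * h₃ s + (c₁ i + c₂ i + c₃ i) * h₃ s = 0
    have h2 : c₁ i * h₃ s + c₂ i * h₃ s + c₃ i * h₃ s + (c₁ i + c₂ i + c₃ i) * h₃ s =
      (c₁ i + c₂ i + c₃ i) * h₃ s + (c₁ i + c₂ i + c₃ i) * h₃ s := by ring
    rw [h2, z2_self]

end H30

theorem indep : IND := by
  intro S _ _ d a c₁ c₂ c₃ hc
  have h1 : ∀ z : Fin d → S → ZMod 2, PhiF a c₁ (cz c₁ z) * PhiF a c₂ (cz c₂ z) *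
      PhiF a c₃ (cz c₃ z) * PhiF a (c₁ + c₂ + c₃) (cz (c₁ + c₂ + c₃) z) =
      ∑ h₁, ∑ h₂, ∑ h₃, ∑ h₄, (a c₁ h₁ * a c₂ h₂ * a c₃ h₃ * a (c₁ + c₂ + c₃) h₄) *
        sg (dz (tn c₁ h₁ + tn c₂ h₂ + tn c₃ h₃ + tn (c₁ + c₂ + c₃) h₄) z) := by
    intro z
    unfold PhiF
    rw [sum4]
    refine Finset.sum_congr rfl fun h₁ _ => Finset.sum_congr rfl fun h₂ _ =>
      Finset.sum_congr rfl fun h₃ _ => Finset.sum_congr rfl fun h₄ _ => ?_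
    rw [dz_add_left, dz_add_left, dz_add_left, sg_add, sg_add, sg_add, dz_tn, dz_tn, dz_tn,
      dz_tn, dt_ev, dt_ev, dt_ev, dt_ev]
    ring
  simp only [h1]
  simp only [avg_finset_sum, avg_mul_left, avg_sg_dz, key_zero hc]
  rw [Finset.sum_comm]
  -- the sum over `h₄` outermost
  have h2 : ∀ h₁ h₂ h₃ : S → ZMod 2, (∑ h₄, a c₁ h₁ * a c₂ h₂ * a c₃ h₃ * a (c₁ + c₂ + c₃) h₄ *
      (if h₁ = h₄ ∧ h₂ = h₄ ∧ h₃ = h₄ then (1 : ℝ) else 0)) =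
      if h₁ = h₃ ∧ h₂ = h₃ then a c₁ h₁ * a c₂ h₂ * a c₃ h₃ * a (c₁ + c₂ + c₃) h₃ else 0 := by
    intro h₁ h₂ h₃
    rw [Finset.sum_eq_single h₃]
    · by_cases h : h₁ = h₃ ∧ h₂ = h₃
      · rw [if_pos ⟨h.1, h.2, rfl⟩, if_pos h, mul_one]
      · rw [if_neg fun h' => h ⟨h'.1, h'.2.1⟩, if_neg h, mul_zero]
    · intro b _ hb
      rw [if_neg fun h' => hb h'.2.2.symm, mul_zero]
    · intro h
      exact absurd (mem_univ _) h
  simp only [h2]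
  refine Finset.sum_congr rfl fun h₂ _ => ?_
  rw [Finset.sum_comm]
  rw [Finset.sum_eq_single h₂]
  · rw [Finset.sum_eq_single h₂]
    · rw [if_pos ⟨rfl, rfl⟩]
    · intro b _ hb
      rw [if_neg fun h' => hb h'.1]
    · intro h
      exact absurd (mem_univ _) h
  · intro b _ hb
    refine Finset.sum_eq_zero fun x _ => ?_
    rw [if_neg fun h' => hb h'.2.symm]
  · intro h
    exact absurd (mem_univ _) h

end Pool.Agent.MP_ec946a.SE
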