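import Mathlib
import Pool.Agent.Lib.SE.Props

/-!
# Row INNER: the sum over the four types of edges, with the numbers
-/

set_option autoImplicit false

namespace Pool.Agent.MP_ec946a.SE

open Finset Pool.Agent.MP_ec946a.LR

namespace INNER'

variable {A : Type} [Fintype A] [DecidableEq A] {d k : ℕ}

lemma LL_mono {Ω : Type} [Fintype Ω] {z : Ω → Fin d → Fin k × A → ZMod 2}
    {s : Ω → Fin d → ZMod 2} {t t' : ℝ} (h : t' ≤ t) : LL z s t ⊆ LL z s t' := by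
  intro q hq
  rw [mem_LL] at hq ⊢
  exact ⟨hq.1, h.trans hq.2⟩

omit [DecidableEq A] in
lemma GG_mono {Ω : Type} [Fintype Ω] {z : Ω → Fin d → Fin k × A → ZMod 2}
    {s : Ω → Fin d → ZMod 2} {L L' : Finset ((Fin k × A → ZMod 2) × (Fin d → ZMod 2))}
    (h : L ⊆ L') : GG z s L ≤ GG z s L' := by
  unfold GG
  refine avg_mono fun ω => ind_mono ?_
  rintro ⟨q, hq, h1⟩
  exact ⟨q, h hq, h1⟩

/-- the number `θ` -/
lemma theta_le : theta 126 (1 / 2 ^ 11) (2 ^ 24) ≤ 3 / 100 := by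
  unfold theta
  have h1 : √((1 / 2 ^ 11 : ℝ) ^ 2 + 14 / 2 ^ 126 * (1 + 2 ^ 24) ^ 4) ≤ 7 / 10000 := by
    rw [show (7 / 10000 : ℝ) = √((7 / 10000) ^ 2) from (Real.sqrt_sq (by norm_num)).symm]
    exact Real.sqrt_le_sqrt (by norm_num)
  have h2 : √(√((1 / 2 ^ 11 : ℝ) ^ 2 + 14 / 2 ^ 126 * (1 + 2 ^ 24) ^ 4)) ≤ 27 / 1000 := by
    rw [show (27 / 1000 : ℝ) = √((27 / 1000) ^ 2) from (Real.sqrt_sq (by norm_num)).symm]
    exact Real.sqrt_le_sqrt (h1.trans (by norm_num))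
  have h3 : (2 : ℝ) ^ 24 / 2 ^ 126 ≤ 1 / 1000 := by norm_num
  linarith

/-- the chord -/
lemma chord {G η θ : ℝ} (hG0 : 0 ≤ G) (hG1 : G ≤ 1) (hη0 : 0 ≤ η) (hη : η ≤ 1 / 5000)
    (hθ : θ ≤ 3 / 100) : √((1 + (G + η) ^ 2 + θ) / 2) ≤ 723 / 1000 + 294 / 1000 * G := by
  rw [show 723 / 1000 + 294 / 1000 * G = √((723 / 1000 + 294 / 1000 * G) ^ 2) from
    (Real.sqrt_sq (by positivity)).symm]
  refine Real.sqrt_le_sqrt ?_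
  nlinarith [mul_nonneg hG0 (sub_nonneg.2 hG1), mul_nonneg hG0 hη0, mul_nonneg hη0 hη0,
    mul_nonneg hη0 (sub_nonneg.2 hη), mul_nonneg hG0 (sub_nonneg.2 hη)]

end INNER'

open INNER' in
theorem inner (h1 : ROWZ) (h2 : ROWLL) (h3 : ROWC) (h4 : ROWE) (h5 : ROWA) : INNER := by
  intro A _ _ k _ Ω _ _ z s T ξ hξ hC
  have hξ0 : 0 ≤ ξ := by
    have h := hC (fun _ => 0) fun _ => ⟨le_rfl, zero_le_one⟩
    exact (abs_nonneg _).trans h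
  have hcard : ((LL z s (1 / 2 ^ 12)).card : ℝ) ≤ 2 ^ 28 := by
    refine (h2 A 126 k Ω z s ξ (1 / 2 ^ 12) hC ?_).trans ?_
    · have : (1 : ℝ) / 2 ^ 126 + 1 / 2 ^ 13 < 1 / 2 ^ 12 := by norm_num
      linarith
    · have h6 : (1 : ℝ) / 2 ^ 14 ≤ 1 / 2 ^ 12 - ξ - 1 / 2 ^ 126 := by
        have : (1 : ℝ) / 2 ^ 126 ≤ 1 / 2 ^ 14 := by norm_num
        have h7 : (1 : ℝ) / 2 ^ 12 = 1 / 2 ^ 13 + 1 / 2 ^ 14 + 1 / 2 ^ 14 := by norm_num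
        linarith
      have h8 : ((1 : ℝ) / 2 ^ 14) ^ 2 ≤ (1 / 2 ^ 12 - ξ - 1 / 2 ^ 126) ^ 2 :=
        pow_le_pow_left₀ (by positivity) h6 2
      calc 1 / (1 / 2 ^ 12 - ξ - 1 / 2 ^ 126) ^ 2 ≤ 1 / ((1 : ℝ) / 2 ^ 14) ^ 2 :=
            one_div_le_one_div_of_le (by positivity) h8
        _ = 2 ^ 28 := by norm_num
  refine ⟨hcard, ?_⟩
  obtain ⟨L, hL⟩ : ∃ L, L = LL z s (1 / 2 ^ 12) := ⟨_, rfl⟩
  rw [← hL] at hcard ⊢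
  have hodd : ∀ q ∈ L, IsOdd q.1 := by
    intro q hq
    rw [hL, mem_LL] at hq
    exact hq.1
  have hz := h1 A 126 k Ω z s T ξ (1 / 2 ^ 11) (2 ^ 24) hC (by norm_num) (by norm_num)
  obtain ⟨G, hG⟩ : ∃ G, G = GG z s L := ⟨_, rfl⟩
  have hG0 : 0 ≤ G := by
    rw [hG]
    exact pr_nonneg _
  have hG1 : G ≤ 1 := by
    rw [hG]
    exact pr_le_one _
  have hGG : GG z s (LL z s (1 / 2 ^ 11 - ξ)) ≤ G := by
    rw [hG, hL]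
    refine GG_mono (LL_mono ?_)
    have : (1 : ℝ) / 2 ^ 12 + 1 / 2 ^ 13 ≤ 1 / 2 ^ 11 := by norm_num
    linarith
  have hGG0 : 0 ≤ GG z s (LL z s (1 / 2 ^ 11 - ξ)) := pr_nonneg _
  have hs : √((1 + (GG z s (LL z s (1 / 2 ^ 11 - ξ)) + ξ + (2 ^ 24) ^ 2 / 2 ^ 126) ^ 2 +
      theta 126 (1 / 2 ^ 11) (2 ^ 24)) / 2) ≤ 723 / 1000 + 294 / 1000 * G := by
    have h9 : (0 : ℝ) ≤ (2 ^ 24) ^ 2 / 2 ^ 126 := by positivity
    have h10 : ((2 : ℝ) ^ 24) ^ 2 / 2 ^ 126 ≤ 1 / 2 ^ 70 := by norm_num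
    have h11 := chord (G := G) (η := ξ + (2 ^ 24) ^ 2 / 2 ^ 126)
      (θ := theta 126 (1 / 2 ^ 11) (2 ^ 24)) hG0 hG1 (by linarith) (by
        have : (1 : ℝ) / 2 ^ 13 + 1 / 2 ^ 70 ≤ 1 / 5000 := by norm_num
        linarith) theta_le
    refine le_trans (Real.sqrt_le_sqrt ?_) h11
    have h12 : (GG z s (LL z s (1 / 2 ^ 11 - ξ)) + ξ + (2 ^ 24) ^ 2 / 2 ^ 126) ^ 2 ≤
        (G + (ξ + (2 ^ 24) ^ 2 / 2 ^ 126)) ^ 2 :=
      pow_le_pow_left₀ (by linarith) (by linarith) 2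
    linarith
  have hc := h3 A 126 k Ω z s T ξ L hC hodd
  have he := h4 A 126 k T L
  have ha := h5 A 126 k T L
  rw [← hG] at hc
  have hN : (L.card : ℝ) / 2 ^ 126 ≤ 1 / 2 ^ 98 := by
    rw [div_le_iff₀ (by positivity)]
    refine hcard.trans (le_of_eq (by norm_num))
  have h13 : (1 : ℝ) / 2 ^ 126 ≤ 1 / 10 ^ 6 := by norm_num
  have h14 : (1 : ℝ) / 2 ^ 98 ≤ 1 / 10 ^ 6 := by norm_num
  have h15 : (1 : ℝ) / 2 ^ 13 ≤ 13 / 10 ^ 5 := by norm_num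
  linarith

end Pool.Agent.MP_ec946a.SE
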