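import Mathlib
import Pool.Agent.Lib.SE.Props

/-!
# Functions which are constant on a support (row KAP; helper50)
-/

set_option autoImplicit false

namespace Pool.Agent.MP_ec946a.SE

open Finset Pool.Agent.MP_ec946a.LR

namespace KAP

/-- a function takes prescribed values on a set -/
lemma pr_const {A : Type} [Fintype A] [DecidableEq A] (s : Finset A) (c : ZMod 2) :
    pr (fun α : A → ZMod 2 => ∀ a ∈ s, α a = c) = 1 / 2 ^ s.card := by
  classical
  rw [pr_eq_card]
  have h1 : (univ.filter fun α : A → ZMod 2 => ∀ a ∈ s, α a = c) =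
      Fintype.piFinset fun a => if a ∈ s then ({c} : Finset (ZMod 2)) else univ := by
    ext α
    simp only [mem_filter, mem_univ, true_and, Fintype.mem_piFinset]
    constructor
    · intro h a
      split_ifs with ha
      · exact mem_singleton.2 (h a ha)
      · exact mem_univ _
    · intro h a ha
      have := h a
      rw [if_pos ha, mem_singleton] at this
      exact this
  have h2 : (Fintype.piFinset fun a : A => if a ∈ s then ({c} : Finset (ZMod 2)) else univ).card *
      2 ^ s.card = 2 ^ Fintype.card A := by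
    rw [Fintype.card_piFinset]
    have h3 : (2 : ℕ) ^ s.card = ∏ a : A, if a ∈ s then 2 else 1 := by
      rw [Finset.prod_ite_mem, Finset.univ_inter, Finset.prod_const]
    rw [h3, ← Finset.prod_mul_distrib, ← Finset.card_univ, ← Finset.prod_const]
    refine Finset.prod_congr rfl fun a _ => ?_
    split_ifs
    · rw [card_singleton, one_mul]
    · rw [card_univ, ZMod.card, mul_one]
  have h4 : (Fintype.card (A → ZMod 2) : ℝ) = 2 ^ Fintype.card A := by
    rw [Fintype.card_fun, ZMod.card]; push_cast; rfl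
  have h5 : ((Fintype.piFinset fun a : A => if a ∈ s then ({c} : Finset (ZMod 2)) else univ).card :
      ℝ) * 2 ^ s.card = 2 ^ Fintype.card A := by exact_mod_cast h2
  have h6 : (univ.filter fun α : A → ZMod 2 => ∀ a ∈ s, α a = c).card =
    (Fintype.piFinset fun a => if a ∈ s then ({c} : Finset (ZMod 2)) else univ).card := by rw [h1]
  rw [div_eq_div_iff (by rw [h4]; positivity) (by positivity), one_mul, h4, ← h5]
  congr 2
  convert h6

lemma pr_exists_const {A : Type} [Fintype A] [DecidableEq A] (s : Finset A) :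
    pr (fun α : A → ZMod 2 => ∃ c, ∀ a ∈ s, α a = c) ≤ 2 / 2 ^ s.card := by
  have h1 : pr (fun α : A → ZMod 2 => ∃ c, ∀ a ∈ s, α a = c) ≤
      pr (fun α : A → ZMod 2 => ∃ c ∈ (univ : Finset (ZMod 2)), ∀ a ∈ s, α a = c) :=
    pr_mono fun α ⟨c, hc⟩ => ⟨c, mem_univ _, hc⟩
  refine h1.trans ((pr_exists_le univ fun c (α : A → ZMod 2) => ∀ a ∈ s, α a = c).trans ?_)
  simp only [pr_const]
  rw [Finset.sum_const, card_univ, ZMod.card, nsmul_eq_mul]
  push_cast
  rw [mul_one_div]

end KAP

theorem kap_le : KAP := by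
  intro A _ _ d k l _ L
  unfold kap
  refine (pr_exists_le L fun q (w : Fin k × (A → ZMod 2)) =>
    ∃ c, ∀ a, q.1 (w.1, a) = 1 → w.2 a = c).trans ?_
  have hk : (0 : ℝ) < k := by exact_mod_cast Nat.pos_of_ne_zero (NeZero.ne k)
  have h1 : ∀ q ∈ L, pr (fun w : Fin k × (A → ZMod 2) => ∃ c, ∀ a, q.1 (w.1, a) = 1 → w.2 a = c) ≤
      ((JJ l q.1).card : ℝ) / k + 1 / 2 ^ l := by
    intro q _
    unfold pr
    rw [avg_prod]
    have h2 : ∀ j : Fin k, (avg fun α : A → ZMod 2 => ind (∃ c, ∀ a, q.1 (j, a) = 1 → α a = c)) ≤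
        ind (j ∈ JJ l q.1) + 1 / 2 ^ l := by
      intro j
      by_cases hj : j ∈ JJ l q.1
      · rw [ind_true hj]
        have h3 : (avg fun α : A → ZMod 2 => ind (∃ c, ∀ a, q.1 (j, a) = 1 → α a = c)) ≤ 1 :=
          pr_le_one _
        have h4 : (0 : ℝ) ≤ 1 / 2 ^ l := by positivity
        linarith
      · rw [ind_false hj, zero_add]
        have hc : l + 1 ≤ (sj q.1 j).card := by
          unfold JJ at hj
          rw [mem_filter] at hj
          push Not at hj
          exact hj (mem_univ _)
        have h3 : (avg fun α : A → ZMod 2 => ind (∃ c, ∀ a, q.1 (j, a) = 1 → α a = c)) ≤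
            pr (fun α : A → ZMod 2 => ∃ c, ∀ a ∈ sj q.1 j, α a = c) := by
          refine pr_mono fun α ⟨c, hα⟩ => ⟨c, fun a ha => hα a ?_⟩
          unfold sj at ha
          rw [mem_filter] at ha
          exact ha.2
        refine h3.trans ((KAP.pr_exists_const _).trans ?_)
        have h4 : (2 : ℝ) ^ (l + 1) ≤ 2 ^ (sj q.1 j).card := pow_le_pow_right₀ (by norm_num) hc
        rw [div_le_div_iff₀ (by positivity) (by positivity), one_mul]
        rw [pow_succ] at h4
        linarith
    refine (avg_mono h2).trans ?_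
    rw [avg_add, avg_const]
    refine add_le_add_left (le_of_eq ?_) _
    unfold avg
    rw [Fintype.card_fin]
    congr 1
    have h5 : ∀ x : Fin k, ind (x ∈ JJ l q.1) = if x ∈ JJ l q.1 then (1 : ℝ) else 0 := by
      intro x
      split_ifs with hx
      · exact ind_true hx
      · exact ind_false hx
    simp only [h5]
    rw [Finset.sum_ite_mem, Finset.univ_inter, Finset.sum_const, nsmul_eq_mul, mul_one]
  refine (Finset.sum_le_sum h1).trans ?_
  rw [Finset.sum_add_distrib, Finset.sum_const, nsmul_eq_mul, mul_one_div]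

end Pool.Agent.MP_ec946a.SE
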