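import Pool.Agent.Lib.SE.Props

/-!
# Row LABEL: the labelings
-/

set_option autoImplicit false

namespace Pool.Agent.MP_ec946a.SE

open Finset Pool.Agent.MP_ec946a.LR

namespace LABELx

/-- resampling one coordinate -/
lemma avg_update {ι E : Type} [Fintype ι] [DecidableEq ι] [Fintype E] [Nonempty E] (j : ι)
    (G : (ι → E) → ℝ) :
    avg G = avg fun e : ι → E => avg fun x : E => G (Function.update e j x) := by
  rw [← avg_prod (fun p : (ι → E) × E => G (Function.update p.1 j p.2))]
  let σ : (ι → E) × E ≃ (ι → E) × E :=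
    { toFun := fun p => (Function.update p.1 j p.2, p.1 j)
      invFun := fun p => (Function.update p.1 j p.2, p.1 j)
      left_inv := fun p => by
        refine Prod.ext ?_ ?_
        · simp
        · simp
      right_inv := fun p => by
        refine Prod.ext ?_ ?_
        · simp
        · simp }
  have h := avg_equiv σ (fun p : (ι → E) × E => G p.1)
  rw [avg_fst] at h
  exact h.symm

/-- a labeling -/
lemma avg_sat_le {A B : Type} (I : LabelCover A B) (a : I.X → A) (c : I.Y → B) :
    (avg fun x : I.E => ind (I.proj x (a (I.src x)) = c (I.tgt x))) ≤ I.value := by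
  classical
  have h1 : (avg fun x : I.E => ind (I.proj x (a (I.src x)) = c (I.tgt x))) =
      (Nat.card {e // I.Sat (a, c) e} : ℝ) / (Nat.card I.E : ℝ) := by
    have h2 := pr_eq_card (fun x : I.E => I.proj x (a (I.src x)) = c (I.tgt x))
    rw [Nat.card_eq_fintype_card (α := I.E)]
    have h3 : Nat.card {e // I.Sat (a, c) e} =
        (univ.filter fun x : I.E => I.proj x (a (I.src x)) = c (I.tgt x)).card := by
      rw [Nat.card_eq_fintype_card, Fintype.card_subtype]
      rfl
    rw [h3]
    convert h2 using 3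
    rfl
  rw [h1]
  have hb : BddAbove (Set.range fun L : I.Labeling =>
      (Nat.card {e // I.Sat L e} : ℝ) / (Nat.card I.E : ℝ)) := by
    refine ⟨1, ?_⟩
    rintro _ ⟨L, rfl⟩
    refine div_le_one_of_le₀ ?_ (Nat.cast_nonneg _)
    exact_mod_cast Nat.card_le_card_of_injective _ Subtype.val_injective
  exact le_ciSup hb (a, c)

/-- enumeration of a small finset -/
lemma exists_enum {T : Type} [Nonempty T] (N : ℕ) (S : Finset T) : ∃ f : Fin N → T,
    S.card ≤ N → (∀ x ∈ S, ∃ i, f i = x) := by
  classical
  by_cases h : S.card ≤ N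
  · refine ⟨fun i => if hi : (i : ℕ) < S.card then (S.equivFin.symm ⟨i, hi⟩ : T)
      else Classical.arbitrary T, fun _ x hx => ?_⟩
    have h1 := (S.equivFin ⟨x, hx⟩).isLt
    refine ⟨⟨S.equivFin ⟨x, hx⟩, lt_of_lt_of_le h1 h⟩, ?_⟩
    simp
  · exact ⟨fun _ => Classical.arbitrary T, fun h' => absurd h' h⟩

lemma sum_le_enum {T : Type} {N : ℕ} {S : Finset T} {f : Fin N → T}
    (hf : ∀ x ∈ S, ∃ i, f i = x) (φ : T → ℝ) (hφ : ∀ x, 0 ≤ φ x) :
    ∑ x ∈ S, φ x ≤ ∑ i, φ (f i) := by
  classical
  rcases S.eq_empty_or_nonempty with hS | ⟨x0, hx0⟩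
  · rw [hS, sum_empty]
    exact sum_nonneg fun i _ => hφ _
  have hne : Nonempty (Fin N) := ⟨(hf x0 hx0).choose⟩
  choose! g hg using hf
  calc ∑ x ∈ S, φ x = ∑ x ∈ S, φ (f (g x)) := sum_congr rfl fun x hx => by rw [hg x hx]
    _ = ∑ i ∈ S.image g, φ (f i) := by
        rw [sum_image]
        intro x hx y hy hxy
        rw [← hg x hx, ← hg y hy, hxy]
    _ ≤ ∑ i, φ (f i) := sum_le_sum_of_subset_of_nonneg (subset_univ _) fun i _ _ => hφ _

end LABELx

open LABELx

theorem label : LABEL := by
  intro A B _ _ _ _ _ I d k n N l L M hL hM hodd b j hbj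
  classical
  have hB : Nonempty B := ⟨I.proj (Classical.arbitrary _) (Classical.arbitrary _)⟩
  -- enumerations
  choose fL hfL using fun u => exists_enum N (L u)
  choose fM hfM using fun W => exists_enum N (M W)
  choose fA hfA using fun h : Fin k × A → ZMod 2 => exists_enum l (sj h j)
  choose fB hfB using fun g : Fin k × (A ⊕ B) → ZMod 2 =>
    exists_enum l (univ.filter fun c : B => g (j, Sum.inr c) = 1)
  -- one member of the list
  have h1 : ∀ (e : Fin k → I.E) (q : (Fin k × A → ZMod 2) × (Fin d → ZMod 2)), IsOdd q.1 →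
      ind ((sj q.1 j).card ≤ l ∧ (rst I e b q.1, q.2) ∈ M (side I e b)) ≤
      ∑ i : Fin l, ∑ m' : Fin N, ∑ i' : Fin l,
        ind (I.proj (e j) (fA q.1 i) = fB (fM (side I e b) m').1 i') := by
    intro e q hq
    by_cases hE : (sj q.1 j).card ≤ l ∧ (rst I e b q.1, q.2) ∈ M (side I e b)
    · rw [ind_true hE]
      obtain ⟨hc, hm⟩ := hE
      obtain ⟨m', hm'⟩ := hfM (side I e b) (hM _) _ hm
      have hg : ∀ c, rst I e b q.1 (j, Sum.inr c) =
          ∑ a, if I.proj (e j) a = c then q.1 (j, a) else 0 := by
        intro c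
        simp [rst, hbj]
      -- the sum over `c`
      have hsum : ∑ c, rst I e b q.1 (j, Sum.inr c) = 1 := by
        simp only [hg]
        rw [sum_comm, ← hq j]
        refine sum_congr rfl fun a _ => ?_
        rw [sum_ite_eq univ (I.proj (e j) a) (fun _ => q.1 (j, a)), if_pos (mem_univ _)]
      obtain ⟨c, -, hc1⟩ : ∃ c ∈ (univ : Finset B), rst I e b q.1 (j, Sum.inr c) ≠ 0 := by
        apply exists_ne_zero_of_sum_ne_zero
        rw [hsum]
        decide
      have hc2 : rst I e b q.1 (j, Sum.inr c) = 1 := (z2_cases _).resolve_left hc1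
      have hpre : ∀ c', rst I e b q.1 (j, Sum.inr c') = 1 → ∃ a ∈ sj q.1 j, I.proj (e j) a = c' := by
        intro c' hc'
        rw [hg] at hc'
        obtain ⟨a, -, ha⟩ : ∃ a ∈ (univ : Finset A),
            (if I.proj (e j) a = c' then q.1 (j, a) else 0) ≠ 0 := by
          apply exists_ne_zero_of_sum_ne_zero
          rw [hc']
          decide
        by_cases hpa : I.proj (e j) a = c'
        · rw [if_pos hpa] at ha
          refine ⟨a, ?_, hpa⟩
          unfold sj
          exact mem_filter.2 ⟨mem_univ _, (z2_cases _).resolve_left ha⟩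
        · rw [if_neg hpa] at ha
          exact absurd rfl ha
      have hcard : (univ.filter fun c : B => rst I e b q.1 (j, Sum.inr c) = 1).card ≤ l := by
        refine le_trans (card_le_card (t := (sj q.1 j).image (I.proj (e j))) ?_)
          (card_image_le.trans hc)
        intro c' hc'
        obtain ⟨a, ha, hpa⟩ := hpre c' (mem_filter.1 hc').2
        exact mem_image.2 ⟨a, ha, hpa⟩
      obtain ⟨a, ha, hpa⟩ := hpre c hc2
      obtain ⟨i, hi⟩ := hfA q.1 hc a ha
      obtain ⟨i', hi'⟩ := hfB (rst I e b q.1) hcard c (mem_filter.2 ⟨mem_univ _, hc2⟩)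
      have h2 : I.proj (e j) (fA q.1 i) = fB (fM (side I e b) m').1 i' := by
        rw [hi, hpa, hm']
        exact hi'.symm
      calc (1 : ℝ) = ind (I.proj (e j) (fA q.1 i) = fB (fM (side I e b) m').1 i') :=
            (ind_true h2).symm
        _ ≤ ∑ i' : Fin l, ind (I.proj (e j) (fA q.1 i) = fB (fM (side I e b) m').1 i') :=
            single_le_sum (f := fun i' => ind (I.proj (e j) (fA q.1 i) =
              fB (fM (side I e b) m').1 i')) (fun _ _ => ind_nonneg _) (mem_univ i')
        _ ≤ ∑ m' : Fin N, ∑ i' : Fin l,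
              ind (I.proj (e j) (fA q.1 i) = fB (fM (side I e b) m').1 i') :=
            single_le_sum (f := fun m' => ∑ i' : Fin l, ind (I.proj (e j) (fA q.1 i) =
              fB (fM (side I e b) m').1 i'))
              (fun _ _ => sum_nonneg fun _ _ => ind_nonneg _) (mem_univ m')
        _ ≤ _ :=
            single_le_sum (f := fun i => ∑ m' : Fin N, ∑ i' : Fin l, ind (I.proj (e j) (fA q.1 i) =
              fB (fM (side I e b) m').1 i'))
              (fun _ _ => sum_nonneg fun _ _ => sum_nonneg fun _ _ => ind_nonneg _) (mem_univ i)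
    · rw [ind_false hE]
      exact sum_nonneg fun _ _ => sum_nonneg fun _ _ => sum_nonneg fun _ _ => ind_nonneg _
  -- all members of the list
  have h2 : ∀ e : Fin k → I.E, (∑ q ∈ L fun i => I.src (e i),
      ind ((sj q.1 j).card ≤ l ∧ (rst I e b q.1, q.2) ∈ M (side I e b))) ≤
      ∑ m : Fin N, ∑ i : Fin l, ∑ m' : Fin N, ∑ i' : Fin l,
        ind (I.proj (e j) (fA (fL (fun i => I.src (e i)) m).1 i) =
          fB (fM (side I e b) m').1 i') := by
    intro e
    calc (∑ q ∈ L fun i => I.src (e i),
        ind ((sj q.1 j).card ≤ l ∧ (rst I e b q.1, q.2) ∈ M (side I e b)))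
        ≤ ∑ q ∈ L fun i => I.src (e i), ∑ i : Fin l, ∑ m' : Fin N, ∑ i' : Fin l,
          ind (I.proj (e j) (fA q.1 i) = fB (fM (side I e b) m').1 i') :=
          sum_le_sum fun q hq => h1 e q (hodd _ q hq)
      _ ≤ _ := sum_le_enum (hfL _ (hL _)) (fun q => ∑ i : Fin l, ∑ m' : Fin N, ∑ i' : Fin l,
          ind (I.proj (e j) (fA q.1 i) = fB (fM (side I e b) m').1 i')) fun q =>
          sum_nonneg fun _ _ => sum_nonneg fun _ _ => sum_nonneg fun _ _ => ind_nonneg _
  refine (avg_mono h2).trans ?_
  -- one quadruple of indices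
  have h3 : ∀ (m : Fin N) (i : Fin l) (m' : Fin N) (i' : Fin l),
      (avg fun e : Fin k → I.E => ind (I.proj (e j) (fA (fL (fun i => I.src (e i)) m).1 i) =
          fB (fM (side I e b) m').1 i')) ≤ I.value := by
    intro m i m' i'
    rw [avg_update j]
    have h4 : ∀ e : Fin k → I.E, (avg fun x : I.E =>
        ind (I.proj (Function.update e j x j)
          (fA (fL (fun i => I.src (Function.update e j x i)) m).1 i) =
          fB (fM (side I (Function.update e j x) b) m').1 i')) ≤ I.value := by
      intro e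
      have e1 : ∀ x, (fun i => I.src (Function.update e j x i)) =
          Function.update (fun i => I.src (e i)) j (I.src x) := by
        intro x
        funext i
        by_cases hi : i = j
        · subst hi
          simp
        · simp [Function.update_of_ne hi]
      have e2 : ∀ x, side I (Function.update e j x) b =
          Function.update (side I e b) j (Sum.inr (I.tgt x)) := by
        intro x
        funext i
        by_cases hi : i = j
        · subst hi
          simp [side, hbj]
        · simp [side, Function.update_of_ne hi]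
      simp only [e1, e2, Function.update_self]
      exact avg_sat_le I
        (fun v => fA (fL (Function.update (fun i => I.src (e i)) j v) m).1 i)
        (fun w => fB (fM (Function.update (side I e b) j (Sum.inr w)) m').1 i')
    calc (avg fun e : Fin k → I.E => avg fun x : I.E =>
        ind (I.proj (Function.update e j x j)
          (fA (fL (fun i => I.src (Function.update e j x i)) m).1 i) =
          fB (fM (side I (Function.update e j x) b) m').1 i'))
        ≤ avg fun _ : Fin k → I.E => I.value := avg_mono h4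
      _ = I.value := avg_const _
  simp only [avg_finset_sum]
  calc ∑ m : Fin N, ∑ i : Fin l, ∑ m' : Fin N, ∑ i' : Fin l,
      (avg fun e : Fin k → I.E => ind (I.proj (e j) (fA (fL (fun i => I.src (e i)) m).1 i) =
          fB (fM (side I e b) m').1 i'))
      ≤ ∑ _m : Fin N, ∑ _i : Fin l, ∑ _m' : Fin N, ∑ _i' : Fin l, I.value :=
        sum_le_sum fun m _ => sum_le_sum fun i _ => sum_le_sum fun m' _ => sum_le_sum fun i' _ =>
          h3 m i m' i'
    _ = (N : ℝ) ^ 2 * (l : ℝ) ^ 2 * I.value := by
        simp only [sum_const, card_univ, Fintype.card_fin, nsmul_eq_mul]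
        ring

end Pool.Agent.MP_ec946a.SE
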