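import Mathlib
import Pool.Agent.Lib.SE.Props

/-!
# The law of `s` given `z` (row LAW)
-/

set_option autoImplicit false

namespace Pool.Agent.MP_ec946a.SE

open Finset

theorem law : LAW := by
  intro Ω Z L _ _ _ _ z s
  classical
  have hsum : ∀ w, ∑ l, ((univ.filter fun ω => z ω = w ∧ s ω = l).card : ℝ) =
      ((univ.filter fun ω => z ω = w).card : ℝ) := by
    intro w
    rw [← Nat.cast_sum]
    congr 1
    rw [card_eq_sum_card_fiberwise (f := s) (t := univ) (fun _ _ => mem_coe.2 (mem_univ _))]
    refine sum_congr rfl fun l _ => ?_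
    rw [filter_filter]
  have hle : ∀ w l, ((univ.filter fun ω => z ω = w ∧ s ω = l).card : ℝ) ≤
      ((univ.filter fun ω => z ω = w).card : ℝ) := by
    intro w l
    exact_mod_cast card_le_card fun ω hω => by
      rw [mem_filter] at hω ⊢
      exact ⟨hω.1, hω.2.1⟩
  refine ⟨fun w l => if ((univ.filter fun ω => z ω = w).card : ℝ) = 0 then
    1 / (Fintype.card L : ℝ) else ((univ.filter fun ω => z ω = w ∧ s ω = l).card : ℝ) /
      ((univ.filter fun ω => z ω = w).card : ℝ), ⟨?_, ?_⟩, ?_⟩
  · intro w l
    show 0 ≤ ite _ _ _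
    split_ifs <;> positivity
  · intro w
    split_ifs with h
    · rw [sum_const, card_univ, nsmul_eq_mul]
      have : (Fintype.card L : ℝ) ≠ 0 := by exact_mod_cast Fintype.card_ne_zero
      field_simp
    · rw [← sum_div, hsum, div_self h]
  · intro φ
    unfold avg
    congr 1
    have h1 : (∑ ω, φ (z ω) (s ω)) = ∑ w, ∑ l,
        ((univ.filter fun ω => z ω = w ∧ s ω = l).card : ℝ) * φ w l := by
      rw [← sum_fiberwise (s := univ) (g := z)]
      refine sum_congr rfl fun w _ => ?_
      rw [← sum_fiberwise (s := univ.filter fun ω => z ω = w) (g := s)]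
      refine sum_congr rfl fun l _ => ?_
      rw [filter_filter, ← nsmul_eq_mul, ← sum_const]
      refine sum_congr rfl fun ω hω => ?_
      rw [mem_filter] at hω
      rw [hω.2.1, hω.2.2]
    rw [h1, ← sum_fiberwise (s := univ) (g := z)]
    refine sum_congr rfl fun w _ => ?_
    have h2 : (∑ ω ∈ univ.filter fun ω => z ω = w, ∑ l,
        (if ((univ.filter fun ω' => z ω' = z ω).card : ℝ) = 0 then
          1 / (Fintype.card L : ℝ) else ((univ.filter fun ω' => z ω' = z ω ∧ s ω' = l).card : ℝ) /
          ((univ.filter fun ω' => z ω' = z ω).card : ℝ)) * φ (z ω) l) =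
        ∑ ω ∈ univ.filter fun ω => z ω = w, ∑ l,
        (if ((univ.filter fun ω' => z ω' = w).card : ℝ) = 0 then
          1 / (Fintype.card L : ℝ) else ((univ.filter fun ω' => z ω' = w ∧ s ω' = l).card : ℝ) /
          ((univ.filter fun ω' => z ω' = w).card : ℝ)) * φ w l := by
      refine sum_congr rfl fun ω hω => ?_
      rw [mem_filter] at hω
      rw [hω.2]
    rw [h2, sum_const, nsmul_eq_mul, mul_sum]
    refine sum_congr rfl fun l _ => ?_
    split_ifs with h
    · have h3 : ((univ.filter fun ω => z ω = w ∧ s ω = l).card : ℝ) = 0 :=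
        le_antisymm (h ▸ hle w l) (Nat.cast_nonneg _)
      rw [h3, h, zero_mul, zero_mul]
    · field_simp

end Pool.Agent.MP_ec946a.SE
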