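import Mathlib
import Pool.Agent.Lib.SE.Props

/-!
# Row LEML: Lemma L
-/

set_option autoImplicit false
set_option linter.unusedSectionVars false

namespace Pool.Agent.MP_ec946a.SE

open Finset

namespace LEML

section

variable {S : Type} [Fintype S] [DecidableEq S] {d : ℕ}

lemma add_eq_zero_iff' {T : Type} (x y : T → ZMod 2) : x + y = 0 ↔ x = y := by
  constructor
  · intro h
    funext s
    exact z2_eq.1 (congrFun h s)
  · rintro rfl
    exact v2_self x

/-- inversion -/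
lemma inv (f : (Fin d → ZMod 2) → ℝ) (s : Fin d → ZMod 2) :
    (avg fun c : Fin d → ZMod 2 => (∑ r, f r * sg (dt c r)) * sg (dt c s)) = f s := by
  have h1 : ∀ c : Fin d → ZMod 2, (∑ r, f r * sg (dt c r)) * sg (dt c s) =
      ∑ r, f r * sg (dt (r + s) c) := by
    intro c
    rw [sum_mul]
    refine sum_congr rfl fun r _ => ?_
    rw [dt_comm (r + s), dt_add_right, sg_add]
    ring
  simp only [h1]
  rw [avg_finset_sum, sum_eq_single s]
  · rw [avg_mul_left, avg_sg_dt, if_pos (v2_self s), mul_one]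
  · intro r _ hr
    rw [avg_mul_left, avg_sg_dt, if_neg, mul_zero]
    rwa [add_eq_zero_iff']
  · intro h
    exact absurd (mem_univ s) h

/-- the transform -/
noncomputable def tr (f : (Fin d → ZMod 2) → ℝ) (c : Fin d → ZMod 2) : ℝ :=
  ∑ r, f r * sg (dt c r)

/-- fourth powers -/
lemma four (f : (Fin d → ZMod 2) → ℝ) :
    (avg fun c : (Fin d → ZMod 2) × (Fin d → ZMod 2) × (Fin d → ZMod 2) =>
      tr f c.1 * tr f c.2.1 * tr f c.2.2 * tr f (c.1 + c.2.1 + c.2.2)) = ∑ s, f s ^ 4 := by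
  have h1 : ∀ c : (Fin d → ZMod 2) × (Fin d → ZMod 2) × (Fin d → ZMod 2),
      tr f c.1 * tr f c.2.1 * tr f c.2.2 * tr f (c.1 + c.2.1 + c.2.2) =
      ∑ s, f s * ((tr f c.1 * sg (dt c.1 s)) * ((tr f c.2.1 * sg (dt c.2.1 s)) *
        (tr f c.2.2 * sg (dt c.2.2 s)))) := by
    intro c
    conv_lhs => rw [tr.eq_1 f (c.1 + c.2.1 + c.2.2)]
    rw [mul_sum]
    refine sum_congr rfl fun s _ => ?_
    rw [dt_add_left, dt_add_left, sg_add, sg_add]
    ring
  simp only [h1]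
  rw [avg_finset_sum]
  refine sum_congr rfl fun s _ => ?_
  rw [avg_mul_left, avg_prod]
  simp only [avg_mul_left, avg_mul_right, avg_prod]
  have h2 := inv f s
  have h3 : (avg fun c : Fin d → ZMod 2 => tr f c * sg (dt c s)) = f s := h2
  rw [h3]
  ring

/-- the sum over the label -/
noncomputable def Wf (w : (S → ZMod 2) → (Fin d → ZMod 2) → ℝ) (z : Fin d → S → ZMod 2)
    (s : Fin d → ZMod 2) : ℝ := ∑ h, w h (ev h z + s)

lemma ev_cancel (h : S → ZMod 2) (z : Fin d → S → ZMod 2) (τ : Fin d → ZMod 2) :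
    ev h z + (ev h z + τ) = τ := by
  rw [← add_assoc, v2_self, zero_add]

lemma step1 (μ : (Fin d → S → ZMod 2) → (Fin d → ZMod 2) → ℝ)
    (w : (S → ZMod 2) → (Fin d → ZMod 2) → ℝ) :
    (avg fun z => ∑ s, μ z s * Wf w z s) = ∑ h, ∑ τ, w h τ * ms μ (h, τ) := by
  have h1 : ∀ z : Fin d → S → ZMod 2, (∑ s, μ z s * Wf w z s) =
      ∑ h, ∑ τ, w h τ * μ z (ev h z + τ) := by
    intro z
    unfold Wf
    simp only [mul_sum]
    rw [sum_comm]
    refine sum_congr rfl fun h _ => ?_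
    rw [← Equiv.sum_comp (Equiv.addLeft (ev h z))]
    refine sum_congr rfl fun τ _ => ?_
    rw [Equiv.coe_addLeft, ev_cancel, mul_comm]
  simp only [h1]
  rw [avg_finset_sum]
  refine sum_congr rfl fun h _ => ?_
  rw [avg_finset_sum]
  refine sum_congr rfl fun τ _ => ?_
  rw [avg_mul_left]
  rfl

lemma step2 {μ : (Fin d → S → ZMod 2) → (Fin d → ZMod 2) → ℝ} (hμ : IsLaw μ)
    (W : (Fin d → S → ZMod 2) → (Fin d → ZMod 2) → ℝ) :
    (avg fun z => ∑ s, μ z s * W z s) ≤ √(√(avg fun z => ∑ s, W z s ^ 4)) := by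
  have hle : ∀ z s, μ z s ≤ 1 := by
    intro z s
    rw [← hμ.sum z]
    exact single_le_sum (f := fun s => μ z s) (fun s _ => hμ.nonneg z s) (mem_univ s)
  -- weighted Cauchy-Schwarz
  have hcs : ∀ (z : Fin d → S → ZMod 2) (g : (Fin d → ZMod 2) → ℝ),
      (∑ s, μ z s * g s) ^ 2 ≤ ∑ s, μ z s * g s ^ 2 := by
    intro z g
    have h := sum_mul_sq_le_sq_mul_sq (univ : Finset (Fin d → ZMod 2)) (fun s => √(μ z s))
      (fun s => √(μ z s) * g s)
    have e1 : ∀ s, √(μ z s) * (√(μ z s) * g s) = μ z s * g s := by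
      intro s
      rw [← mul_assoc, Real.mul_self_sqrt (hμ.nonneg z s)]
    have e2 : ∀ s, √(μ z s) ^ 2 = μ z s := fun s => Real.sq_sqrt (hμ.nonneg z s)
    have e3 : ∀ s, (√(μ z s) * g s) ^ 2 = μ z s * g s ^ 2 := by
      intro s
      rw [mul_pow, e2]
    simp only [e1, e2, e3] at h
    rwa [hμ.sum, one_mul] at h
  have h1 : (avg fun z => ∑ s, μ z s * W z s) ^ 2 ≤ avg fun z => ∑ s, μ z s * W z s ^ 2 :=
    (avg_sq_le _).trans (avg_mono fun z => hcs z _)
  have h2 : (avg fun z => ∑ s, μ z s * W z s ^ 2) ^ 2 ≤ avg fun z => ∑ s, W z s ^ 4 := by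
    refine (avg_sq_le _).trans (avg_mono fun z => (hcs z _).trans ?_)
    refine sum_le_sum fun s _ => ?_
    have e : (W z s ^ 2) ^ 2 = W z s ^ 4 := by ring
    rw [e]
    calc μ z s * W z s ^ 4 ≤ 1 * W z s ^ 4 :=
          mul_le_mul_of_nonneg_right (hle z s) (by positivity)
      _ = _ := one_mul _
  exact Real.le_sqrt_of_sq_le (h1.trans (Real.le_sqrt_of_sq_le h2))

/-- the coefficients -/
noncomputable def aw (w : (S → ZMod 2) → (Fin d → ZMod 2) → ℝ) (c : Fin d → ZMod 2)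
    (h : S → ZMod 2) : ℝ := tr (w h) c

lemma tr_Wf (w : (S → ZMod 2) → (Fin d → ZMod 2) → ℝ) (z : Fin d → S → ZMod 2)
    (c : Fin d → ZMod 2) : tr (Wf w z) c = PhiF (aw w) c (cz c z) := by
  unfold tr Wf PhiF aw tr
  simp only [sum_mul]
  rw [sum_comm]
  refine sum_congr rfl fun h _ => ?_
  rw [← Equiv.sum_comp (Equiv.addLeft (ev h z))]
  refine sum_congr rfl fun τ _ => ?_
  rw [Equiv.coe_addLeft, ev_cancel, dt_add_right, sg_add, dt_ev]
  ring

lemma step34 (h1 : FOURTH) (w : (S → ZMod 2) → (Fin d → ZMod 2) → ℝ) {K : ℝ} (hK : 0 ≤ K)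
    (hw : ∀ c y, |PhiF (aw w) c y| ≤ K) :
    (avg fun z => ∑ s, Wf w z s ^ 4) ≤ (∑ h, ∑ τ, w h τ ^ 4) + 14 / 2 ^ d * K ^ 4 := by
  have e1 : ∀ z : Fin d → S → ZMod 2, (∑ s, Wf w z s ^ 4) =
      avg fun c : (Fin d → ZMod 2) × (Fin d → ZMod 2) × (Fin d → ZMod 2) =>
      PhiF (aw w) c.1 (cz c.1 z) * PhiF (aw w) c.2.1 (cz c.2.1 z) *
      PhiF (aw w) c.2.2 (cz c.2.2 z) *
      PhiF (aw w) (c.1 + c.2.1 + c.2.2) (cz (c.1 + c.2.1 + c.2.2) z) := by
    intro z
    rw [← four]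
    simp only [tr_Wf]
  have e2 : (avg fun c : (Fin d → ZMod 2) × (Fin d → ZMod 2) × (Fin d → ZMod 2) =>
      ∑ h, aw w c.1 h * aw w c.2.1 h * aw w c.2.2 h * aw w (c.1 + c.2.1 + c.2.2) h) =
      ∑ h, ∑ τ, w h τ ^ 4 := by
    rw [avg_finset_sum]
    refine sum_congr rfl fun h _ => ?_
    rw [← four]
    rfl
  have h2 := h1 S d (aw w) K hK hw
  rw [e2] at h2
  simp only [e1]
  rw [avg_comm]
  exact h2

end

end LEML

open LEML in
theorem leml (h1 : FOURTH) (h2 : COEF) (h3 : SUP) : LEML := by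
  intro A _ _ d k μ hμ t Hn ht hcard
  classical
  obtain ⟨ca, cb, -, -, ce⟩ := h2 (Fin k × A) d μ hμ
  have h2d : (0 : ℝ) < 1 / 2 ^ d := by positivity
  have h2d1 : (1 : ℝ) / 2 ^ d ≤ 1 := by
    rw [div_le_one (by positivity)]
    exact one_le_pow₀ (by norm_num)
  have hHn : 0 ≤ Hn := (Nat.cast_nonneg _).trans hcard
  have hmu1 : ∀ z s, μ z s ≤ 1 := by
    intro z s
    rw [← hμ.sum z]
    exact single_le_sum (f := fun s => μ z s) (fun s _ => hμ.nonneg z s) (mem_univ s)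
  have hms0 : ∀ q, 0 ≤ ms μ q := fun q => avg_nonneg fun z => hμ.nonneg z _
  have hms1 : ∀ q, ms μ q ≤ 1 := fun q => avg_le_const zero_le_one fun z => hmu1 z _
  have hMs1 : ∀ q, |Ms μ q| ≤ 1 := by
    intro q
    unfold Ms
    rw [abs_le]
    constructor
    · linarith [hms0 q]
    · linarith [hms1 q]
  -- the light weights
  let w : (Fin k × A → ZMod 2) → (Fin d → ZMod 2) → ℝ := fun h τ =>
    if IsOdd h ∧ ms μ (h, τ) < t then Ms μ (h, τ) else 0
  -- heavy weights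
  let v : (Fin k × A → ZMod 2) → (Fin d → ZMod 2) → ℝ := fun h τ =>
    if (h, τ) ∈ HO μ t then Ms μ (h, τ) else 0
  have hwv : ∀ h τ, w h τ = (if IsOdd h then Ms μ (h, τ) else 0) - v h τ := by
    intro h τ
    show (if IsOdd h ∧ ms μ (h, τ) < t then Ms μ (h, τ) else 0) = _ -
      (if (h, τ) ∈ HO μ t then Ms μ (h, τ) else 0)
    simp only [mem_HO]
    by_cases ho : IsOdd h
    · by_cases hl : ms μ (h, τ) < t
      · rw [if_pos ⟨ho, hl⟩, if_pos ho, if_neg (fun h => absurd h.2 (not_le.2 hl)), sub_zero]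
      · rw [if_neg (fun h => hl h.2), if_pos ho, if_pos ⟨ho, not_lt.1 hl⟩, sub_self]
    · rw [if_neg (fun h => ho h.1), if_neg ho, if_neg (fun h => ho h.1), sub_zero]
  have hvsum : ∀ g : (Fin k × A → ZMod 2) → (Fin d → ZMod 2) → ℝ,
      ∑ h, ∑ τ, v h τ * g h τ = ∑ q ∈ HO μ t, Ms μ q * g q.1 q.2 := by
    intro g
    rw [← Fintype.sum_prod_type' (f := fun h τ => v h τ * g h τ),
      ← sum_filter_add_sum_filter_not univ (fun q => q ∈ HO μ t)]
    rw [sum_eq_zero (s := univ.filter fun q => ¬ q ∈ HO μ t), add_zero]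
    · refine sum_congr (by ext q; simp) fun q hq => ?_
      show (if (q.1, q.2) ∈ HO μ t then _ else 0) * _ = _
      rw [if_pos hq]
    · intro q hq
      show (if (q.1, q.2) ∈ HO μ t then _ else 0) * _ = _
      rw [if_neg (mem_filter.1 hq).2, zero_mul]
  have hvabs : ∀ g : (Fin k × A → ZMod 2) → (Fin d → ZMod 2) → ℝ, (∀ h τ, |g h τ| ≤ 1) →
      |∑ h, ∑ τ, v h τ * g h τ| ≤ Hn := by
    intro g hg
    rw [hvsum]
    refine (abs_sum_le_sum_abs _ _).trans (le_trans ?_ hcard)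
    rw [card_eq_sum_ones, Nat.cast_sum]
    refine sum_le_sum fun q _ => ?_
    rw [abs_mul, Nat.cast_one]
    exact mul_le_one₀ (hMs1 q) (abs_nonneg _) (hg _ _)
  -- the sums over the odd functions
  have hodd : ∀ g : (Fin k × A → ZMod 2) → ℝ,
      (∑ h, if IsOdd h then g h else 0) = ∑ h ∈ Odds A k, g h := by
    intro g
    unfold Odds
    rw [sum_filter]
  -- the bound of the functions
  have hPhi : ∀ c y, |PhiF (aw w) c y| ≤ 1 + Hn := by
    intro c y
    have e1 : PhiF (aw w) c y = (∑ h ∈ Odds A k, (∑ τ, sg (dt c τ) * Ms μ (h, τ)) * sg (dt h y)) -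
        ∑ h, ∑ τ, v h τ * (sg (dt c τ) * sg (dt h y)) := by
      rw [← hodd, ← sum_sub_distrib]
      unfold PhiF aw tr
      refine sum_congr rfl fun h _ => ?_
      simp only [hwv]
      rw [sum_mul]
      by_cases ho : IsOdd h
      · simp only [if_pos ho]
        rw [sum_mul, ← sum_sub_distrib]
        refine sum_congr rfl fun τ _ => ?_
        ring
      · simp only [if_neg ho]
        rw [zero_sub, ← sum_neg_distrib]
        refine sum_congr rfl fun τ _ => ?_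
        ring
    have e2 : |∑ h ∈ Odds A k, (∑ τ, sg (dt c τ) * Ms μ (h, τ)) * sg (dt h y)| ≤ 1 := by
      by_cases hc : c = 0
      · subst hc
        have : ∀ h ∈ Odds A k, (∑ τ, sg (dt (0 : Fin d → ZMod 2) τ) * Ms μ (h, τ)) * sg (dt h y) =
            0 := by
          intro h _
          simp only [dt_zero_left, sg_zero, one_mul]
          rw [cb, zero_mul]
        rw [sum_eq_zero this, abs_zero]
        exact zero_le_one
      · have h4 := h3 A d k μ hμ c hc y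
        simp only [ca c hc] at h4
        exact h4
    have e3 := hvabs (fun h τ => sg (dt c τ) * sg (dt h y)) (fun h τ => by
      rw [abs_mul, abs_sg, abs_sg, one_mul])
    rw [e1]
    exact (abs_sub _ _).trans (add_le_add e2 e3)
  -- the sizes
  have hwsq : ∀ h τ, w h τ ^ 2 ≤ Ms μ (h, τ) ^ 2 := by
    intro h τ
    show (if IsOdd h ∧ ms μ (h, τ) < t then Ms μ (h, τ) else 0) ^ 2 ≤ _
    split_ifs
    · exact le_rfl
    · rw [zero_pow two_ne_zero]
      exact sq_nonneg _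
  have hw4 : ∀ h τ, w h τ ^ 4 ≤ t ^ 2 * w h τ ^ 2 := by
    intro h τ
    have h5 : w h τ ^ 2 ≤ t ^ 2 := by
      show (if IsOdd h ∧ ms μ (h, τ) < t then Ms μ (h, τ) else 0) ^ 2 ≤ _
      split_ifs with hif
      · have h6 : Ms μ (h, τ) ≤ t := by
          unfold Ms
          linarith [hif.2]
        have h7 : -t ≤ Ms μ (h, τ) := by
          unfold Ms
          linarith [hms0 (h, τ)]
        exact sq_le_sq' h7 h6
      · rw [zero_pow two_ne_zero]
        exact sq_nonneg _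
    calc w h τ ^ 4 = w h τ ^ 2 * w h τ ^ 2 := by ring
      _ ≤ t ^ 2 * w h τ ^ 2 := mul_le_mul_of_nonneg_right h5 (sq_nonneg _)
  have hsum1 : ∑ h, ∑ τ, w h τ ^ 2 ≤ 1 := by
    refine le_trans ?_ ce
    rw [← Fintype.sum_prod_type' (f := fun h τ => w h τ ^ 2)]
    exact sum_le_sum fun q _ => hwsq q.1 q.2
  have hsum4 : ∑ h, ∑ τ, w h τ ^ 4 ≤ t ^ 2 := by
    calc ∑ h, ∑ τ, w h τ ^ 4 ≤ ∑ h, ∑ τ, t ^ 2 * w h τ ^ 2 :=
          sum_le_sum fun h _ => sum_le_sum fun τ _ => hw4 h τ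
      _ = t ^ 2 * ∑ h, ∑ τ, w h τ ^ 2 := by simp only [mul_sum]
      _ ≤ t ^ 2 * 1 := mul_le_mul_of_nonneg_left hsum1 (sq_nonneg _)
      _ = t ^ 2 := mul_one _
  -- the main estimate
  have hA := step34 h1 w (K := 1 + Hn) (by linarith) hPhi
  have hB := step2 hμ (Wf w)
  rw [step1] at hB
  have hC : √(√(avg fun z => ∑ s, Wf w z s ^ 4)) ≤ √(√(t ^ 2 + 14 / 2 ^ d * (1 + Hn) ^ 4)) :=
    Real.sqrt_le_sqrt (Real.sqrt_le_sqrt (hA.trans (by linarith)))
  -- the sum of the squares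
  have hD : ∑ h, ∑ τ, w h τ * ms μ (h, τ) = (∑ h, ∑ τ, w h τ ^ 2) +
      1 / 2 ^ d * ∑ h, ∑ τ, w h τ := by
    rw [mul_sum, ← sum_add_distrib]
    refine sum_congr rfl fun h _ => ?_
    rw [mul_sum, ← sum_add_distrib]
    refine sum_congr rfl fun τ _ => ?_
    have h6 : ms μ (h, τ) = Ms μ (h, τ) + 1 / 2 ^ d := by
      unfold Ms
      ring
    have h7 : w h τ * Ms μ (h, τ) = w h τ ^ 2 := by
      show (if IsOdd h ∧ ms μ (h, τ) < t then Ms μ (h, τ) else 0) * _ =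
        (if IsOdd h ∧ ms μ (h, τ) < t then Ms μ (h, τ) else 0) ^ 2
      split_ifs
      · ring
      · ring
    rw [h6, mul_add, h7]
    ring
  have hE : ∑ h, ∑ τ, w h τ = - ∑ h, ∑ τ, v h τ * 1 := by
    rw [← sum_neg_distrib]
    refine sum_congr rfl fun h _ => ?_
    simp only [hwv, sum_sub_distrib, mul_one]
    by_cases ho : IsOdd h
    · simp only [if_pos ho]
      rw [cb, zero_sub]
    · simp only [if_neg ho]
      rw [sum_const_zero, zero_sub]
  have hF := hvabs (fun _ _ => 1) (fun _ _ => by rw [abs_one])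
  have hG : Sig μ = (∑ h, ∑ τ, w h τ ^ 2) + ∑ q ∈ HO μ t, Ms μ q ^ 2 := by
    have h8 := hvsum fun h τ => Ms μ (h, τ)
    have h9 : ∑ q ∈ HO μ t, Ms μ q ^ 2 = ∑ h, ∑ τ, v h τ * Ms μ (h, τ) := by
      rw [h8]
      exact sum_congr rfl fun q _ => sq _
    rw [h9, ← sum_add_distrib]
    unfold Sig
    rw [← hodd]
    refine sum_congr rfl fun h _ => ?_
    rw [← sum_add_distrib]
    by_cases ho : IsOdd h
    · rw [if_pos ho]
      refine sum_congr rfl fun τ _ => ?_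
      show _ = (if IsOdd h ∧ ms μ (h, τ) < t then Ms μ (h, τ) else 0) ^ 2 +
        (if (h, τ) ∈ HO μ t then Ms μ (h, τ) else 0) * Ms μ (h, τ)
      simp only [mem_HO]
      by_cases hl : ms μ (h, τ) < t
      · rw [if_pos ⟨ho, hl⟩, if_neg (fun h => absurd h.2 (not_le.2 hl))]
        ring
      · rw [if_neg (fun h => hl h.2), if_pos ⟨ho, not_lt.1 hl⟩]
        ring
    · rw [if_neg ho]
      symm
      refine sum_eq_zero fun τ _ => ?_
      show (if IsOdd h ∧ ms μ (h, τ) < t then Ms μ (h, τ) else 0) ^ 2 +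
        (if (h, τ) ∈ HO μ t then Ms μ (h, τ) else 0) * Ms μ (h, τ) = 0
      simp only [mem_HO]
      rw [if_neg (fun h => ho h.1), if_neg (fun h => ho h.1)]
      ring
  rw [hD, hE] at hB
  have hI : 1 / 2 ^ d * (∑ h, ∑ τ, v h τ * 1) ≤ Hn / 2 ^ d := by
    calc 1 / 2 ^ d * (∑ h, ∑ τ, v h τ * 1) ≤ 1 / 2 ^ d * Hn :=
          mul_le_mul_of_nonneg_left (le_of_abs_le hF) h2d.le
      _ = Hn / 2 ^ d := by ring
  unfold theta
  rw [hG]
  have hJ : 14 / 2 ^ d * (1 + Hn) ^ 4 = 14 / 2 ^ d * (1 + Hn) ^ 4 := rfl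
  linarith

end Pool.Agent.MP_ec946a.SE
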