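import Pool.Agent.Lib.SE.LemS71
import Pool.Agent.Lib.SE.Coef

/-!
# Row LEMS (helper71)
-/

set_option autoImplicit false
set_option linter.unusedSectionVars false

namespace Pool.Agent.MP_ec946a.SE

open Finset Pool.Agent.MP_ec946a.LR

namespace S71

open Pool.Agent.SE C71

variable {A : Type} [Fintype A] [DecidableEq A] {k d : ℕ}

theorem bs_eq (h : Fin k × A → ZMod 2) (j : Fin k) :
    Four.bs (Prod.fst : Fin k × A → Fin k) h j = ∑ a, h (j, a) := by
  unfold Four.bs
  rw [Fintype.sum_prod_type, sum_eq_single j]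
  · exact sum_congr rfl fun a _ => if_pos rfl
  · intro i _ hi
    exact sum_eq_zero fun a _ => if_neg hi
  · intro hj
    exact absurd (mem_univ j) hj

theorem isOdd_iff (h : Fin k × A → ZMod 2) :
    Four.IsOdd (Prod.fst : Fin k × A → Fin k) h ↔ IsOdd h := by
  unfold Four.IsOdd IsOdd
  simp_rw [bs_eq]

theorem sig_eq (μ : (Fin d → Fin k × A → ZMod 2) → (Fin d → ZMod 2) → ℝ) :
    (∑ h ∈ univ.filter (Four.IsOdd (Prod.fst : Fin k × A → Fin k)), ∑ τ, Four.Mm (un μ) h τ ^ 2) =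
      Sig μ := by
  unfold Sig
  simp_rw [Mm_eq]
  have e : univ.filter (Four.IsOdd (Prod.fst : Fin k × A → Fin k)) = Odds A k := by
    ext h
    rw [mem_filter, mem_Odds, isOdd_iff]
    simp
  rw [e]

end S71

open S71 C71 Pool.Agent.SE in
/-- Lemma S. -/
theorem lems' : LEMS := by
  intro A _ _ d k μ hμ f p
  have h1 := Four.lemS (isPr hμ) (Prod.fst : Fin k × A → Fin k)
    (fun z x => f (cur _ _ z) x) (fun z x => p (cur _ _ z) x)
  rw [sig_eq, qd_eq] at h1
  refine le_trans (le_of_eq ?_) h1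
  rw [avg_prod]
  have h2 : ∀ z : Fin d → Fin k × A → ZMod 2,
      (avg fun y : (Fin k × A → ZMod 2) × (Fin d → ZMod 2) × (Fin d → Fin k → ZMod 2) =>
        μ z (lz (f (shift z y.1 y.2.1 y.2.2) y.1) (p (shift z y.1 y.2.1 y.2.2) y.1) y.2.1
          (par y.2.2))) =
      avg fun x : Fin k × A → ZMod 2 => avg fun ε : Fin d → ZMod 2 =>
        avg fun δ : Fin d → Fin k → ZMod 2 =>
        μ z (lz (f (shift z x ε δ) x) (p (shift z x ε δ) x) ε (par δ)) := by
    intro z
    rw [avg_prod]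
    congr 1
    funext x
    rw [avg_prod]
  simp_rw [h2]
  rw [avg_comm]
  show (avg fun x : Fin k × A → ZMod 2 => avg fun z : Fin d → Fin k × A → ZMod 2 =>
    avg fun ε : Fin d → ZMod 2 => avg fun δ : Fin d → Fin k → ZMod 2 =>
      μ z (lz (f (shift z x ε δ) x) (p (shift z x ε δ) x) ε (par δ))) = _
  congr 1
  funext x
  rw [avg_comm]
  show (avg fun ε : Fin d → ZMod 2 => avg fun z : Fin d → Fin k × A → ZMod 2 =>
    avg fun δ : Fin d → Fin k → ZMod 2 =>
      μ z (lz (f (shift z x ε δ) x) (p (shift z x ε δ) x) ε (par δ))) = _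
  congr 1
  funext ε
  rw [avg_comm]
  show (avg fun δ : Fin d → Fin k → ZMod 2 => avg fun z : Fin d → Fin k × A → ZMod 2 =>
      μ z (lz (f (shift z x ε δ) x) (p (shift z x ε δ) x) ε (par δ))) = _
  rw [← avg_equiv (Equiv.curry (Fin d) (Fin k) (ZMod 2))]
  show (avg fun δ : Fin d × Fin k → ZMod 2 => avg fun z : Fin d → Fin k × A → ZMod 2 =>
      μ z (lz (f (shift z x ε (Equiv.curry (Fin d) (Fin k) (ZMod 2) δ)) x)
        (p (shift z x ε (Equiv.curry (Fin d) (Fin k) (ZMod 2) δ)) x) ε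
          (par (Equiv.curry (Fin d) (Fin k) (ZMod 2) δ)))) = _
  congr 1
  funext δ
  rw [← avg_equiv (cur (Fin k × A) d)]
  rfl

theorem lems (_ : SECOND) (_ : COEF) : LEMS := lems'

end Pool.Agent.MP_ec946a.SE
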