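import Pool.Agent.Lib.SE.Base71

/-!
# Lemma S (MP_ec946a, helper71)
-/

set_option autoImplicit false
set_option linter.unusedSectionVars false
open Finset

namespace Pool.Agent.SE.Four

variable {I S K : Type} [Fintype I] [DecidableEq I] [Fintype S] [DecidableEq S] [Fintype K]
  [DecidableEq K]

namespace LS

/-- `ξ(εx)` as a function of `ε` -/
def rw' (ξ : I × S → ZMod 2) (x : S → ZMod 2) : I → ZMod 2 := fun i => ∑ s, ξ (i, s) * x s

theorem dt_ten' (ξ : I × S → ZMod 2) (ε : I → ZMod 2) (x : S → ZMod 2) :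
    dt ξ (ten ε x) = dt (rw' ξ x) ε := by
  unfold dt ten rw'
  rw [Fintype.sum_prod_type]
  refine sum_congr rfl fun i _ => ?_
  rw [sum_mul]
  exact sum_congr rfl fun s _ => by ring

theorem rw'_add (ξ : I × S → ZMod 2) (x y : S → ZMod 2) : rw' ξ (x + y) = rw' ξ x + rw' ξ y := by
  funext i
  show ∑ s, ξ (i, s) * (x s + y s) = ∑ s, ξ (i, s) * x s + ∑ s, ξ (i, s) * y s
  rw [← sum_add_distrib]
  exact sum_congr rfl fun s _ => by ring

/-- membership of `{0, c}` -/
noncomputable def N (c r : I → ZMod 2) : ℝ := (if r = 0 then 1 else 0) + if c + r = 0 then 1 else 0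

theorem add_eq_zero' {T : Type} [Fintype T] [DecidableEq T] (a b : T → ZMod 2) : a + b = 0 ↔ b = a := by
  constructor
  · intro h
    have h1 := congrArg (fun v => a + v) h
    simp only [add_zero] at h1
    rw [← add_assoc, add_self', zero_add] at h1
    exact h1
  · intro h
    rw [h, add_self']

theorem N_nonneg (c r : I → ZMod 2) : 0 ≤ N c r := by
  unfold N
  split_ifs <;> norm_num

theorem N_le_one {c : I → ZMod 2} (hc : c ≠ 0) (r : I → ZMod 2) : N c r ≤ 1 := by
  unfold N
  by_cases h : r = 0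
  · have : ¬ c + r = 0 := by
      rw [h, add_zero]
      exact hc
    rw [if_pos h, if_neg this]
    norm_num
  · rw [if_neg h]
    split_ifs <;> norm_num

theorem N_eq_one_or (c r : I → ZMod 2) (h : r = 0 ∨ r = c) (hc : c ≠ 0) : N c r = 1 := by
  unfold N
  rcases h with h | h
  · have : ¬ c + r = 0 := by
      rw [h, add_zero]
      exact hc
    rw [if_pos h, if_neg this]
    norm_num
  · have h1 : ¬ r = 0 := by rwa [h]
    have h2 : c + r = 0 := by rw [h, add_self']
    rw [if_neg h1, if_pos h2]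
    norm_num

theorem N_eq_zero_or (c r : I → ZMod 2) (h : ¬ (r = 0 ∨ r = c)) : N c r = 0 := by
  unfold N
  push Not at h
  rw [if_neg h.1, if_neg]
  · norm_num
  · intro h1
    exact h.2 ((add_eq_zero' c r).1 h1)

/-- a functional on `X^d` with all values on products in `{0, c}` -/
theorem form {c : I → ZMod 2} (hc : c ≠ 0) (ξ : I × S → ZMod 2)
    (h : ∀ x : S → ZMod 2, rw' ξ x = 0 ∨ rw' ξ x = c) : ∃ g : S → ZMod 2, ξ = ten c g := by
  obtain ⟨i0, hi0⟩ := Function.ne_iff.1 hc
  have h2 : c i0 = 1 := by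
    rcases zcases (c i0) with h | h
    · exact absurd h hi0
    · exact h
  refine ⟨fun s => ξ (i0, s), ?_⟩
  funext p
  obtain ⟨i, s⟩ := p
  show ξ (i, s) = c i * ξ (i0, s)
  have h3 : (fun s => ξ (i, s) + c i * ξ (i0, s)) = 0 := by
    refine eq_zero_of_dt _ fun x => ?_
    have h4 : dt (fun s => ξ (i, s) + c i * ξ (i0, s)) x = rw' ξ x i + c i * rw' ξ x i0 := by
      unfold dt rw'
      rw [mul_sum, ← sum_add_distrib]
      exact sum_congr rfl fun s _ => by ring
    rw [h4]
    rcases h x with h5 | h5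
    · rw [h5]
      simp
    · rw [h5, h2, mul_one]
      rcases zcases (c i) with h6 | h6 <;> rw [h6] <;> decide
  have h7 := congrFun h3 s
  have h8 : ξ (i, s) + c i * ξ (i0, s) = 0 := h7
  rcases zcases (ξ (i, s)) with h9 | h9 <;> rcases zcases (c i * ξ (i0, s)) with h10 | h10 <;>
    rw [h9, h10] at h8 ⊢ <;> revert h8 <;> decide

open Classical in
theorem avN_le {c : I → ZMod 2} (hc : c ≠ 0) (ξ : I × S → ZMod 2) :
    av (fun x : S → ZMod 2 => N c (rw' ξ x)) ≤
      1 / 2 + 1 / 2 * if ∃ g : S → ZMod 2, ξ = ten c g then 1 else 0 := by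
  by_cases hg : ∃ g : S → ZMod 2, ξ = ten c g
  · rw [if_pos hg]
    have := av_le_one (f := fun x : S → ZMod 2 => N c (rw' ξ x)) fun x => N_le_one hc _
    linarith
  · rw [if_neg hg]
    have h1 : ∃ x0 : S → ZMod 2, ¬ (rw' ξ x0 = 0 ∨ rw' ξ x0 = c) := by
      by_contra h
      push Not at h
      exact hg (form hc ξ h)
    obtain ⟨x0, hx0⟩ := h1
    have h2 := av_shift x0 (fun x : S → ZMod 2 => N c (rw' ξ x))
    have h3 : ∀ x : S → ZMod 2, N c (rw' ξ x) + N c (rw' ξ (x + x0)) ≤ 1 := by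
      intro x
      by_cases ha : rw' ξ x = 0 ∨ rw' ξ x = c
      · have hb : ¬ (rw' ξ (x + x0) = 0 ∨ rw' ξ (x + x0) = c) := by
          intro hb
          apply hx0
          have e : rw' ξ x0 = rw' ξ x + rw' ξ (x + x0) := by
            rw [rw'_add, ← add_assoc, add_self', zero_add]
          rw [e]
          rcases ha with ha | ha <;> rcases hb with hb | hb <;> rw [ha, hb]
          · left; simp
          · right; simp
          · right; simp
          · left; exact add_self' c
        rw [N_eq_zero_or c _ hb, add_zero]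
        exact N_le_one hc _
      · rw [N_eq_zero_or c _ ha, zero_add]
        exact N_le_one hc _
    have h4 : av (fun x : S → ZMod 2 => N c (rw' ξ x) + N c (rw' ξ (x + x0))) ≤ 1 :=
      av_le_one h3
    rw [av_add, h2] at h4
    linarith

variable {μ : (I × S → ZMod 2) → (I → ZMod 2) → ℝ}

/-- the smoothed transform -/
noncomputable def Ph (μ : (I × S → ZMod 2) → (I → ZMod 2) → ℝ) (blk : S → K) (c : I → ZMod 2)
    (y : I × S → ZMod 2) : ℝ := av fun δ : I × K → ZMod 2 => F μ c (y + lft blk δ) * sg (dt c (par δ))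

theorem abs_Ph_le (hμ : IsPr μ) (blk : S → K) (c : I → ZMod 2) (y : I × S → ZMod 2) :
    |Ph μ blk c y| ≤ 1 := by
  refine abs_av_le_one fun δ => ?_
  rw [abs_mul, abs_sg, mul_one]
  exact abs_F_le hμ _ _

theorem fc_Ph (blk : S → K) (c : I → ZMod 2) (ξ : I × S → ZMod 2) :
    fc (Ph μ blk c) ξ = av (fun δ : I × K → ZMod 2 => sg (dt c (par δ)) * sg (dt ξ (lft blk δ))) *
      fc (fun z => F μ c z) ξ := by
  unfold Ph
  have h1 : fc (fun y => av fun δ : I × K → ZMod 2 => F μ c (y + lft blk δ) * sg (dt c (par δ))) ξ =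
      av fun δ : I × K → ZMod 2 => av fun y : I × S → ZMod 2 =>
        F μ c (y + lft blk δ) * sg (dt c (par δ)) * sg (dt ξ y) := by
    unfold fc
    simp_rw [← av_mul_right]
    exact av_comm _
  rw [h1, ← av_mul_right]
  congr 1
  funext δ
  rw [← av_shift (lft blk δ)]
  unfold fc
  rw [← av_mul_left]
  congr 1
  funext y
  rw [add_assoc, add_self', add_zero, dt_add_right, sg_add]
  ring

open Classical in
theorem fc_Ph_ten {c : I → ZMod 2} (hc : c ≠ 0) (blk : S → K) (h : S → ZMod 2) :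
    fc (Ph μ blk c) (ten c h) = if IsOdd blk h then ac μ c h else 0 := by
  rw [fc_Ph]
  have h1 : ∀ δ : I × K → ZMod 2, sg (dt c (par δ)) * sg (dt (ten c h) (lft blk δ)) =
      sg (dt (fun p : I × K => c p.1 * (1 + bs blk h p.2)) δ) := by
    intro δ
    rw [← sg_add, dt_ten, ← dt_add_right]
    congr 1
    unfold dt
    rw [Fintype.sum_prod_type]
    refine sum_congr rfl fun i _ => ?_
    show c i * (par δ i + ap h (lft blk δ) i) = _
    rw [ap_lft]
    unfold par
    rw [← sum_add_distrib, mul_sum]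
    exact sum_congr rfl fun j _ => by ring
  simp_rw [h1]
  rw [orth]
  have h2 : (fun p : I × K => c p.1 * (1 + bs blk h p.2)) = 0 ↔ IsOdd blk h := by
    obtain ⟨i0, hi0⟩ := Function.ne_iff.1 hc
    have hi1 : c i0 = 1 := by
      rcases zcases (c i0) with h | h
      · exact absurd h hi0
      · exact h
    constructor
    · intro h3 j
      have h4 := congrFun h3 (i0, j)
      have h5 : c i0 * (1 + bs blk h j) = 0 := h4
      rw [hi1, one_mul] at h5
      rcases zcases (bs blk h j) with h6 | h6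
      · rw [h6] at h5
        exact absurd h5 (by decide)
      · exact h6
    · intro h3
      funext p
      show c p.1 * (1 + bs blk h p.2) = 0
      rw [h3 p.2, one_add_one, mul_zero]
  by_cases ho : IsOdd blk h
  · rw [if_pos ho, if_pos (h2.2 ho), one_mul]
    rfl
  · rw [if_neg ho, if_neg (fun h3 => ho (h2.1 h3)), zero_mul]

/-- the sum over one coset -/
noncomputable def A (μ : (I × S → ZMod 2) → (I → ZMod 2) → ℝ) (blk : S → K) (c : I → ZMod 2)
    (a : ZMod 2) (x : S → ZMod 2) (g : I × S → ZMod 2) : ℝ :=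
  av fun ε : I → ZMod 2 => (1 + sg a * sg (dt c ε)) / 2 * Ph μ blk c (g + ten ε x)

theorem fc_A (blk : S → K) (c : I → ZMod 2) (a : ZMod 2) (x : S → ZMod 2) (ξ : I × S → ZMod 2) :
    fc (A μ blk c a x) ξ = ((if rw' ξ x = 0 then 1 else 0) +
      sg a * if c + rw' ξ x = 0 then 1 else 0) / 2 * fc (Ph μ blk c) ξ := by
  have h1 : fc (A μ blk c a x) ξ = av fun ε : I → ZMod 2 => av fun g : I × S → ZMod 2 =>
      (1 + sg a * sg (dt c ε)) / 2 * Ph μ blk c (g + ten ε x) * sg (dt ξ g) := by
    unfold fc A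
    simp_rw [← av_mul_right]
    exact av_comm _
  have h2 : ∀ ε : I → ZMod 2, av (fun g : I × S → ZMod 2 =>
      (1 + sg a * sg (dt c ε)) / 2 * Ph μ blk c (g + ten ε x) * sg (dt ξ g)) =
      (sg (dt (rw' ξ x) ε) + sg a * sg (dt (c + rw' ξ x) ε)) / 2 * fc (Ph μ blk c) ξ := by
    intro ε
    rw [← av_shift (ten ε x)]
    unfold fc
    rw [← av_mul_left]
    congr 1
    funext g
    rw [add_assoc, add_self', add_zero, dt_add_right, sg_add, dt_ten', dt_add_left, sg_add]
    ring
  rw [h1]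
  simp_rw [h2]
  rw [av_mul_right]
  congr 1
  have h3 : ∀ ε : I → ZMod 2, (sg (dt (rw' ξ x) ε) + sg a * sg (dt (c + rw' ξ x) ε)) / 2 =
      (1 / 2) * (sg (dt (rw' ξ x) ε) + sg a * sg (dt (c + rw' ξ x) ε)) := fun ε => by ring
  simp_rw [h3]
  rw [av_mul_left, av_add, av_mul_left, orth, orth]
  ring

/-- the odd mass -/
noncomputable def Bc (μ : (I × S → ZMod 2) → (I → ZMod 2) → ℝ) (blk : S → K) (c : I → ZMod 2) : ℝ :=
  ∑ h ∈ univ.filter (IsOdd blk), ac μ c h ^ 2

theorem Bc_nonneg (blk : S → K) (c : I → ZMod 2) : 0 ≤ Bc μ blk c :=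
  sum_nonneg fun h _ => sq_nonneg _

open Classical in
theorem avA_le (hμ : IsPr μ) (blk : S → K) {c : I → ZMod 2} (hc : c ≠ 0) (a : ZMod 2) :
    av (fun x => av (fun g => A μ blk c a x g ^ 2)) ≤ (1 + Bc μ blk c) / 8 := by
  have h1 : ∀ x, av (fun g => A μ blk c a x g ^ 2) =
      ∑ ξ, fc (Ph μ blk c) ξ ^ 2 * (N c (rw' ξ x) / 4) := by
    intro x
    rw [← parseval (A μ blk c a x)]
    refine sum_congr rfl fun ξ _ => ?_
    rw [fc_A, mul_pow, mul_comm]
    congr 1
    unfold N
    by_cases h2 : rw' ξ x = 0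
    · have h3 : ¬ c + rw' ξ x = 0 := by
        rw [h2, add_zero]
        exact hc
      rw [if_pos h2, if_neg h3]
      norm_num
    · rw [if_neg h2]
      by_cases h3 : c + rw' ξ x = 0
      · rw [if_pos h3]
        have := sg_sq a
        linear_combination (1 / 4) * this
      · rw [if_neg h3]
        norm_num
  simp_rw [h1]
  rw [av_sum]
  have h2 : ∀ ξ : I × S → ZMod 2, av (fun x : S → ZMod 2 =>
      fc (Ph μ blk c) ξ ^ 2 * (N c (rw' ξ x) / 4)) ≤
      fc (Ph μ blk c) ξ ^ 2 * (1 / 8) + (1 / 8) * (if ∃ g : S → ZMod 2, ξ = ten c g then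
        fc (Ph μ blk c) ξ ^ 2 else 0) := by
    intro ξ
    rw [av_mul_left]
    have h3 : av (fun x : S → ZMod 2 => N c (rw' ξ x) / 4) =
        (1 / 4) * av (fun x : S → ZMod 2 => N c (rw' ξ x)) := by
      rw [← av_mul_left]
      congr 1
      funext x
      ring
    rw [h3]
    have h4 := avN_le hc ξ
    have h5 : 0 ≤ fc (Ph μ blk c) ξ ^ 2 := sq_nonneg _
    have h6 := mul_le_mul_of_nonneg_left h4 h5
    by_cases hg : ∃ g : S → ZMod 2, ξ = ten c g
    · rw [if_pos hg] at h6 ⊢
      linarith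
    · rw [if_neg hg] at h6 ⊢
      linarith
  refine (sum_le_sum fun ξ _ => h2 ξ).trans ?_
  rw [sum_add_distrib, ← sum_mul, ← mul_sum, parseval]
  have h3 : av (fun y => Ph μ blk c y ^ 2) ≤ 1 := by
    refine av_le_one fun y => ?_
    rw [sq_le_one_iff_abs_le_one]
    exact abs_Ph_le hμ _ _ _
  have h4 : (∑ ξ : I × S → ZMod 2, if ∃ g : S → ZMod 2, ξ = ten c g then
      fc (Ph μ blk c) ξ ^ 2 else 0) = Bc μ blk c := by
    rw [← sum_filter]
    have h5 : (univ.filter fun ξ : I × S → ZMod 2 => ∃ g : S → ZMod 2, ξ = ten c g) =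
        (univ : Finset (S → ZMod 2)).image (fun g => ten c g) := by
      ext ξ
      simp only [mem_filter, mem_univ, true_and, mem_image]
      constructor
      · rintro ⟨g, rfl⟩
        exact ⟨g, rfl⟩
      · rintro ⟨g, rfl⟩
        exact ⟨g, rfl⟩
    rw [h5, sum_image (fun a _ b _ hab => ten_injective hc hab)]
    unfold Bc
    rw [sum_filter]
    refine sum_congr rfl fun h _ => ?_
    rw [fc_Ph_ten hc]
    split_ifs
    · rfl
    · norm_num
  rw [h4]
  linarith

/-- the term of `c` -/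
noncomputable def Tc (μ : (I × S → ZMod 2) → (I → ZMod 2) → ℝ) (blk : S → K)
    (f : (I × S → ZMod 2) → (S → ZMod 2) → (I → ZMod 2))
    (p : (I × S → ZMod 2) → (S → ZMod 2) → ZMod 2) (c : I → ZMod 2) : ℝ :=
  av fun x : S → ZMod 2 => av fun ε : I → ZMod 2 => av fun δ : I × K → ZMod 2 =>
    av fun z : I × S → ZMod 2 => F μ c z *
      sg (dt c (f (z + ten ε x + lft blk δ) x + (fun i => ε i * p (z + ten ε x + lft blk δ) x) +
        par δ))

theorem dt_smul (c ε : I → ZMod 2) (a : ZMod 2) : dt c (fun i => ε i * a) = dt c ε * a := by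
  unfold dt
  rw [sum_mul]
  exact sum_congr rfl fun i _ => by ring

theorem Tc_eq (blk : S → K) (f : (I × S → ZMod 2) → (S → ZMod 2) → (I → ZMod 2))
    (p : (I × S → ZMod 2) → (S → ZMod 2) → ZMod 2) (c : I → ZMod 2) :
    Tc μ blk f p c = av fun x : S → ZMod 2 => av fun g : I × S → ZMod 2 =>
      sg (dt c (f g x)) * av fun ε : I → ZMod 2 => sg (dt c ε * p g x) *
        Ph μ blk c (g + ten ε x) := by
  unfold Tc
  congr 1
  funext x
  have h1 : ∀ (ε : I → ZMod 2) (δ : I × K → ZMod 2), av (fun z : I × S → ZMod 2 => F μ c z *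
      sg (dt c (f (z + ten ε x + lft blk δ) x + (fun i => ε i * p (z + ten ε x + lft blk δ) x) +
        par δ))) = av (fun g : I × S → ZMod 2 => sg (dt c (f g x)) * (sg (dt c ε * p g x) *
          (F μ c (g + ten ε x + lft blk δ) * sg (dt c (par δ))))) := by
    intro ε δ
    rw [← av_shift (ten ε x + lft blk δ)]
    congr 1
    funext g
    have e : g + (ten ε x + lft blk δ) + ten ε x + lft blk δ = g := by
      have h2 : g + (ten ε x + lft blk δ) + ten ε x + lft blk δ =
          g + ((ten ε x + lft blk δ) + (ten ε x + lft blk δ)) := by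
        simp only [add_assoc]
      rw [h2, add_self', add_zero]
    rw [e, dt_add_right, dt_add_right, sg_add, sg_add, dt_smul, ← add_assoc]
    ring
  simp_rw [h1]
  -- exchange
  have h2 : ∀ ε : I → ZMod 2, av (fun δ : I × K → ZMod 2 => av (fun g : I × S → ZMod 2 =>
      sg (dt c (f g x)) * (sg (dt c ε * p g x) *
          (F μ c (g + ten ε x + lft blk δ) * sg (dt c (par δ)))))) =
      av (fun g : I × S → ZMod 2 => sg (dt c (f g x)) * (sg (dt c ε * p g x) *
        Ph μ blk c (g + ten ε x))) := by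
    intro ε
    rw [av_comm]
    congr 1
    funext g
    rw [av_mul_left, av_mul_left]
    rfl
  simp_rw [h2]
  rw [av_comm]
  congr 1
  funext g
  rw [av_mul_left]

theorem abs_inner_le (blk : S → K) (c : I → ZMod 2) (b : ZMod 2) (x : S → ZMod 2)
    (g : I × S → ZMod 2) :
    |av fun ε : I → ZMod 2 => sg (dt c ε * b) * Ph μ blk c (g + ten ε x)| ≤
      |A μ blk c 0 x g| + |A μ blk c 1 x g| := by
  have h1 : (av fun ε : I → ZMod 2 => sg (dt c ε * b) * Ph μ blk c (g + ten ε x)) =
      A μ blk c 0 x g + sg b * A μ blk c 1 x g := by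
    unfold A
    rw [← av_mul_left, ← av_add]
    congr 1
    funext ε
    rcases zcases (dt c ε) with h | h <;> rcases zcases b with h' | h' <;> rw [h, h'] <;> simp
  rw [h1]
  refine (abs_add_le _ _).trans ?_
  rw [abs_mul, abs_sg, one_mul]

theorem abs_Tc_le (hμ : IsPr μ) (blk : S → K)
    (f : (I × S → ZMod 2) → (S → ZMod 2) → (I → ZMod 2))
    (p : (I × S → ZMod 2) → (S → ZMod 2) → ZMod 2) {c : I → ZMod 2} (hc : c ≠ 0) :
    Tc μ blk f p c ≤ Real.sqrt ((1 + Bc μ blk c) / 2) := by
  rw [Tc_eq]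
  have h1 : (av fun x : S → ZMod 2 => av fun g : I × S → ZMod 2 =>
      sg (dt c (f g x)) * av fun ε : I → ZMod 2 => sg (dt c ε * p g x) *
        Ph μ blk c (g + ten ε x)) ≤
      (av fun x : S → ZMod 2 => av fun g : I × S → ZMod 2 => |A μ blk c 0 x g|) +
      (av fun x : S → ZMod 2 => av fun g : I × S → ZMod 2 => |A μ blk c 1 x g|) := by
    rw [← av_add]
    refine av_mono fun x => ?_
    rw [← av_add]
    refine av_mono fun g => ?_
    refine (le_abs_self _).trans ?_
    rw [abs_mul, abs_sg, one_mul]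
    exact abs_inner_le blk c _ x g
  have h2 : ∀ a : ZMod 2, (av fun x : S → ZMod 2 => av fun g : I × S → ZMod 2 =>
      |A μ blk c a x g|) ≤ Real.sqrt ((1 + Bc μ blk c) / 8) := by
    intro a
    have h3 := av_abs_le_sqrt (fun q : (S → ZMod 2) × (I × S → ZMod 2) => A μ blk c a q.1 q.2)
    rw [av_prod (fun x g => |A μ blk c a x g|)] at h3
    refine h3.trans (Real.sqrt_le_sqrt ?_)
    rw [av_prod (fun x g => A μ blk c a x g ^ 2)]
    exact avA_le hμ blk hc a
  have h3 : Real.sqrt ((1 + Bc μ blk c) / 8) + Real.sqrt ((1 + Bc μ blk c) / 8) =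
      Real.sqrt ((1 + Bc μ blk c) / 2) := by
    have h4 : (1 + Bc μ blk c) / 2 = 2 ^ 2 * ((1 + Bc μ blk c) / 8) := by ring
    rw [h4, Real.sqrt_mul (by norm_num), Real.sqrt_sq (by norm_num)]
    ring
  calc _ ≤ _ := h1
    _ ≤ _ := add_le_add (h2 0) (h2 1)
    _ = _ := h3

end LS

open LS

variable {μ : (I × S → ZMod 2) → (I → ZMod 2) → ℝ}

/-- **Lemma S.** -/
theorem lemS (hμ : IsPr μ) (blk : S → K)
    (f : (I × S → ZMod 2) → (S → ZMod 2) → (I → ZMod 2))
    (p : (I × S → ZMod 2) → (S → ZMod 2) → ZMod 2) :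
    (av fun x : S → ZMod 2 => av fun ε : I → ZMod 2 => av fun δ : I × K → ZMod 2 =>
      av fun z : I × S → ZMod 2 => μ z (f (z + ten ε x + lft blk δ) x +
        (fun i => ε i * p (z + ten ε x + lft blk δ) x) + par δ)) ≤
      1 / qd I + Real.sqrt ((1 + ∑ h ∈ univ.filter (IsOdd blk), ∑ τ, Mm μ h τ ^ 2) / 2) := by
  have hq := qd_pos (I := I)
  have h1 : (av fun x : S → ZMod 2 => av fun ε : I → ZMod 2 => av fun δ : I × K → ZMod 2 =>
      av fun z : I × S → ZMod 2 => μ z (f (z + ten ε x + lft blk δ) x +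
        (fun i => ε i * p (z + ten ε x + lft blk δ) x) + par δ)) = av (Tc μ blk f p) := by
    unfold Tc
    simp_rw [mu_eq]
    symm
    rw [av_comm]
    congr 1
    funext x
    rw [av_comm]
    congr 1
    funext ε
    rw [av_comm]
    congr 1
    funext δ
    exact av_comm _
  rw [h1]
  set B' : (I → ZMod 2) → ℝ := fun c => if c = 0 then 0 else Bc μ blk c with hB'
  have hB'0 : ∀ c, 0 ≤ B' c := by
    intro c
    rw [hB']
    show 0 ≤ if c = 0 then (0 : ℝ) else Bc μ blk c
    split_ifs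
    · exact le_rfl
    · exact Bc_nonneg blk c
  have h2 : ∀ c, Tc μ blk f p c ≤ (if c = 0 then 1 else 0) + Real.sqrt ((1 + B' c) / 2) := by
    intro c
    by_cases hc : c = 0
    · rw [if_pos hc]
      have h3 : Tc μ blk f p c = 1 := by
        rw [hc]
        unfold Tc
        simp_rw [F_zero hμ, dt_zero_left, sg_zero, mul_one]
        simp_rw [av_const]
      rw [h3]
      have := Real.sqrt_nonneg ((1 + B' c) / 2)
      linarith
    · rw [if_neg hc, zero_add]
      have : B' c = Bc μ blk c := if_neg hc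
      rw [this]
      exact abs_Tc_le hμ blk f p hc
  refine (av_mono h2).trans ?_
  rw [av_add]
  refine add_le_add (le_of_eq ?_) ?_
  · unfold av
    rw [sum_ite_eq' univ (0 : I → ZMod 2)]
    rw [if_pos (mem_univ _)]
    rfl
  · refine (av_sqrt_le fun c => ?_).trans (Real.sqrt_le_sqrt (le_of_eq ?_))
    · have := hB'0 c
      positivity
    · have h3 : ∀ c, (1 + B' c) / 2 = (1 / 2) * (1 + B' c) := fun c => by ring
      simp_rw [h3]
      rw [av_mul_left, av_add, av_const]
      have h4 : av B' = ∑ h ∈ univ.filter (IsOdd blk), ∑ τ, Mm μ h τ ^ 2 := by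
        simp_rw [F2 hμ]
        rw [← sum_div]
        show (∑ c, B' c) / qd I = _
        congr 1
        rw [sum_comm]
        refine sum_congr rfl fun c _ => ?_
        rw [hB']
        show (if c = 0 then (0 : ℝ) else Bc μ blk c) = _
        by_cases hc : c = 0
        · simp [hc]
        · simp [hc, Bc]
      show 1 / 2 * (1 + av B') = _
      rw [h4]
      ring

end Pool.Agent.SE.Four
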