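import Pool.Agent.Lib.SE.Label

/-!
# Row OUTER: outer soundness
-/

set_option autoImplicit false

namespace Pool.Agent.MP_ec946a.SE

open Finset Pool.Agent.MP_ec946a.LR

namespace OUTERx

open LABELx

/-- the mean number of replaced blocks -/
lemma avg_zero_card {k n : ℕ} [NeZero n] :
    (avg fun b : Fin k → Fin n => ((univ.filter fun j => (b j : ℕ) = 0).card : ℝ)) = k / n := by
  classical
  have h1 : ∀ b : Fin k → Fin n, ((univ.filter fun j => (b j : ℕ) = 0).card : ℝ) =
      ∑ j : Fin k, ind ((b j : ℕ) = 0) := by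
    intro b
    rw [card_filter]
    push_cast
    refine sum_congr rfl fun j _ => ?_
    by_cases h : (b j : ℕ) = 0
    · rw [if_pos h, ind_true h]
    · rw [if_neg h, ind_false h]
  simp only [h1]
  rw [avg_finset_sum]
  have h2 : ∀ j : Fin k, (avg fun b : Fin k → Fin n => ind ((b j : ℕ) = 0)) = 1 / n := by
    intro j
    rw [avg_update j]
    simp only [Function.update_self]
    rw [avg_const]
    unfold avg
    rw [Fintype.card_fin, Finset.sum_eq_single (0 : Fin n), ind_true (by simp)]
    · intro x _ hx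
      refine ind_false fun h => hx (Fin.ext ?_)
      rw [h]
      simp
    · intro h
      exact absurd (mem_univ _) h
  simp only [h2, sum_const, card_univ, Fintype.card_fin, nsmul_eq_mul]
  ring

end OUTERx

open LABELx OUTERx

theorem outer (h1 : RPROB) (h2 : VAR) (h3 : LABEL) (h4 : KAP) (h5 : FIB) : OUTER := by
  intro A B _ _ _ _ _ I d k n N l _ _ s t t' ht' htt hLc hMc
  classical
  have hk : (0 : ℝ) < k := by exact_mod_cast Nat.pos_of_ne_zero (NeZero.ne k)
  have hn : (0 : ℝ) < n := by exact_mod_cast Nat.pos_of_ne_zero (NeZero.ne n)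
  have hdt : 0 < t - t' := by linarith
  -- the lists
  set Lu : (Fin k → I.X) → Finset ((Fin k × A → ZMod 2) × (Fin d → ZMod 2)) :=
    fun u => LL (zU I d k n u) (sU I d k n s u) t with hLu
  set f : (Fin k → I.E) → ℝ := fun e =>
    1 / (t - t') * (n / k * (avg fun b : Fin k → Fin n => ∑ q ∈ Lu fun i => I.src (e i),
      ind ((rst I e b q.1, q.2) ∈ MM I d k s t' (side I e b)) *
        (((JJ l q.1).filter fun j => (b j : ℕ) = 0).card : ℝ)) + N * √(n / k)) + N / 2 ^ l with hf
  have hfib : (avg fun e : Fin k → I.E => kap (Lu fun i => I.src (e i))) ≤ avg f := by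
    refine h5 A B I k f (fun u => kap (Lu u)) fun u hu => ?_
    have hcard := hLc u hu
    have hcard' : ((Lu u).card : ℝ) ≤ N := by exact_mod_cast hcard
    -- one member
    have h6 : ∀ q ∈ Lu u, ((JJ l q.1).card / k : ℝ) ≤ 1 / (t - t') * (n / k *
        (avg fun w : EU I u × (Fin k → Fin n) =>
          ind ((rst I w.1.1 w.2 q.1, q.2) ∈ MM I d k s t' (side I w.1.1 w.2)) *
            (((JJ l q.1).filter fun j => (w.2 j : ℕ) = 0).card : ℝ)) + √(n / k)) := by
      intro q hq
      have h7 := h1 A B I d k n s t t' u hu ht' q hq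
      have h8 := h2 (EU I u) k n (fun w : EU I u × (Fin k → Fin n) =>
        (rst I w.1.1 w.2 q.1, q.2) ∈ MM I d k s t' (side I w.1.1 w.2)) (JJ l q.1)
      set a : ℝ := avg fun w : EU I u × (Fin k → Fin n) =>
          ind ((rst I w.1.1 w.2 q.1, q.2) ∈ MM I d k s t' (side I w.1.1 w.2)) *
            (((JJ l q.1).filter fun j => (w.2 j : ℕ) = 0).card : ℝ) with ha
      set J : ℝ := ((JJ l q.1).card : ℝ) with hJ
      have hJ0 : 0 ≤ J := Nat.cast_nonneg _
      have h9 : (t - t') * (J / n) ≤ a + √(k / n) :=
        le_trans (mul_le_mul_of_nonneg_right h7 (by positivity)) h8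
      have h10 : √((n : ℝ) / k) = n / k * √(k / n) := by
        have e1 : √((n : ℝ) / k) * √(k / n) = 1 := by
          rw [← Real.sqrt_mul (by positivity)]
          have : (n : ℝ) / k * (k / n) = 1 := by field_simp
          rw [this, Real.sqrt_one]
        have e2 : √((k : ℝ) / n) * √(k / n) = k / n := Real.mul_self_sqrt (by positivity)
        have e3 : 0 < √((k : ℝ) / n) := Real.sqrt_pos.2 (by positivity)
        have e4 : √((n : ℝ) / k) = 1 / √(k / n) := by
          rw [eq_div_iff e3.ne']; exact e1
        rw [e4, div_eq_iff e3.ne', mul_assoc, e2]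
        field_simp
      rw [h10, ← mul_add]
      have e5 : J / k = 1 / (t - t') * (n / k * ((t - t') * (J / n))) := by
        field_simp
      rw [e5]
      refine mul_le_mul_of_nonneg_left (mul_le_mul_of_nonneg_left h9 (by positivity)) (by positivity)
    -- the sum
    have h11 := h4 A d k l (Lu u)
    have h12 : (∑ q ∈ Lu u, ((JJ l q.1).card / k : ℝ)) ≤ 1 / (t - t') * (n / k *
        (avg fun w : EU I u × (Fin k → Fin n) => ∑ q ∈ Lu u,
          ind ((rst I w.1.1 w.2 q.1, q.2) ∈ MM I d k s t' (side I w.1.1 w.2)) *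
            (((JJ l q.1).filter fun j => (w.2 j : ℕ) = 0).card : ℝ)) + N * √(n / k)) := by
      refine (sum_le_sum h6).trans ?_
      rw [← mul_sum, sum_add_distrib, ← mul_sum, ← avg_finset_sum, sum_const, nsmul_eq_mul]
      refine mul_le_mul_of_nonneg_left (add_le_add le_rfl ?_) (by positivity)
      exact mul_le_mul_of_nonneg_right hcard' (Real.sqrt_nonneg _)
    have h13 : (avg fun e : EU I u => f e.1) = 1 / (t - t') * (n / k *
        (avg fun w : EU I u × (Fin k → Fin n) => ∑ q ∈ Lu u,
          ind ((rst I w.1.1 w.2 q.1, q.2) ∈ MM I d k s t' (side I w.1.1 w.2)) *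
            (((JJ l q.1).filter fun j => (w.2 j : ℕ) = 0).card : ℝ)) + N * √(n / k)) +
        N / 2 ^ l := by
      have e6 : ∀ e : EU I u, f e.1 = 1 / (t - t') * (n / k *
          (avg fun b : Fin k → Fin n => ∑ q ∈ Lu u,
          ind ((rst I e.1 b q.1, q.2) ∈ MM I d k s t' (side I e.1 b)) *
            (((JJ l q.1).filter fun j => (b j : ℕ) = 0).card : ℝ)) + N * √(n / k)) +
        N / 2 ^ l := by
        intro e
        have : (fun i => I.src (e.1 i)) = u := funext e.2
        simp only [hf, this]
      simp only [e6]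
      rw [avg_add, avg_mul_left, avg_add, avg_mul_left, avg_const, avg_const, avg_prod]
    rw [h13]
    refine h11.trans (add_le_add h12 ?_)
    exact div_le_div_of_nonneg_right hcard' (by positivity)
  refine hfib.trans ?_
  -- the average of `f`
  have h14 : avg f = 1 / (t - t') * (n / k * (avg fun b : Fin k → Fin n =>
      avg fun e : Fin k → I.E => ∑ q ∈ Lu fun i => I.src (e i),
      ind ((rst I e b q.1, q.2) ∈ MM I d k s t' (side I e b)) *
        (((JJ l q.1).filter fun j => (b j : ℕ) = 0).card : ℝ)) + N * √(n / k)) + N / 2 ^ l := by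
    simp only [hf]
    rw [avg_add, avg_mul_left, avg_add, avg_mul_left, avg_const, avg_const, avg_comm]
  rw [h14]
  -- the labelings
  set L' : (Fin k → I.X) → Finset ((Fin k × A → ZMod 2) × (Fin d → ZMod 2)) :=
    fun u => if Nonempty (EU I u) then Lu u else ∅ with hL'
  have hL'c : ∀ u, (L' u).card ≤ N := by
    intro u
    simp only [hL']
    split_ifs with hu
    · exact hLc u hu
    · simp
  have hL'o : ∀ u, ∀ q ∈ L' u, IsOdd q.1 := by
    intro u q hq
    simp only [hL'] at hq
    split_ifs at hq with hu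
    · exact (mem_LL.1 hq).1
    · exact absurd hq (notMem_empty q)
  have hL'e : ∀ e : Fin k → I.E, L' (fun i => I.src (e i)) = Lu fun i => I.src (e i) := by
    intro e
    simp only [hL']
    rw [if_pos ⟨⟨e, fun _ => rfl⟩⟩]
  set V : ℝ := (N : ℝ) ^ 2 * (l : ℝ) ^ 2 * I.value with hV
  have h15 : ∀ b : Fin k → Fin n, (avg fun e : Fin k → I.E => ∑ q ∈ Lu fun i => I.src (e i),
      ind ((rst I e b q.1, q.2) ∈ MM I d k s t' (side I e b)) *
        (((JJ l q.1).filter fun j => (b j : ℕ) = 0).card : ℝ)) ≤
      ((univ.filter fun j => (b j : ℕ) = 0).card : ℝ) * V := by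
    intro b
    have e7 : ∀ e : Fin k → I.E, (∑ q ∈ Lu fun i => I.src (e i),
        ind ((rst I e b q.1, q.2) ∈ MM I d k s t' (side I e b)) *
        (((JJ l q.1).filter fun j => (b j : ℕ) = 0).card : ℝ)) =
        ∑ j ∈ univ.filter fun j => (b j : ℕ) = 0, ∑ q ∈ L' fun i => I.src (e i),
          ind ((sj q.1 j).card ≤ l ∧ (rst I e b q.1, q.2) ∈ MM I d k s t' (side I e b)) := by
      intro e
      rw [sum_comm, hL'e]
      refine sum_congr rfl fun q _ => ?_
      by_cases hR : (rst I e b q.1, q.2) ∈ MM I d k s t' (side I e b)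
      · rw [ind_true hR, one_mul]
        have e8 : ∀ j : Fin k, ind ((sj q.1 j).card ≤ l ∧
            (rst I e b q.1, q.2) ∈ MM I d k s t' (side I e b)) =
            if (sj q.1 j).card ≤ l then 1 else 0 := by
          intro j
          by_cases hj : (sj q.1 j).card ≤ l
          · rw [ind_true ⟨hj, hR⟩, if_pos hj]
          · rw [ind_false (fun h => hj h.1), if_neg hj]
        simp only [e8]
        rw [sum_boole]
        unfold JJ
        rw [filter_filter, filter_filter]
        congr 2
        ext j
        simp only [mem_filter, mem_univ, true_and]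
        exact and_comm
      · rw [ind_false hR, zero_mul]
        symm
        exact sum_eq_zero fun j _ => ind_false fun h => hR h.2
    simp only [e7]
    rw [avg_finset_sum]
    calc ∑ j ∈ univ.filter fun j => (b j : ℕ) = 0, (avg fun e : Fin k → I.E =>
          ∑ q ∈ L' fun i => I.src (e i),
          ind ((sj q.1 j).card ≤ l ∧ (rst I e b q.1, q.2) ∈ MM I d k s t' (side I e b)))
        ≤ ∑ _j ∈ univ.filter fun j => (b j : ℕ) = 0, V :=
          sum_le_sum fun j hj => h3 A B I d k n N l L' (MM I d k s t') hL'c hMc hL'o b j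
            (mem_filter.1 hj).2
      _ = _ := by rw [sum_const, nsmul_eq_mul]
  have h16 : (avg fun b : Fin k → Fin n =>
      avg fun e : Fin k → I.E => ∑ q ∈ Lu fun i => I.src (e i),
      ind ((rst I e b q.1, q.2) ∈ MM I d k s t' (side I e b)) *
        (((JJ l q.1).filter fun j => (b j : ℕ) = 0).card : ℝ)) ≤ k / n * V := by
    refine (avg_mono h15).trans ?_
    rw [avg_mul_right, avg_zero_card]
  have h17 : n / k * (avg fun b : Fin k → Fin n =>
      avg fun e : Fin k → I.E => ∑ q ∈ Lu fun i => I.src (e i),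
      ind ((rst I e b q.1, q.2) ∈ MM I d k s t' (side I e b)) *
        (((JJ l q.1).filter fun j => (b j : ℕ) = 0).card : ℝ)) ≤ V := by
    refine (mul_le_mul_of_nonneg_left h16 (by positivity)).trans (le_of_eq ?_)
    field_simp
  refine add_le_add (mul_le_mul_of_nonneg_left (add_le_add h17 le_rfl) (by positivity)) le_rfl

end Pool.Agent.MP_ec946a.SE
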