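import Pool.Agent.Lib.SE.Props

/-!
# Row PAIR: two affine maps agree with probability at most `2 ^ (-d)`
-/

set_option autoImplicit false

namespace Pool.Agent.MP_ec946a.SE

open Finset Pool.Agent.MP_ec946a.LR

namespace H30

variable {S : Type} [Fintype S] {d : ℕ}

lemma dz_add_right (ξ z w : Fin d → S → ZMod 2) : dz ξ (z + w) = dz ξ z + dz ξ w := by
  unfold dz
  rw [← sum_add_distrib]
  exact sum_congr rfl fun i _ => dt_add_right (ξ i) (z i) (w i)

lemma dz_add_left (ξ η z : Fin d → S → ZMod 2) : dz (ξ + η) z = dz ξ z + dz η z := by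
  unfold dz
  rw [← sum_add_distrib]
  exact sum_congr rfl fun i _ => dt_add_left (ξ i) (η i) (z i)

lemma exists_dz_eq_one [DecidableEq S] {ξ : Fin d → S → ZMod 2} (hξ : ξ ≠ 0) :
    ∃ z, dz ξ z = 1 := by
  obtain ⟨i, hi⟩ := Function.ne_iff.1 hξ
  obtain ⟨x, hx⟩ := exists_dt_eq_one hi
  refine ⟨Pi.single i x, ?_⟩
  unfold dz
  rw [Finset.sum_eq_single i]
  · rw [Pi.single_eq_same]; exact hx
  · intro j _ hj
    rw [Pi.single_eq_of_ne hj, dt_zero_right]
  · intro h
    exact absurd (mem_univ i) h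

lemma avg_sg_dz [DecidableEq S] (ξ : Fin d → S → ZMod 2) :
    (avg fun z => sg (dz ξ z)) = if ξ = 0 then 1 else 0 := by
  split_ifs with h0
  · subst h0
    have h1 : ∀ z : Fin d → S → ZMod 2, dz 0 z = 0 := by
      intro z
      unfold dz
      exact sum_eq_zero fun i _ => dt_zero_left (z i)
    simp only [h1, sg_zero]
    exact avg_const 1
  · obtain ⟨y, hy⟩ := exists_dz_eq_one h0
    have h1 : (avg fun x => sg (dz ξ (x + y))) = avg fun x => sg (dz ξ x) :=
      avg_equiv (Equiv.addRight y) fun x => sg (dz ξ x)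
    have h2 : (avg fun x => sg (dz ξ (x + y))) = avg fun x => sg (dz ξ x) * (-1) := by
      congr 1
      funext x
      rw [dz_add_right, sg_add, hy, sg_one]
    rw [avg_mul_right] at h2
    linarith

omit [Fintype S] in
lemma v_eq {x y : S → ZMod 2} : x + y = 0 ↔ x = y := by
  constructor
  · intro h
    exact funext fun s => z2_eq.1 (congrFun h s)
  · rintro rfl
    exact v2_self x

lemma ind_eq_avg [DecidableEq S] (v w : S → ZMod 2) :
    ind (v = w) = avg fun c => sg (dt c (v + w)) := by
  have h1 := avg_sg_dt (v + w)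
  simp only [dt_comm (v + w)] at h1
  rw [h1]
  split_ifs with h0
  · exact ind_true (v_eq.1 h0)
  · exact ind_false fun h => h0 (v_eq.2 h)

omit [Fintype S] in
lemma tn_eq_zero {c : Fin d → ZMod 2} {h : S → ZMod 2} (hh : h ≠ 0) : tn c h = 0 ↔ c = 0 := by
  constructor
  · intro h0
    obtain ⟨s, hs⟩ := Function.ne_iff.1 hh
    funext i
    have h1 := congrFun (congrFun h0 i) s
    have h2 : h s = 1 := (z2_cases (h s)).resolve_left hs
    unfold tn at h1
    rw [h2, mul_one] at h1
    exact h1
  · rintro rfl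
    funext i s
    exact zero_mul _

lemma avg_ite_zero [DecidableEq S] (f : (S → ZMod 2) → ℝ) :
    (avg fun c : S → ZMod 2 => if c = 0 then f c else 0) = f 0 / 2 ^ Fintype.card S := by
  unfold avg
  rw [Finset.sum_ite_eq' univ 0 f, if_pos (mem_univ _), Fintype.card_fun, ZMod.card]
  push_cast
  rfl

end H30

open H30

theorem pair : PAIR := by
  intro S _ _ d q q' hq
  by_cases h0 : q.1 = q'.1
  · have h2 : q.2 ≠ q'.2 := fun h => hq (Prod.ext h0 h)
    have h1 : pr (fun z : Fin d → S → ZMod 2 => ev q.1 z + q.2 = ev q'.1 z + q'.2) = 0 := by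
      unfold pr
      rw [← avg_zero (α := Fin d → S → ZMod 2)]
      congr 1
      funext z
      refine ind_false fun h => h2 ?_
      rw [h0] at h
      exact add_left_cancel h
    rw [h1]
    positivity
  · have hh : q.1 + q'.1 ≠ 0 := fun h => h0 (v_eq.1 h)
    refine le_of_eq ?_
    have h1 : ∀ z : Fin d → S → ZMod 2, ind (ev q.1 z + q.2 = ev q'.1 z + q'.2) =
        avg fun c : Fin d → ZMod 2 => sg (dt c (q.2 + q'.2)) * sg (dz (tn c (q.1 + q'.1)) z) := by
      intro z
      rw [ind_eq_avg]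
      congr 1
      funext c
      have h2 : ev q.1 z + q.2 + (ev q'.1 z + q'.2) = (q.2 + q'.2) + ev (q.1 + q'.1) z := by
        rw [ev_add_left]; abel
      rw [h2, dt_add_right, sg_add, dz_tn]
    unfold pr
    simp only [h1]
    rw [avg_comm]
    simp only [avg_mul_left, avg_sg_dz, tn_eq_zero hh]
    have h3 : (fun c : Fin d → ZMod 2 => sg (dt c (q.2 + q'.2)) * (if c = 0 then (1 : ℝ) else 0)) =
        fun c => if c = 0 then sg (dt c (q.2 + q'.2)) else 0 := by
      funext c
      split_ifs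
      · rw [mul_one]
      · rw [mul_zero]
    rw [h3, avg_ite_zero, dt_zero_left, sg_zero, Fintype.card_fin]

end Pool.Agent.MP_ec946a.SE
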