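import Mathlib
import Pool.Agent.Lib.SE.Props

/-!
# The inequalities (E) and (A)
-/

set_option autoImplicit false
set_option linter.unusedSectionVars false

namespace Pool.Agent.MP_ec946a.SE

open Finset

/-- (E) -/
theorem rowE : ROWE := by
  intro A _ _ d k _ T L
  have h1 := pr_not (α := (Fin d → Fin k × A → ZMod 2) × Fin k × (A → ZMod 2))
    fun w => T.f w.1 (loc w.2.1 w.2.2) = T.f' w.2.1 w.2.2 w.1 ∧
      T.p w.1 (loc w.2.1 w.2.2) = T.p' w.2.1 w.2.2 w.1
  unfold PP PT pe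
  rw [← h1]
  refine le_trans (pr_mono fun w hw => ?_) (pr_or_le _ _)
  by_cases he : T.f w.1 (loc w.2.1 w.2.2) = T.f' w.2.1 w.2.2 w.1 ∧
      T.p w.1 (loc w.2.1 w.2.2) = T.p' w.2.1 w.2.2 w.1
  · right
    rwa [he.1, he.2] at hw
  · exact Or.inl he

namespace ROWA

/-- A point has probability `2^{-d}`. -/
lemma pr_point {d : ℕ} (c : Fin d → ZMod 2) :
    pr (fun ε : Fin d → ZMod 2 => ε = c) = 1 / 2 ^ d := by
  have h1 : ∀ (p : (Fin d → ZMod 2) → Prop) [DecidablePred p], (∀ x, p x ↔ x = c) →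
      (univ.filter p).card = 1 := fun p _ hp =>
    Finset.card_eq_one.2 ⟨c, by ext x; simp [hp]⟩
  rw [pr_eq_card, @h1 (fun ε => ε = c) (fun _ => Classical.propDecidable _) fun x => Iff.rfl,
    Fintype.card_fun, ZMod.card, Fintype.card_fin]
  push_cast
  rfl

/-- A nontrivial condition on two vectors has probability `2^{-d}`. -/
lemma pr_pair {d : ℕ} (a b : ZMod 2) (c : Fin d → ZMod 2) :
    pr (fun w : (Fin d → ZMod 2) × (Fin d → ZMod 2) =>
      (∀ i, w.1 i * a + w.2 i * b = c i) ∧ ¬ (a = 0 ∧ b = 0)) ≤ 1 / 2 ^ d := by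
  unfold pr
  rw [avg_prod]
  rcases z2_cases a with ha | ha
  · refine avg_le_const (by positivity) fun x => ?_
    refine le_trans (avg_mono fun y => ind_mono (q := y = c) ?_) (pr_point c).le
    rintro ⟨h1, h2⟩
    have hb : b = 1 := (z2_cases b).resolve_left fun h => h2 ⟨ha, h⟩
    funext i
    have := h1 i
    simpa [ha, hb] using this
  · rw [avg_comm]
    refine avg_le_const (by positivity) fun y => ?_
    refine le_trans (avg_mono fun x => ind_mono (q := x = fun i => c i + y i * b) ?_)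
      (pr_point _).le
    rintro ⟨h1, -⟩
    funext i
    have h3 := h1 i
    simp only [ha, mul_one] at h3
    rw [← h3, add_assoc, z2_self, add_zero]

section

variable {A : Type} [Fintype A] [DecidableEq A] {d k : ℕ}

/-- The pairing with a function living on one block. -/
lemma dt_loc (h : Fin k × A → ZMod 2) (j : Fin k) (β : A → ZMod 2) :
    dt h (loc j β) = dt (fun a => h (j, a)) β := by
  unfold dt loc
  rw [Fintype.sum_prod_type, sum_eq_single j]
  · exact sum_congr rfl fun a _ => by simp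
  · intro j' _ hj
    exact sum_eq_zero fun a _ => by simp [hj]
  · intro hj
    exact absurd (mem_univ j) hj

/-- The bit `h_j(α β) + h_j(α) h_j(β)`. -/
def bit (h : Fin k × A → ZMod 2) (j : Fin k) (α β : A → ZMod 2) : ZMod 2 :=
  dt h (loc j fun a => α a * β a) + dt h (loc j α) * dt h (loc j β)

lemma bit_eq (h : Fin k × A → ZMod 2) (j : Fin k) (α β : A → ZMod 2) :
    bit h j α β = dt (fun a => h (j, a) * (α a + dt h (loc j α))) β := by
  unfold bit
  rw [dt_loc h j, dt_loc h j β]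
  generalize dt h (loc j α) = c
  unfold dt
  rw [mul_sum, ← sum_add_distrib]
  exact sum_congr rfl fun a _ => by ring

/-- If `α` is not constant on the support then the bit is uniform. -/
lemma pr_bit (h : Fin k × A → ZMod 2) (j : Fin k) (α : A → ZMod 2)
    (hc : ¬ ∃ c, ∀ a, h (j, a) = 1 → α a = c) :
    pr (fun β : A → ZMod 2 => bit h j α β = 1) = 1 / 2 := by
  have hv : (fun a => h (j, a) * (α a + dt h (loc j α))) ≠ 0 := by
    intro h0
    apply hc
    refine ⟨dt h (loc j α), fun a ha => ?_⟩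
    have h1 := congrFun h0 a
    simp only [ha, one_mul, Pi.zero_apply] at h1
    exact z2_eq.1 h1
  have h1 := avg_sg_dt (fun a => h (j, a) * (α a + dt h (loc j α)))
  rw [if_neg hv] at h1
  unfold pr
  have h2 : (avg fun β : A → ZMod 2 => ind (bit h j α β = 1)) =
      avg fun β : A → ZMod 2 => 1 / 2 -
        1 / 2 * sg (dt (fun a => h (j, a) * (α a + dt h (loc j α))) β) := by
    congr 1
    funext β
    rw [bit_eq]
    rcases z2_cases (dt (fun a => h (j, a) * (α a + dt h (loc j α))) β) with h3 | h3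
    · rw [h3, sg_zero, ind_false (by decide)]
      norm_num
    · rw [h3, sg_one, ind_true rfl]
      norm_num
  rw [h2, avg_sub, avg_mul_left, h1, avg_const]
  norm_num

/-- `T` follows `q`. -/
def Fol (T : Str A d k) (q : (Fin k × A → ZMod 2) × (Fin d → ZMod 2)) (j : Fin k)
    (α : A → ZMod 2) (t : Fin d → Fin k × A → ZMod 2) : Prop :=
  T.f' j α t = ev q.1 t + q.2 ∧ T.p' j α t = dt q.1 (loc j α)

open Classical in
/-- A chosen member of the list which `T` follows. -/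
noncomputable def sel (T : Str A d k) (L : Finset ((Fin k × A → ZMod 2) × (Fin d → ZMod 2)))
    (j : Fin k) (α : A → ZMod 2) (t : Fin d → Fin k × A → ZMod 2) :
    (Fin k × A → ZMod 2) × (Fin d → ZMod 2) :=
  if h : ∃ q ∈ L, Fol T q j α t then h.choose else 0

lemma sel_spec {T : Str A d k} {L : Finset ((Fin k × A → ZMod 2) × (Fin d → ZMod 2))}
    {j : Fin k} {α : A → ZMod 2} {t : Fin d → Fin k × A → ZMod 2}
    (h : ∃ q ∈ L, Fol T q j α t) : sel T L j α t ∈ L ∧ Fol T (sel T L j α t) j α t := by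
  unfold sel
  rw [dif_pos h]
  exact h.choose_spec

/-- `T` follows a member of the list and the bit of the chosen one is `1`. -/
def Hit (T : Str A d k) (L : Finset ((Fin k × A → ZMod 2) × (Fin d → ZMod 2)))
    (j : Fin k) (α β : A → ZMod 2) (t : Fin d → Fin k × A → ZMod 2) : Prop :=
  (∃ q ∈ L, Fol T q j α t) ∧ bit (sel T L j α t).1 j α β = 1

lemma half (T : Str A d k) (L : Finset ((Fin k × A → ZMod 2) × (Fin d → ZMod 2)))
    (j : Fin k) (α : A → ZMod 2) (t : Fin d → Fin k × A → ZMod 2) :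
    ind (∃ q ∈ L, Fol T q j α t) - ind (∃ q ∈ L, ∃ c, ∀ a, q.1 (j, a) = 1 → α a = c) ≤
      2 * avg fun β => ind (Hit T L j α β t) := by
  have h0 : 0 ≤ avg fun β => ind (Hit T L j α β t) := avg_nonneg fun _ => ind_nonneg _
  by_cases h1 : ∃ q ∈ L, Fol T q j α t
  · by_cases h2 : ∃ q ∈ L, ∃ c, ∀ a, q.1 (j, a) = 1 → α a = c
    · rw [ind_true h1, ind_true h2]
      linarith
    · rw [ind_true h1, ind_false h2]
      have h3 : ¬ ∃ c, ∀ a, (sel T L j α t).1 (j, a) = 1 → α a = c := fun h =>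
        h2 ⟨_, (sel_spec h1).1, h⟩
      have h4 := pr_bit _ j α h3
      have h5 : (avg fun β => ind (Hit T L j α β t)) =
          pr (fun β : A → ZMod 2 => bit (sel T L j α t).1 j α β = 1) := by
        unfold pr
        congr 1
        funext β
        congr 1
        unfold Hit
        rw [eq_iff_iff]
        exact and_iff_right h1
      rw [h5, h4]
      norm_num
  · rw [ind_false h1]
    linarith [ind_nonneg (∃ q ∈ L, ∃ c, ∀ a, q.1 (j, a) = 1 → α a = c)]

lemma shift2_invol (j : Fin k) (α β : A → ZMod 2) (ε ε' : Fin d → ZMod 2) :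
    Function.Involutive (fun g : Fin d → Fin k × A → ZMod 2 => shift2 g j α β ε ε') := by
  intro g
  funext i s
  simp only [shift2]
  generalize ε i * loc j β s = x
  generalize ε' i * loc j (fun a => α a * β a) s = y
  generalize g i s = z
  revert x y z
  decide

/-- The shift does not change averages. -/
lemma avg_shift2 [NeZero k] (φ : (Fin d → Fin k × A → ZMod 2) → Fin k → (A → ZMod 2) →
    (A → ZMod 2) → ℝ) :
    (avg fun w : (Fin d → Fin k × A → ZMod 2) × (Fin k × (A → ZMod 2) × (A → ZMod 2)) ×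
      ((Fin d → ZMod 2) × (Fin d → ZMod 2)) =>
        φ (shift2 w.1 w.2.1.1 w.2.1.2.1 w.2.1.2.2 w.2.2.1 w.2.2.2) w.2.1.1 w.2.1.2.1 w.2.1.2.2) =
    avg fun w : (Fin d → Fin k × A → ZMod 2) × Fin k × (A → ZMod 2) =>
      avg fun β => φ w.1 w.2.1 w.2.2 β := by
  rw [avg_prod, avg_comm, avg_prod]
  have h1 : ∀ (x : Fin k × (A → ZMod 2) × (A → ZMod 2)) (y : (Fin d → ZMod 2) × (Fin d → ZMod 2)),
      (avg fun g : Fin d → Fin k × A → ZMod 2 =>
        φ (shift2 g x.1 x.2.1 x.2.2 y.1 y.2) x.1 x.2.1 x.2.2) =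
      avg fun g : Fin d → Fin k × A → ZMod 2 => φ g x.1 x.2.1 x.2.2 := fun x y =>
    avg_equiv (shift2_invol x.1 x.2.1 x.2.2 y.1 y.2).toPerm
      fun g => φ g x.1 x.2.1 x.2.2
  simp only [h1, avg_const]
  rw [avg_comm, avg_prod]
  congr 1
  funext g
  rw [avg_prod, avg_prod]
  congr 1
  funext j
  rw [avg_prod]

/-- The nontrivial condition. -/
def Bad (T : Str A d k) (q : (Fin k × A → ZMod 2) × (Fin d → ZMod 2))
    (w : (Fin d → Fin k × A → ZMod 2) × (Fin k × (A → ZMod 2) × (A → ZMod 2)) ×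
      ((Fin d → ZMod 2) × (Fin d → ZMod 2))) : Prop :=
  (∀ i, w.2.2.1 i * (T.r w.2.1.1 w.2.1.2.1 w.2.1.2.2 w.1 + dt q.1 (loc w.2.1.1 w.2.1.2.2)) +
      w.2.2.2 i * (dt q.1 (loc w.2.1.1 w.2.1.2.1) * T.r w.2.1.1 w.2.1.2.1 w.2.1.2.2 w.1 +
        dt q.1 (loc w.2.1.1 fun a => w.2.1.2.1 a * w.2.1.2.2 a)) =
      T.F w.2.1.1 w.2.1.2.1 w.2.1.2.2 w.1 i + dt q.1 (w.1 i) + q.2 i) ∧
    ¬ (T.r w.2.1.1 w.2.1.2.1 w.2.1.2.2 w.1 + dt q.1 (loc w.2.1.1 w.2.1.2.2) = 0 ∧
      dt q.1 (loc w.2.1.1 w.2.1.2.1) * T.r w.2.1.1 w.2.1.2.1 w.2.1.2.2 w.1 +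
        dt q.1 (loc w.2.1.1 fun a => w.2.1.2.1 a * w.2.1.2.2 a) = 0)

lemma pr_bad (T : Str A d k) (q : (Fin k × A → ZMod 2) × (Fin d → ZMod 2)) :
    pr (Bad T q) ≤ 1 / 2 ^ d := by
  unfold pr
  rw [avg_prod]
  refine avg_le_const (by positivity) fun g => ?_
  rw [avg_prod]
  refine avg_le_const (by positivity) fun x => ?_
  exact pr_pair (T.r x.1 x.2.1 x.2.2 g + dt q.1 (loc x.1 x.2.2))
    (dt q.1 (loc x.1 x.2.1) * T.r x.1 x.2.1 x.2.2 g +
      dt q.1 (loc x.1 fun a => x.2.1 a * x.2.2 a))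
    fun i => T.F x.1 x.2.1 x.2.2 g i + dt q.1 (g i) + q.2 i

lemma ev_shift2 (h : Fin k × A → ZMod 2) (g : Fin d → Fin k × A → ZMod 2) (j : Fin k)
    (α β : A → ZMod 2) (ε ε' : Fin d → ZMod 2) (i : Fin d) :
    ev h (shift2 g j α β ε ε') i = dt h (g i) + ε i * dt h (loc j β) +
      ε' i * dt h (loc j fun a => α a * β a) := by
  unfold ev
  have h1 : shift2 g j α β ε ε' i = g i + (fun s => ε i * loc j β s) +
      fun s => ε' i * loc j (fun a => α a * β a) s := rfl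
  rw [h1, dt_add_right, dt_add_right, dt_smul_right, dt_smul_right]

end

end ROWA

open ROWA

/-- (A) -/
theorem rowA : ROWA := by
  intro A _ _ d k _ T L
  -- the number of hits
  have h1 : PT T L - kap L ≤ 2 * avg fun w : (Fin d → Fin k × A → ZMod 2) × Fin k × (A → ZMod 2) =>
      avg fun β => ind (Hit T L w.2.1 w.2.2 β w.1) := by
    have h2 : kap L = avg fun w : (Fin d → Fin k × A → ZMod 2) × Fin k × (A → ZMod 2) =>
        ind (∃ q ∈ L, ∃ c, ∀ a, q.1 (w.2.1, a) = 1 → w.2.2 a = c) :=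
      (avg_snd (α := Fin d → Fin k × A → ZMod 2)
        fun w : Fin k × (A → ZMod 2) => ind (∃ q ∈ L, ∃ c, ∀ a, q.1 (w.1, a) = 1 → w.2 a = c)).symm
    rw [h2]
    unfold PT pr
    rw [← avg_sub, ← avg_mul_left]
    exact avg_mono fun w => half T L w.2.1 w.2.2 w.1
  rw [← avg_shift2 fun t j α β => ind (Hit T L j α β t)] at h1
  -- the edges
  have h3 := pr_not (α := (Fin d → Fin k × A → ZMod 2) × (Fin k × (A → ZMod 2) × (A → ZMod 2)) ×
      ((Fin d → ZMod 2) × (Fin d → ZMod 2)))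
    fun w => (fun i => T.F w.2.1.1 w.2.1.2.1 w.2.1.2.2 w.1 i +
        w.2.2.1 i * T.r w.2.1.1 w.2.1.2.1 w.2.1.2.2 w.1 +
        w.2.2.2 i * (T.q w.2.1.1 w.2.1.2.1 w.2.1.2.2 w.1 * T.r w.2.1.1 w.2.1.2.1 w.2.1.2.2 w.1)) =
      T.f' w.2.1.1 w.2.1.2.1 (shift2 w.1 w.2.1.1 w.2.1.2.1 w.2.1.2.2 w.2.2.1 w.2.2.2) ∧
    T.q w.2.1.1 w.2.1.2.1 w.2.1.2.2 w.1 =
      T.p' w.2.1.1 w.2.1.2.1 (shift2 w.1 w.2.1.1 w.2.1.2.1 w.2.1.2.2 w.2.2.1 w.2.2.2)
  have h4 : (avg fun w : (Fin d → Fin k × A → ZMod 2) × (Fin k × (A → ZMod 2) × (A → ZMod 2)) ×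
      ((Fin d → ZMod 2) × (Fin d → ZMod 2)) =>
        ind (Hit T L w.2.1.1 w.2.1.2.1 w.2.1.2.2
          (shift2 w.1 w.2.1.1 w.2.1.2.1 w.2.1.2.2 w.2.2.1 w.2.2.2))) ≤
      (1 - pa T) + L.card / 2 ^ d := by
    have h5 : pr (fun w => ∃ q ∈ L, Bad T q w) ≤ L.card / 2 ^ d := by
      refine (pr_exists_le L fun q w => Bad T q w).trans ?_
      refine (sum_le_sum fun q _ => pr_bad T q).trans ?_
      rw [sum_const, nsmul_eq_mul]
      exact (mul_one_div _ _).le
    unfold pa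
    rw [← h3]
    refine le_trans ?_ (add_le_add_right h5 _)
    refine le_trans (avg_mono fun w => ind_mono ?_) (pr_or_le _ _)
    rintro ⟨hF, hb⟩
    obtain ⟨hs, hf1, hf2⟩ := sel_spec hF
    revert hs hf1 hf2 hb
    generalize sel T L w.2.1.1 w.2.1.2.1
      (shift2 w.1 w.2.1.1 w.2.1.2.1 w.2.1.2.2 w.2.2.1 w.2.2.2) = q
    intro hb hs hf1 hf2
    rw [or_iff_not_imp_left, not_not]
    rintro ⟨he1, he2⟩
    have two : (2 : ZMod 2) = 0 := by decide
    refine ⟨q, hs, ?_, ?_⟩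
    · intro i
      have h6 := congrFun he1 i
      rw [hf1] at h6
      rw [hf2] at he2
      rw [he2] at h6
      simp only [Pi.add_apply, ev_shift2] at h6
      linear_combination h6 + (w.2.2.1 i * dt q.1 (loc w.2.1.1 w.2.1.2.2) +
        w.2.2.2 i * dt q.1 (loc w.2.1.1 fun a => w.2.1.2.1 a * w.2.1.2.2 a) -
        T.F w.2.1.1 w.2.1.2.1 w.2.1.2.2 w.1 i) * two
    · rintro ⟨h7, h8⟩
      unfold bit at hb
      revert h7 h8 hb
      generalize T.r w.2.1.1 w.2.1.2.1 w.2.1.2.2 w.1 = x2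
      generalize dt q.1 (loc w.2.1.1 w.2.1.2.2) = x3
      generalize dt q.1 (loc w.2.1.1 w.2.1.2.1) = x4
      generalize dt q.1 (loc w.2.1.1 fun a => w.2.1.2.1 a * w.2.1.2.2 a) = x5
      revert x2 x3 x4 x5
      decide
  linarith

end Pool.Agent.MP_ec946a.SE
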