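import Mathlib
import Pool.Agent.Lib.SE.Props

/-!
# Row (C)
-/

set_option autoImplicit false

namespace Pool.Agent.MP_ec946a.SE

open Finset Pool.Agent.MP_ec946a.LR

namespace ROWC

variable {A : Type} [Fintype A] [DecidableEq A] {d k : ℕ}

omit [Fintype A] [DecidableEq A] in
lemma shift_eq (z : Fin d → Fin k × A → ZMod 2) (x : Fin k × A → ZMod 2) (ε : Fin d → ZMod 2)
    (δ : Fin d → Fin k → ZMod 2) :
    shift z x ε δ = z + (fun i s => ε i * x s + δ i s.1) := by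
  funext i s
  simp only [shift, Pi.add_apply]
  ring

lemma avg_shift (x : Fin k × A → ZMod 2) (ε : Fin d → ZMod 2)
    (δ : Fin d → Fin k → ZMod 2) (f : (Fin d → Fin k × A → ZMod 2) → ℝ) :
    (avg fun z => f (shift z x ε δ)) = avg f := by
  simp only [shift_eq]
  exact avg_equiv (Equiv.addRight (fun i s => ε i * x s + δ i s.1)) f

omit [DecidableEq A] in
lemma ev_shift {h : Fin k × A → ZMod 2} (hh : IsOdd h) (z : Fin d → Fin k × A → ZMod 2)
    (x : Fin k × A → ZMod 2) (ε : Fin d → ZMod 2) (δ : Fin d → Fin k → ZMod 2) (i : Fin d) :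
    ev h (shift z x ε δ) i = ev h z i + ε i * dt h x + par δ i := by
  have h1 : (∑ s : Fin k × A, h s * δ i s.1) = par δ i := by
    rw [Fintype.sum_prod_type]
    unfold par
    refine sum_congr rfl fun j _ => ?_
    simp only
    rw [← sum_mul, hh j, one_mul]
  unfold ev dt shift
  rw [← h1, mul_sum, ← sum_add_distrib, ← sum_add_distrib]
  exact sum_congr rfl fun s _ => by ring

/-- the algebra in characteristic two -/
lemma alg (f e p π v x t : ZMod 2) (h : f + e * p + π = v + t) :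
    f + (v + e * x + π) + t = e * (p + x) := by
  revert h
  revert f e p π v x t
  decide

lemma cov_prod {Ω Z Y : Type} [Fintype Ω] [Fintype Z] [Fintype Y] {z : Ω → Z} {ξ : ℝ}
    (hz : Cov z ξ) (φ : Z → Y → ℝ) (h : ∀ w y, 0 ≤ φ w y ∧ φ w y ≤ 1) :
    (avg fun w : Ω × Y => φ (z w.1) w.2) ≤ (avg fun y => avg fun w => φ w y) + ξ := by
  have h1 := hz (fun w => avg (φ w)) fun w => ⟨avg_nonneg fun y => (h w y).1,
    avg_le_const zero_le_one fun y => (h w y).2⟩
  have h2 := (abs_le.1 h1).2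
  rw [avg_prod, avg_comm (fun y w => φ w y)]
  linarith

lemma pr_eps {d : ℕ} (F : Fin d → ZMod 2) : pr (fun ε : Fin d → ZMod 2 => ε = F) = 1 / 2 ^ d := by
  unfold pr avg
  rw [sum_eq_single F (fun ε _ h => ind_false h) (fun h => absurd (mem_univ F) h), ind_true rfl,
    Fintype.card_fun, ZMod.card, Fintype.card_fin]
  push_cast
  rfl

end ROWC

open ROWC in
theorem rowC : ROWC := by
  intro A _ _ d k _ Ω _ _ z s T ξ L hz hL
  -- the three events
  set Y : Type := (Fin k × (A → ZMod 2)) × (Fin d → ZMod 2) × (Fin d → Fin k → ZMod 2) with hY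
  let P1 : (Fin d → Fin k × A → ZMod 2) → Y → Prop := fun w y =>
    ∃ q ∈ L, T.f (shift w (loc y.1.1 y.1.2) y.2.1 y.2.2) (loc y.1.1 y.1.2) =
        ev q.1 (shift w (loc y.1.1 y.1.2) y.2.1 y.2.2) + q.2 ∧
      T.p (shift w (loc y.1.1 y.1.2) y.2.1 y.2.2) (loc y.1.1 y.1.2) = dt q.1 (loc y.1.1 y.1.2)
  let P2 : (Fin d → Fin k × A → ZMod 2) → Y → Prop := fun w y =>
    ∃ q ∈ L, y.2.1 = T.f (shift w (loc y.1.1 y.1.2) y.2.1 y.2.2) (loc y.1.1 y.1.2) +
        ev q.1 (shift w (loc y.1.1 y.1.2) y.2.1 y.2.2) + q.2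
  let P0 : Ω × Y → Prop := fun w =>
    lz (T.f (shift (z w.1) (loc w.2.1.1 w.2.1.2) w.2.2.1 w.2.2.2) (loc w.2.1.1 w.2.1.2))
      (T.p (shift (z w.1) (loc w.2.1.1 w.2.1.2) w.2.2.1 w.2.2.2) (loc w.2.1.1 w.2.1.2))
      w.2.2.1 (par w.2.2.2) = s w.1
  have h0 : GG z s L = pr fun w : Ω × Y => ∃ q ∈ L, s w.1 = ev q.1 (z w.1) + q.2 :=
    (avg_fst (α := Ω) (β := Y) fun ω => ind (∃ q ∈ L, s ω = ev q.1 (z ω) + q.2)).symm
  have h1 : 1 - pc z s T = pr fun w : Ω × Y => ¬ P0 w := by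
    rw [pr_not]
    rfl
  have h2 : GG z s L ≤ pr (fun w : Ω × Y => ¬ P0 w) + pr (fun w : Ω × Y => P1 (z w.1) w.2) +
      pr fun w : Ω × Y => P2 (z w.1) w.2 := by
    rw [h0]
    refine le_trans (pr_mono (q := fun w => (¬ P0 w ∨ P1 (z w.1) w.2) ∨ P2 (z w.1) w.2) ?_)
      (le_trans (pr_or_le _ _) (add_le_add_left (pr_or_le _ _) _))
    rintro ⟨ω, ⟨j, α⟩, ε, δ⟩ ⟨q, hq, hs⟩
    simp only at hs
    by_cases hP0 : P0 (ω, ⟨j, α⟩, ε, δ)
    · have h3 : ∀ i, T.f (shift (z ω) (loc j α) ε δ) (loc j α) i +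
          ev q.1 (shift (z ω) (loc j α) ε δ) i + q.2 i =
          ε i * (T.p (shift (z ω) (loc j α) ε δ) (loc j α) + dt q.1 (loc j α)) := by
        intro i
        have h4 : lz (T.f (shift (z ω) (loc j α) ε δ) (loc j α))
          (T.p (shift (z ω) (loc j α) ε δ) (loc j α)) ε (par δ) i = s ω i := congrFun hP0 i
        rw [hs] at h4
        rw [ev_shift (hL q hq)]
        exact alg _ _ _ _ _ _ _ h4
      rcases z2_cases (T.p (shift (z ω) (loc j α) ε δ) (loc j α) + dt q.1 (loc j α)) with h5 | h5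
      · left; right
        refine ⟨q, hq, ?_, z2_eq.1 h5⟩
        funext i
        have h6 := h3 i
        rw [h5, mul_zero, add_assoc] at h6
        exact z2_eq.1 h6
      · right
        refine ⟨q, hq, ?_⟩
        funext i
        have h6 := h3 i
        rw [h5, mul_one] at h6
        exact h6.symm
    · left; left; exact hP0
  have h3 : pr (fun w : Ω × Y => P1 (z w.1) w.2) ≤ PP T L + ξ := by
    refine le_trans (cov_prod hz (fun w y => ind (P1 w y)) fun w y =>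
      ⟨ind_nonneg _, ind_le_one _⟩) (le_of_eq ?_)
    congr 1
    have h4 : ∀ y : Y, (avg fun w => ind (P1 w y)) = avg fun g : Fin d → Fin k × A → ZMod 2 =>
        ind (∃ q ∈ L, T.f g (loc y.1.1 y.1.2) = ev q.1 g + q.2 ∧
          T.p g (loc y.1.1 y.1.2) = dt q.1 (loc y.1.1 y.1.2)) := fun y =>
      avg_shift (loc y.1.1 y.1.2) y.2.1 y.2.2 fun g : Fin d → Fin k × A → ZMod 2 =>
        ind (∃ q ∈ L, T.f g (loc y.1.1 y.1.2) = ev q.1 g + q.2 ∧
          T.p g (loc y.1.1 y.1.2) = dt q.1 (loc y.1.1 y.1.2))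
    simp only [h4]
    rw [avg_fst (α := Fin k × (A → ZMod 2)) (β := (Fin d → ZMod 2) × (Fin d → Fin k → ZMod 2))
      fun v => avg fun g : Fin d → Fin k × A → ZMod 2 =>
        ind (∃ q ∈ L, T.f g (loc v.1 v.2) = ev q.1 g + q.2 ∧
          T.p g (loc v.1 v.2) = dt q.1 (loc v.1 v.2)), avg_comm]
    unfold PP pr
    rw [avg_prod]
  have h4 : pr (fun w : Ω × Y => P2 (z w.1) w.2) ≤ L.card / 2 ^ d + ξ := by
    refine le_trans (cov_prod hz (fun w y => ind (P2 w y)) fun w y =>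
      ⟨ind_nonneg _, ind_le_one _⟩) (add_le_add_left ?_ _)
    have h5 : ∀ y : Y, (avg fun w => ind (P2 w y)) = avg fun g : Fin d → Fin k × A → ZMod 2 =>
        ind (∃ q ∈ L, y.2.1 = T.f g (loc y.1.1 y.1.2) + ev q.1 g + q.2) := fun y =>
      avg_shift (loc y.1.1 y.1.2) y.2.1 y.2.2 fun g : Fin d → Fin k × A → ZMod 2 =>
        ind (∃ q ∈ L, y.2.1 = T.f g (loc y.1.1 y.1.2) + ev q.1 g + q.2)
    simp only [h5]
    rw [avg_prod]
    have hc : (0 : ℝ) ≤ L.card / 2 ^ d := by positivity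
    refine avg_le_const hc fun v => ?_
    rw [avg_fst (α := Fin d → ZMod 2) (β := Fin d → Fin k → ZMod 2)
      fun ε => avg fun g : Fin d → Fin k × A → ZMod 2 =>
        ind (∃ q ∈ L, ε = T.f g (loc v.1 v.2) + ev q.1 g + q.2), avg_comm]
    refine avg_le_const hc fun g => ?_
    refine le_trans (pr_exists_le L fun q (ε : Fin d → ZMod 2) =>
      ε = T.f g (loc v.1 v.2) + ev q.1 g + q.2) (le_of_eq ?_)
    simp only [pr_eps]
    rw [sum_const, nsmul_eq_mul]
    ring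
  rw [h1]
  linarith

end Pool.Agent.MP_ec946a.SE
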