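import Mathlib
import Pool.Agent.Lib.SE.Props

/-!
# Row ROWZ: the edges of type z
-/

set_option autoImplicit false

namespace Pool.Agent.MP_ec946a.SE

open Finset Pool.Agent.MP_ec946a.LR

namespace ROWZ'

variable {A : Type} [Fintype A] [DecidableEq A] {d k : ℕ}

/-- an average of indicators of `l = v` against a law -/
lemma sum_law {L : Type} [Fintype L] (μ : L → ℝ) (v : L) : ∑ l, μ l * ind (l = v) = μ v := by
  classical
  rw [Finset.sum_eq_single v]
  · rw [ind_true rfl, mul_one]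
  · intro l _ hl
    rw [ind_false hl, mul_zero]
  · intro h
    exact absurd (mem_univ v) h

lemma sum_law' {L : Type} [Fintype L] (μ : L → ℝ) (v : L) : ∑ l, μ l * ind (v = l) = μ v := by
  rw [← sum_law μ v]
  refine sum_congr rfl fun l _ => ?_
  congr 2
  exact propext eq_comm

/-- average over a law of a function with values in `[0, 1]` -/
lemma law_mem {Z L : Type} [Fintype L] {μ : Z → L → ℝ} (hμ : IsLaw μ) (φ : Z → L → ℝ)
    (h : ∀ z l, 0 ≤ φ z l ∧ φ z l ≤ 1) (z : Z) :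
    0 ≤ ∑ l, μ z l * φ z l ∧ ∑ l, μ z l * φ z l ≤ 1 := by
  constructor
  · exact sum_nonneg fun l _ => mul_nonneg (hμ.nonneg z l) (h z l).1
  · rw [← hμ.sum z]
    refine sum_le_sum fun l _ => ?_
    calc μ z l * φ z l ≤ μ z l * 1 := mul_le_mul_of_nonneg_left (h z l).2 (hμ.nonneg z l)
      _ = μ z l := mul_one _

/-- the inner average of the edges of type z -/
noncomputable def phz (T : Str A d k) (z : Fin d → Fin k × A → ZMod 2)
    (l : Fin d → ZMod 2) : ℝ :=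
  pr fun w : (Fin k × A → ZMod 2) × (Fin d → ZMod 2) × (Fin d → Fin k → ZMod 2) =>
    lz (T.f (shift z w.1 w.2.1 w.2.2) w.1) (T.p (shift z w.1 w.2.1 w.2.2) w.1) w.2.1
      (par w.2.2) = l

lemma pz_eq {Ω : Type} [Fintype Ω] (z : Ω → Fin d → Fin k × A → ZMod 2)
    (s : Ω → Fin d → ZMod 2) (T : Str A d k) :
    pz z s T = avg fun ω => phz T (z ω) (s ω) := by
  unfold pz pr
  rw [avg_prod]
  rfl

lemma uniform_side {μ : (Fin d → Fin k × A → ZMod 2) → (Fin d → ZMod 2) → ℝ}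
    (T : Str A d k) :
    (avg fun z => ∑ l, μ z l * phz T z l) =
      avg fun w : (Fin d → Fin k × A → ZMod 2) × (Fin k × A → ZMod 2) × (Fin d → ZMod 2) ×
        (Fin d → Fin k → ZMod 2) =>
      μ w.1 (lz (T.f (shift w.1 w.2.1 w.2.2.1 w.2.2.2) w.2.1)
        (T.p (shift w.1 w.2.1 w.2.2.1 w.2.2.2) w.2.1) w.2.2.1 (par w.2.2.2)) := by
  rw [avg_prod]
  refine congrArg avg (funext fun z => ?_)
  have h1 : ∀ l, μ z l * phz T z l =
      avg fun w : (Fin k × A → ZMod 2) × (Fin d → ZMod 2) × (Fin d → Fin k → ZMod 2) =>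
        μ z l * ind (lz (T.f (shift z w.1 w.2.1 w.2.2) w.1)
          (T.p (shift z w.1 w.2.1 w.2.2) w.1) w.2.1 (par w.2.2) = l) := by
    intro l
    unfold phz pr
    rw [avg_mul_left]
  simp only [h1]
  rw [← avg_finset_sum]
  refine congrArg avg (funext fun w => ?_)
  exact sum_law' _ _

end ROWZ'

open ROWZ' in
theorem rowZ (h1 : LAW) (h2 : LEMS) (h3 : HEAVY) (h4 : COUNT) : ROWZ := by
  intro A _ _ d k Ω _ _ z s T ξ t Hn hC ht hHn
  obtain ⟨μ, hμ, hlaw⟩ := h1 Ω (Fin d → Fin k × A → ZMod 2) (Fin d → ZMod 2) z s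
  -- the first step
  have e1 : pz z s T ≤ (avg fun z => ∑ l, μ z l * phz T z l) + ξ := by
    rw [pz_eq, hlaw]
    have h5 := hC (fun z => ∑ l, μ z l * phz T z l)
      (law_mem hμ _ fun z l => ⟨pr_nonneg _, pr_le_one _⟩)
    have h6 := (abs_le.1 h5).2
    linarith
  have e2 : (avg fun z => ∑ l, μ z l * phz T z l) ≤ 1 / 2 ^ d + √((1 + Sig μ) / 2) := by
    rw [uniform_side]
    exact h2 A d k μ hμ (fun g x => T.f g x) (fun g x => T.p g x)
  -- the list
  have hcard : ((HO μ t).card : ℝ) ≤ Hn := by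
    refine le_trans ?_ ((h4 _ d μ hμ t ht).trans hHn)
    have h7 : (HO μ t).card ≤ (Hvy μ t).card := by
      refine card_le_card fun q hq => ?_
      rw [mem_Hvy]
      exact (mem_HO.1 hq).2
    exact_mod_cast h7
  have e3 := h3 A d k μ hμ t Hn ht.le hcard
  have hsub : HO μ t ⊆ LL z s (t - ξ) := by
    intro q hq
    rw [mem_HO] at hq
    rw [mem_LL]
    refine ⟨hq.1, ?_⟩
    have h8 : (pr fun ω => s ω = ev q.1 (z ω) + q.2) = avg fun ω => μ (z ω) (ev q.1 (z ω) + q.2) := by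
      unfold pr
      rw [hlaw (fun z l => ind (l = ev q.1 z + q.2))]
      refine congrArg avg (funext fun ω => ?_)
      exact sum_law _ _
    have h9 := hC (fun z => μ z (ev q.1 z + q.2)) fun z => by
      refine ⟨hμ.nonneg _ _, ?_⟩
      rw [← hμ.sum z]
      exact single_le_sum (f := fun l => μ z l) (fun l _ => hμ.nonneg z l) (mem_univ _)
    have h10 := (abs_le.1 h9).1
    have h11 : ms μ q = avg fun z => μ z (ev q.1 z + q.2) := rfl
    rw [h8]
    linarith [hq.2]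
  have e4 : (avg fun z => ∑ s, μ z s * ind (∃ q ∈ HO μ t, s = ev q.1 z + q.2)) ≤
      GG z s (LL z s (t - ξ)) + ξ := by
    have h12 := hC (fun z => ∑ s, μ z s * ind (∃ q ∈ HO μ t, s = ev q.1 z + q.2))
      (law_mem hμ _ fun z l => ⟨ind_nonneg _, ind_le_one _⟩)
    have h13 := (abs_le.1 h12).1
    have h14 : (avg fun ω => ∑ l, μ (z ω) l * ind (∃ q ∈ HO μ t, l = ev q.1 (z ω) + q.2)) ≤
        GG z s (LL z s (t - ξ)) := by
      rw [← hlaw fun z l => ind (∃ q ∈ HO μ t, l = ev q.1 z + q.2)]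
      unfold GG
      refine avg_mono fun ω => ind_mono ?_
      rintro ⟨q, hq, h15⟩
      exact ⟨q, hsub hq, h15⟩
    linarith
  have e5 : 0 ≤ (avg fun z => ∑ s, μ z s * ind (∃ q ∈ HO μ t, s = ev q.1 z + q.2)) :=
    avg_nonneg fun z => sum_nonneg fun l _ => mul_nonneg (hμ.nonneg z l) (ind_nonneg _)
  have e6 : (0 : ℝ) ≤ Hn ^ 2 / 2 ^ d := by positivity
  have e7 : Sig μ ≤ (GG z s (LL z s (t - ξ)) + ξ + Hn ^ 2 / 2 ^ d) ^ 2 + theta d t Hn := by
    refine e3.trans ?_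
    have h16 : ((avg fun z => ∑ s, μ z s * ind (∃ q ∈ HO μ t, s = ev q.1 z + q.2)) +
        Hn ^ 2 / 2 ^ d) ^ 2 ≤ (GG z s (LL z s (t - ξ)) + ξ + Hn ^ 2 / 2 ^ d) ^ 2 :=
      pow_le_pow_left₀ (by linarith) (by linarith) 2
    linarith
  have e8 : √((1 + Sig μ) / 2) ≤
      √((1 + (GG z s (LL z s (t - ξ)) + ξ + Hn ^ 2 / 2 ^ d) ^ 2 + theta d t Hn) / 2) :=
    Real.sqrt_le_sqrt (by linarith)
  linarith

end Pool.Agent.MP_ec946a.SE
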