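import Pool.Agent.Lib.SE.Props

/-!
# Rows RST and RPROB: the restriction of a character, and the probability that it is in the list
of the right tuple
-/

set_option autoImplicit false

namespace Pool.Agent.MP_ec946a.SE

open Finset Pool.Agent.MP_ec946a.LR

theorem rst_eq : RST := by
  intro A B _ _ _ _ I d k n e b h y
  funext i
  unfold ev dt
  rw [Fintype.sum_prod_type, Fintype.sum_prod_type]
  refine sum_congr rfl fun j _ => ?_
  rw [Fintype.sum_sum_type]
  by_cases hb : (b j : ℕ) = 0
  · have h1 : ∀ a, h (j, a) * pull I e b y i (j, a) = h (j, a) * y i (j, Sum.inr (I.proj (e j) a)) := by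
      intro a
      unfold pull
      rw [if_pos hb]
    have h2 : ∀ a : A, rst I e b h (j, Sum.inl a) * y i (j, Sum.inl a) = 0 := by
      intro a
      unfold rst
      simp only [hb, if_true, zero_mul]
    have h3 : ∀ c : B, rst I e b h (j, Sum.inr c) * y i (j, Sum.inr c) =
        ∑ a, if I.proj (e j) a = c then h (j, a) * y i (j, Sum.inr (I.proj (e j) a)) else 0 := by
      intro c
      unfold rst
      simp only [hb, if_true]
      rw [sum_mul]
      refine sum_congr rfl fun a _ => ?_
      split_ifs with hc
      · rw [hc]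
      · rw [zero_mul]
    rw [sum_congr rfl fun a _ => h1 a, sum_congr rfl fun a _ => h2 a,
      sum_congr rfl fun c _ => h3 c, sum_const_zero, zero_add, sum_comm]
    refine sum_congr rfl fun a _ => ?_
    rw [sum_ite_eq, if_pos (mem_univ _)]
  · have h1 : ∀ a, h (j, a) * pull I e b y i (j, a) = h (j, a) * y i (j, Sum.inl a) := by
      intro a
      unfold pull
      rw [if_neg hb]
    have h2 : ∀ a : A, rst I e b h (j, Sum.inl a) * y i (j, Sum.inl a) =
        h (j, a) * y i (j, Sum.inl a) := by
      intro a
      unfold rst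
      simp only [hb, if_false]
    have h3 : ∀ c : B, rst I e b h (j, Sum.inr c) * y i (j, Sum.inr c) = 0 := by
      intro c
      unfold rst
      simp only [hb, if_false, zero_mul]
    rw [sum_congr rfl fun a _ => h1 a, sum_congr rfl fun a _ => h2 a,
      sum_congr rfl fun c _ => h3 c, sum_const_zero, add_zero]

theorem rprob (h : RST) : RPROB := by
  intro A B _ _ _ _ I d k n _ s t t' u hne ht' q hq
  rw [mem_LL] at hq
  obtain ⟨_, hq⟩ := hq
  rw [sub_le_iff_le_add]
  refine hq.trans ?_
  have key : ∀ (e : EU I u) (b : Fin k → Fin n),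
      (avg fun y : Fin d → Fin k × (A ⊕ B) → ZMod 2 =>
        ind (sU I d k n s u (e, b, y) = ev q.1 (zU I d k n u (e, b, y)) + q.2)) ≤
      ind ((rst I e.1 b q.1, q.2) ∈ MM I d k s t' (side I e.1 b)) + t' := by
    intro e b
    have h1 : (avg fun y : Fin d → Fin k × (A ⊕ B) → ZMod 2 =>
        ind (sU I d k n s u (e, b, y) = ev q.1 (zU I d k n u (e, b, y)) + q.2)) =
        pr fun y : Fin d → Fin k × (A ⊕ B) → ZMod 2 =>
          s (side I e.1 b, mask (side I e.1 b) y) = ev (rst I e.1 b q.1) y + q.2 := by
      unfold pr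
      congr 1
      funext y
      unfold sU zU
      rw [h A B I d k n e.1 b q.1 y]
    rw [h1]
    by_cases hm : (rst I e.1 b q.1, q.2) ∈ MM I d k s t' (side I e.1 b)
    · rw [ind_true hm]
      linarith [pr_le_one fun y : Fin d → Fin k × (A ⊕ B) → ZMod 2 =>
          s (side I e.1 b, mask (side I e.1 b) y) = ev (rst I e.1 b q.1) y + q.2]
    · rw [ind_false hm, zero_add]
      rw [mem_MM, not_le] at hm
      exact hm.le
  unfold pr
  rw [avg_prod, avg_prod (f := fun w : EU I u × (Fin k → Fin n) =>
    ind ((rst I w.1.1 w.2 q.1, q.2) ∈ MM I d k s t' (side I w.1.1 w.2)))]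
  calc (avg fun e : EU I u => avg fun x : (Fin k → Fin n) × (Fin d → Fin k × (A ⊕ B) → ZMod 2) =>
        ind (sU I d k n s u (e, x) = ev q.1 (zU I d k n u (e, x)) + q.2))
      ≤ avg fun e : EU I u => (avg fun b : Fin k → Fin n =>
          ind ((rst I e.1 b q.1, q.2) ∈ MM I d k s t' (side I e.1 b))) + t' := by
        refine avg_mono fun e => ?_
        rw [avg_prod]
        calc _ ≤ avg fun b : Fin k → Fin n =>
              ind ((rst I e.1 b q.1, q.2) ∈ MM I d k s t' (side I e.1 b)) + t' :=
              avg_mono fun b => key e b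
          _ ≤ _ := by
              rw [avg_add]
              have := avg_le_const (α := Fin k → Fin n) (f := fun _ => t') ht' fun _ => le_rfl
              linarith
    _ ≤ _ := by
        rw [avg_add]
        have := avg_le_const (α := EU I u) (f := fun _ => t') ht' fun _ => le_rfl
        linarith

end Pool.Agent.MP_ec946a.SE
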