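import Pool.Agent.Lib.SE.Props
import Pool.Agent.Lib.SE.Four

/-!
# Row SECOND (helper60): the second moment estimate in the proof of Lemma S
-/

set_option autoImplicit false
set_option linter.unusedSectionVars false

namespace Pool.Agent.MP_ec946a.SE

open Finset

namespace Sec

variable {S : Type} [Fintype S] [DecidableEq S] {d : ℕ}


theorem four_dt (ξ g : Fin d → S → ZMod 2) :
    Pool.Agent.SE.Four.dt (fun p : Fin d × S => ξ p.1 p.2) (fun p => g p.1 p.2) = dz ξ g := by
  unfold Pool.Agent.SE.Four.dt dz dt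
  rw [Fintype.sum_prod_type]

/-- Parseval for functions of a tuple of vectors -/
theorem parsevalZ (F : (Fin d → S → ZMod 2) → ℝ) :
    ∑ ξ, (avg fun g => F g * sg (dz ξ g)) ^ 2 = avg fun g => F g ^ 2 := by
  have h := Pool.Agent.SE.Four.parseval (fun z : Fin d × S → ZMod 2 => F (fun i s => z (i, s)))
  have h1 : Pool.Agent.SE.Four.av (fun z : Fin d × S → ZMod 2 => F (fun i s => z (i, s)) ^ 2) =
      avg fun g => F g ^ 2 :=
    avg_equiv (Equiv.curry (Fin d) S (ZMod 2)) (fun g => F g ^ 2)
  rw [h1] at h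
  rw [← h, ← Equiv.sum_comp (Equiv.curry (Fin d) S (ZMod 2)).symm]
  refine sum_congr rfl fun ξ _ => ?_
  congr 1
  refine Eq.trans (avg_equiv (Equiv.curry (Fin d) S (ZMod 2)).symm.symm
    (fun g => F g * sg (dz ξ g))).symm ?_
  show avg _ = avg _
  congr 1
  funext z
  show F _ * sg _ = F _ * sg _
  congr 2
  exact (four_dt ξ (fun i s => z (i, s))).symm

theorem dz_add_right (ξ z w : Fin d → S → ZMod 2) : dz ξ (z + w) = dz ξ z + dz ξ w := by
  unfold dz
  rw [← sum_add_distrib]
  exact sum_congr rfl fun i _ => dt_add_right _ _ _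

theorem dz_tn_right (ξ : Fin d → S → ZMod 2) (ε : Fin d → ZMod 2) (x : S → ZMod 2) :
    dz ξ (tn ε x) = dt ε (ev x ξ) := by
  unfold dz tn ev
  rw [dt.eq_1 ε]
  refine sum_congr rfl fun i _ => ?_
  rw [dt_smul_right, dt_comm]

/-- the coefficients of the averages over `ε` -/
theorem coef (Φ : (Fin d → S → ZMod 2) → ℝ) (ω : (Fin d → ZMod 2) → ℝ) (x : S → ZMod 2)
    (ξ : Fin d → S → ZMod 2) :
    (avg fun g => (avg fun ε => ω ε * Φ (g + tn ε x)) * sg (dz ξ g)) =
      (avg fun y => Φ y * sg (dz ξ y)) * avg fun ε => ω ε * sg (dt ε (ev x ξ)) := by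
  have h : ∀ ε : Fin d → ZMod 2,
      (avg fun g : Fin d → S → ZMod 2 => ω ε * Φ (g + tn ε x) * sg (dz ξ g)) =
        (avg fun y => Φ y * sg (dz ξ y)) * (ω ε * sg (dt ε (ev x ξ))) := by
    intro ε
    have ht : ∀ g : Fin d → S → ZMod 2, g + tn ε x + tn ε x = g := by
      intro g
      funext i s
      show g i s + tn ε x i s + tn ε x i s = g i s
      rw [add_assoc, z2_self, add_zero]
    rw [← avg_mul_right, ← avg_equiv (Equiv.addRight (tn ε x))]
    congr 1
    funext g
    show ω ε * Φ (g + tn ε x + tn ε x) * sg (dz ξ (g + tn ε x)) =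
      Φ g * sg (dz ξ g) * (ω ε * sg (dt ε (ev x ξ)))
    rw [ht, dz_add_right, sg_add, dz_tn_right]
    ring
  calc _ = avg fun g => avg fun ε => ω ε * Φ (g + tn ε x) * sg (dz ξ g) := by
        congr 1
        funext g
        rw [avg_mul_right]
    _ = avg fun ε => avg fun g => ω ε * Φ (g + tn ε x) * sg (dz ξ g) := avg_comm _
    _ = avg fun ε => (avg fun y => Φ y * sg (dz ξ y)) * (ω ε * sg (dt ε (ev x ξ))) := by
        congr 1
        funext ε
        exact h ε
    _ = _ := avg_mul_left _ _

theorem avg_one (v : Fin d → ZMod 2) :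
    (avg fun ε : Fin d → ZMod 2 => (1 : ℝ) * sg (dt ε v)) = ind (v = 0) := by
  have h := avg_sg_dt v
  simp only [one_mul, dt_comm _ v]
  rw [h]
  unfold ind
  split_ifs <;> rfl

theorem avg_c (c v : Fin d → ZMod 2) :
    (avg fun ε : Fin d → ZMod 2 => sg (dt c ε) * sg (dt ε v)) = ind (v = c) := by
  have h := avg_sg_dt (c + v)
  have e : ∀ ε : Fin d → ZMod 2, sg (dt c ε) * sg (dt ε v) = sg (dt (c + v) ε) := by
    intro ε
    rw [dt_add_left, sg_add, dt_comm v ε]
  simp only [e]
  rw [h]
  by_cases hv : v = c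
  · rw [ind_true hv, if_pos]
    rw [hv]; exact v2_self c
  · rw [ind_false hv, if_neg]
    intro h0
    apply hv
    funext i
    exact (z2_eq.1 (congrFun h0 i)).symm

theorem ind_sq (p : Prop) : ind p ^ 2 = ind p := by
  by_cases hp : p
  · rw [ind_true hp]; norm_num
  · rw [ind_false hp]; norm_num

/-- the weight of `ξ` -/
theorem weight {c : Fin d → ZMod 2} (hc : c ≠ 0) (ξ : Fin d → S → ZMod 2) :
    (avg fun x : S → ZMod 2 => ind (ev x ξ = 0) + ind (ev x ξ = c)) ≤
      (1 + ind (∃ h, ξ = tn c h)) / 2 := by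
  by_cases hξ : ∃ h, ξ = tn c h
  · rw [ind_true hξ]
    refine (avg_le_const zero_le_one fun x => ?_).trans (by norm_num)
    by_cases h0 : ev x ξ = 0
    · rw [ind_true h0, ind_false]
      · norm_num
      · rw [h0]; exact fun h => hc h.symm
    · rw [ind_false h0, zero_add]
      exact ind_le_one _
  · rw [ind_false hξ, add_zero]
    have h1 : ∃ x, ev x ξ ≠ 0 ∧ ev x ξ ≠ c := by
      by_contra hx
      push Not at hx
      apply hξ
      have hs : ∀ s i, ev (Pi.single s 1) ξ i = ξ i s := by
        intro s i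
        unfold ev dt
        rw [Finset.sum_eq_single s]
        · rw [Pi.single_eq_same, one_mul]
        · intro j _ hj
          rw [Pi.single_eq_of_ne hj, zero_mul]
        · intro h
          exact absurd (mem_univ s) h
      refine ⟨fun s => if ev (Pi.single s 1) ξ = 0 then 0 else 1, ?_⟩
      funext i s
      show ξ i s = c i * (if ev (Pi.single s 1) ξ = 0 then 0 else 1)
      split_ifs with h0
      · rw [← hs s i, h0, mul_zero]; rfl
      · rw [← hs s i, hx _ h0, mul_one]
    obtain ⟨x₀, h0, h1⟩ := h1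
    have h2 : (avg fun x : S → ZMod 2 => ind (ev (x + x₀) ξ = 0) + ind (ev (x + x₀) ξ = c)) =
        avg fun x => ind (ev x ξ = 0) + ind (ev x ξ = c) :=
      avg_equiv (Equiv.addRight x₀) fun x => ind (ev x ξ = 0) + ind (ev x ξ = c)
    have h3 : (avg fun x : S → ZMod 2 => (ind (ev x ξ = 0) + ind (ev x ξ = c)) +
        (ind (ev (x + x₀) ξ = 0) + ind (ev (x + x₀) ξ = c))) ≤ 1 := by
      refine avg_le_const zero_le_one fun x => ?_
      rw [ev_add_left]
      set v := ev x ξ
      set w := ev x₀ ξ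
      have k1 : v + w = 0 ↔ v = w := by
        constructor
        · intro h; funext i; exact z2_eq.1 (congrFun h i)
        · rintro h; rw [h]; exact v2_self w
      have k2 : v + w = c ↔ v = c + w := by
        constructor
        · intro h; rw [← h, add_assoc, v2_self, add_zero]
        · intro h; rw [h, add_assoc, v2_self, add_zero]
      by_cases a1 : v = 0
      · have a2 : v ≠ c := by rw [a1]; exact fun h => hc h.symm
        have a3 : ¬ v + w = 0 := by rw [k1, a1]; exact fun h => h0 h.symm
        have a4 : ¬ v + w = c := by rw [a1, zero_add]; exact h1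
        rw [ind_true a1, ind_false a2, ind_false a3, ind_false a4]; norm_num
      · by_cases a2 : v = c
        · have a3 : ¬ v + w = 0 := by rw [k1, a2]; exact fun h => h1 h.symm
          have a4 : ¬ v + w = c := by
            rw [k2, a2]
            intro h
            apply h0
            have := congrArg (fun u => c + u) h
            simp only [← add_assoc, v2_self, zero_add] at this
            exact this.symm
          rw [ind_false a1, ind_true a2, ind_false a3, ind_false a4]; norm_num
        · rw [ind_false a1, ind_false a2]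
          by_cases a3 : v + w = 0
          · have a4 : ¬ v + w = c := by rw [a3]; exact fun h => hc h.symm
            rw [ind_true a3, ind_false a4]; norm_num
          · rw [ind_false a3]
            have := ind_le_one (v + w = c)
            linarith
    rw [avg_add, h2] at h3
    linarith

theorem tn_injective {c : Fin d → ZMod 2} (hc : c ≠ 0) :
    Function.Injective (fun h : S → ZMod 2 => tn c h) := by
  intro h h' hh
  obtain ⟨i, hi⟩ := Function.ne_iff.1 hc
  funext s
  have h1 := congrFun (congrFun hh i) s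
  have h2 : c i = 1 := (z2_cases (c i)).resolve_left hi
  simpa [tn, h2] using h1

end Sec

open Sec in
theorem second : SECOND := by
  intro S _ _ d Φ c hc
  set a : (Fin d → S → ZMod 2) → ℝ := fun ξ => avg fun y => Φ y * sg (dz ξ y) with ha
  -- Parseval for fixed `x`
  have h0 : ∀ x : S → ZMod 2,
      (avg fun g => (avg fun ε => Φ (g + tn ε x)) ^ 2 +
        (avg fun ε => sg (dt c ε) * Φ (g + tn ε x)) ^ 2) =
      ∑ ξ, a ξ ^ 2 * (ind (ev x ξ = 0) + ind (ev x ξ = c)) := by
    intro x
    have e1 := parsevalZ fun g => avg fun ε => (1 : ℝ) * Φ (g + tn ε x)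
    have e2 := parsevalZ fun g => avg fun ε => sg (dt c ε) * Φ (g + tn ε x)
    simp only [coef, avg_one, mul_pow, ind_sq] at e1
    simp only [coef, avg_c, mul_pow, ind_sq] at e2
    simp only [one_mul] at e1
    rw [avg_add, ← e1, ← e2, ← sum_add_distrib]
    exact sum_congr rfl fun ξ _ => by rw [ha]; ring
  have h1 : (avg fun w : (Fin d → S → ZMod 2) × (S → ZMod 2) =>
      (avg fun ε => Φ (w.1 + tn ε w.2)) ^ 2 +
        (avg fun ε => sg (dt c ε) * Φ (w.1 + tn ε w.2)) ^ 2) =
      ∑ ξ, a ξ ^ 2 * avg fun x : S → ZMod 2 => ind (ev x ξ = 0) + ind (ev x ξ = c) := by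
    rw [avg_prod, avg_comm]
    simp only [h0]
    rw [avg_finset_sum]
    exact sum_congr rfl fun ξ _ => avg_mul_left _ _
  rw [h1]
  have h2 : ∑ ξ, a ξ ^ 2 * (avg fun x : S → ZMod 2 => ind (ev x ξ = 0) + ind (ev x ξ = c)) ≤
      ∑ ξ, (a ξ ^ 2 / 2 + a ξ ^ 2 * ind (∃ h, ξ = tn c h) / 2) := by
    refine sum_le_sum fun ξ _ => ?_
    refine (mul_le_mul_of_nonneg_left (weight hc ξ) (sq_nonneg _)).trans (le_of_eq ?_)
    ring
  refine h2.trans (le_of_eq ?_)
  rw [sum_add_distrib, ← sum_div, ← sum_div, ← add_div]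
  congr 2
  · exact parsevalZ Φ
  · have h3 : ∀ h : S → ZMod 2, (avg fun y => Φ y * sg (dt c (ev h y))) ^ 2 = a (tn c h) ^ 2 := by
      intro h
      rw [ha]
      simp only [dz_tn]
    simp only [h3]
    rw [← sum_image (f := fun ξ => a ξ ^ 2) (g := fun h : S → ZMod 2 => tn c h) (s := univ)
      (fun x _ y _ hxy => tn_injective hc hxy)]
    rw [← sum_subset (subset_univ (univ.image fun h : S → ZMod 2 => tn c h))]
    · refine sum_congr rfl fun ξ hξ => ?_
      obtain ⟨h, _, rfl⟩ := mem_image.1 hξ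
      rw [ind_true ⟨h, rfl⟩, mul_one]
    · intro ξ _ hξ
      rw [ind_false, mul_zero]
      rintro ⟨h, rfl⟩
      exact hξ (mem_image.2 ⟨h, mem_univ _, rfl⟩)

end Pool.Agent.MP_ec946a.SE

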