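import Mathlib
import Pool.Agent.Lib.SE.Props

/-!
# Row SUP: the odd part of a map is bounded
-/

set_option autoImplicit false
set_option linter.unusedSectionVars false

namespace Pool.Agent.MP_ec946a.SE

open Finset

namespace SUP

section

variable {S : Type} [Fintype S] [DecidableEq S] {d : ℕ}

lemma cz_add (c : Fin d → ZMod 2) (z w : Fin d → S → ZMod 2) :
    cz c (z + w) = cz c z + cz c w := by
  funext s
  unfold cz
  rw [Pi.add_apply, ← sum_add_distrib]
  refine sum_congr rfl fun i _ => ?_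
  show c i * (z i s + w i s) = _
  ring

lemma cz_tn_single {c : Fin d → ZMod 2} {i : Fin d} (hi : c i = 1) (x : S → ZMod 2) :
    cz c (tn (Pi.single i 1) x) = x := by
  funext s
  unfold cz tn
  rw [sum_eq_single i]
  · rw [hi, Pi.single_eq_same]
    ring
  · intro j _ hj
    rw [Pi.single_eq_of_ne hj]
    ring
  · intro h
    exact absurd (mem_univ i) h

lemma avg_sg_cz {c : Fin d → ZMod 2} (hc : c ≠ 0) (h : S → ZMod 2) :
    (avg fun z : Fin d → S → ZMod 2 => sg (dt h (cz c z))) = if h = 0 then 1 else 0 := by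
  split_ifs with h0
  · subst h0
    simp only [dt_zero_left, sg_zero]
    exact avg_const 1
  · obtain ⟨x, hx⟩ := exists_dt_eq_one h0
    obtain ⟨i, hi⟩ := Function.ne_iff.1 hc
    have hi1 : c i = 1 := (z2_cases (c i)).resolve_left hi
    have h1 : (avg fun z : Fin d → S → ZMod 2 => sg (dt h (cz c (z + tn (Pi.single i 1) x)))) =
        avg fun z : Fin d → S → ZMod 2 => sg (dt h (cz c z)) :=
      avg_equiv (Equiv.addRight (tn (Pi.single i 1) x)) fun z => sg (dt h (cz c z))
    have h2 : (avg fun z : Fin d → S → ZMod 2 => sg (dt h (cz c (z + tn (Pi.single i 1) x)))) =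
        avg fun z : Fin d → S → ZMod 2 => sg (dt h (cz c z)) * (-1) := by
      congr 1
      funext z
      rw [cz_add, cz_tn_single hi1, dt_add_right, sg_add, hx, sg_one]
    rw [avg_mul_right] at h2
    linarith

lemma ind_eq (x y : S → ZMod 2) :
    (2 : ℝ) ^ Fintype.card S * ind (x = y) = ∑ h, sg (dt h (x + y)) := by
  rw [sum_sg_dt]
  by_cases hxy : x = y
  · rw [ind_true hxy, hxy, v2_self, if_pos rfl, mul_one]
  · rw [ind_false hxy, if_neg, mul_zero]
    intro h
    apply hxy
    funext s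
    exact z2_eq.1 (congrFun h s)

/-- `cz c z` is uniform -/
lemma avg_ind_cz {c : Fin d → ZMod 2} (hc : c ≠ 0) (x : S → ZMod 2) :
    (avg fun z : Fin d → S → ZMod 2 => (2 : ℝ) ^ Fintype.card S * ind (cz c z = x)) = 1 := by
  have h1 : ∀ z : Fin d → S → ZMod 2, (2 : ℝ) ^ Fintype.card S * ind (cz c z = x) =
      ∑ h, sg (dt h x) * sg (dt h (cz c z)) := by
    intro z
    rw [ind_eq]
    exact sum_congr rfl fun h _ => by rw [dt_add_right, sg_add, mul_comm]
  simp only [h1]
  rw [avg_finset_sum, sum_eq_single (0 : S → ZMod 2)]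
  · rw [avg_mul_left, avg_sg_cz hc, if_pos rfl, dt_zero_left, sg_zero, mul_one]
  · intro h _ hh
    rw [avg_mul_left, avg_sg_cz hc, if_neg hh, mul_zero]
  · intro h
    exact absurd (mem_univ _) h

lemma abs_Fc_le {μ : (Fin d → S → ZMod 2) → (Fin d → ZMod 2) → ℝ} (hμ : IsLaw μ)
    (c : Fin d → ZMod 2) (z : Fin d → S → ZMod 2) : |Fc μ c z| ≤ 1 := by
  unfold Fc
  refine (abs_sum_le_sum_abs _ _).trans ?_
  rw [← hμ.sum z]
  refine sum_le_sum fun s _ => ?_
  rw [abs_mul, abs_sg, mul_one, abs_of_nonneg (hμ.nonneg z s)]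

end

section

variable {A : Type} [Fintype A] [DecidableEq A] {d k : ℕ}

/-- the indicator of the odd functions by characters of `v` -/
lemma ind_odd (h : Fin k × A → ZMod 2) :
    ind (IsOdd h) = avg fun v : Fin k → ZMod 2 => sg (∑ j, v j) * sg (dt h fun s => v s.1) := by
  have h1 : ∀ v : Fin k → ZMod 2, sg (∑ j, v j) * sg (dt h fun s => v s.1) =
      sg (dt (fun j => 1 + ∑ a, h (j, a)) v) := by
    intro v
    rw [← sg_add]
    congr 1
    unfold dt
    rw [Fintype.sum_prod_type, ← sum_add_distrib]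
    refine sum_congr rfl fun j _ => ?_
    show v j + ∑ a, h (j, a) * v j = (1 + ∑ a, h (j, a)) * v j
    rw [← sum_mul]
    ring
  simp only [h1]
  rw [avg_sg_dt]
  by_cases hh : IsOdd h
  · rw [ind_true hh, if_pos]
    funext j
    rw [hh j]
    exact z2_self 1
  · rw [ind_false hh, if_neg]
    intro h2
    apply hh
    intro j
    exact (z2_eq.1 (congrFun h2 j)).symm

lemma sum_odd (x : Fin k × A → ZMod 2) :
    (∑ h ∈ Odds A k, sg (dt h x)) = avg fun v : Fin k → ZMod 2 => sg (∑ j, v j) *
      ((2 : ℝ) ^ Fintype.card (Fin k × A) * ind (x = fun s => v s.1)) := by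
  have h1 : (∑ h ∈ Odds A k, sg (dt h x)) = ∑ h, ind (IsOdd h) * sg (dt h x) := by
    unfold Odds ind
    rw [sum_filter]
    refine sum_congr rfl fun h _ => ?_
    split_ifs <;> ring
  rw [h1]
  have h2 : ∀ h : Fin k × A → ZMod 2, ind (IsOdd h) * sg (dt h x) =
      avg fun v : Fin k → ZMod 2 => sg (∑ j, v j) * sg (dt h (x + fun s => v s.1)) := by
    intro h
    rw [ind_odd, ← avg_mul_right]
    congr 1
    funext v
    rw [dt_add_right, sg_add]
    ring
  simp only [h2]
  rw [← avg_finset_sum]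
  congr 1
  funext v
  rw [← mul_sum, ind_eq]

end

end SUP

theorem sup : SUP := by
  intro A _ _ d k μ hμ c hc y
  have h1 : (∑ h ∈ Odds A k, ac μ c h * sg (dt h y)) =
      avg fun z => Fc μ c z * ∑ h ∈ Odds A k, sg (dt h (cz c z + y)) := by
    have h2 : ∀ h : Fin k × A → ZMod 2, ac μ c h * sg (dt h y) =
        avg fun z => Fc μ c z * sg (dt h (cz c z + y)) := by
      intro h
      unfold ac
      rw [← avg_mul_right]
      congr 1
      funext z
      rw [dt_add_right, sg_add, dt_ev]
      ring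
    simp only [h2]
    rw [← avg_finset_sum]
    congr 1
    funext z
    rw [mul_sum]
  rw [h1]
  refine (abs_avg_le _).trans ?_
  have h3 : ∀ z : Fin d → Fin k × A → ZMod 2,
      |Fc μ c z * ∑ h ∈ Odds A k, sg (dt h (cz c z + y))| ≤
      avg fun v : Fin k → ZMod 2 => (2 : ℝ) ^ Fintype.card (Fin k × A) *
        ind (cz c z = y + fun s => v s.1) := by
    intro z
    rw [abs_mul, SUP.sum_odd]
    have h4 := SUP.abs_Fc_le hμ c z
    have h5 : |avg fun v : Fin k → ZMod 2 => sg (∑ j, v j) *
        ((2 : ℝ) ^ Fintype.card (Fin k × A) * ind (cz c z + y = fun s => v s.1))| ≤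
        avg fun v : Fin k → ZMod 2 => (2 : ℝ) ^ Fintype.card (Fin k × A) *
        ind (cz c z = y + fun s => v s.1) := by
      refine (abs_avg_le _).trans (avg_mono fun v => ?_)
      rw [abs_mul, abs_sg, one_mul, abs_mul, abs_of_nonneg (by positivity),
        abs_of_nonneg (ind_nonneg _)]
      refine mul_le_mul_of_nonneg_left (ind_mono fun h => ?_) (by positivity)
      rw [← h, add_comm (cz c z) y, ← add_assoc, v2_self, zero_add]
    calc |Fc μ c z| * _ ≤ 1 * _ := mul_le_mul_of_nonneg_right h4 (abs_nonneg _)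
      _ ≤ _ := by rw [one_mul]; exact h5
  refine (avg_mono h3).trans ?_
  rw [avg_comm]
  refine avg_le_const zero_le_one fun v => ?_
  exact (SUP.avg_ind_cz hc _).le

end Pool.Agent.MP_ec946a.SE
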