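import Mathlib
import Pool.Agent.Lib.SE.Props

/-!
# The value of the game and the four fractions
-/

set_option autoImplicit false

namespace Pool.Agent.MP_ec946a.SE

open Finset Pool.Agent.MP_ec946a.LR

namespace VALUE

lemma avg_of_equiv {α β γ : Type} [Fintype α] [Fintype β] [Fintype γ] [Nonempty γ]
    (e : α ≃ β × γ) (f : β → ℝ) : (avg fun a => f (e a).1) = avg f := by
  rw [avg_equiv e fun p => f p.1]
  exact avg_fst f

lemma pr_eq_natCard {α : Type} [Fintype α] (p : α → Prop) :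
    (Nat.card {x // p x} : ℝ) / (Nat.card α : ℝ) = pr p := by
  classical
  rw [pr_eq_card, Nat.card_eq_fintype_card, Nat.card_eq_fintype_card, Fintype.card_subtype]

/-- the four types -/
def four (a b c e : ℝ) (m : ℕ) : ℝ :=
  if m < 17 then a else if m < 22 then b else if m < 27 then c else e

lemma sum_four (a b c e : ℝ) : (∑ m : Fin 37, four a b c e m) = 17 * a + 5 * b + 5 * c + 10 * e := by
  rw [Fin.sum_univ_eq_sum_range (fun i => four a b c e i) 37]
  simp only [four, sum_range_succ, sum_range_zero]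
  norm_num
  ring

variable {A B : Type} [Fintype A] [Fintype B] [DecidableEq A] [DecidableEq B] {d k n : ℕ}

abbrev Xs (A : Type) (d k : ℕ) : Type := Fin d → Fin k × A → ZMod 2
abbrev Ys (A B : Type) (d k : ℕ) : Type := Fin d → Fin k × (A ⊕ B) → ZMod 2

/-- type z -/
def eqz (I : LabelCover A B) (d k n : ℕ) : Data I d k n ≃
    ((Fin k → I.E) × ((Fin k → Fin n) × Ys A B d k) × (Fin k × A → ZMod 2) × (Fin d → ZMod 2) ×
      (Fin d → Fin k → ZMod 2)) ×
      (Xs A d k × (Fin d → ZMod 2) × Fin k × (A → ZMod 2) × (A → ZMod 2)) where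
  toFun t := ((t.e, (t.b, t.y), t.x, t.ε, t.δ), (t.g, t.ε', t.j, t.α, t.β))
  invFun t := ⟨t.1.1, t.1.2.1.1, t.1.2.1.2, t.2.1, t.1.2.2.1, t.1.2.2.2.1, t.2.2.1, t.1.2.2.2.2,
    t.2.2.2.1, t.2.2.2.2.1, t.2.2.2.2.2⟩
  left_inv _ := rfl
  right_inv _ := rfl

/-- type c -/
def eqc (I : LabelCover A B) (d k n : ℕ) : Data I d k n ≃
    ((Fin k → I.E) × ((Fin k → Fin n) × Ys A B d k) × (Fin k × (A → ZMod 2)) ×
      (Fin d → ZMod 2) × (Fin d → Fin k → ZMod 2)) ×
      (Xs A d k × (Fin d → ZMod 2) × (Fin k × A → ZMod 2) × (A → ZMod 2)) where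
  toFun t := ((t.e, (t.b, t.y), (t.j, t.α), t.ε, t.δ), (t.g, t.ε', t.x, t.β))
  invFun t := ⟨t.1.1, t.1.2.1.1, t.1.2.1.2, t.2.1, t.2.2.2.1, t.1.2.2.2.1, t.2.2.1, t.1.2.2.2.2,
    t.1.2.2.1.1, t.1.2.2.1.2, t.2.2.2.2⟩
  left_inv _ := rfl
  right_inv _ := rfl

/-- type e -/
def eqe (I : LabelCover A B) (d k n : ℕ) : Data I d k n ≃
    ((Fin k → I.E) × Xs A d k × Fin k × (A → ZMod 2)) ×
      ((Fin k → Fin n) × Ys A B d k × (Fin k × A → ZMod 2) × (Fin d → ZMod 2) ×
        (Fin d → ZMod 2) × (Fin d → Fin k → ZMod 2) × (A → ZMod 2)) where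
  toFun t := ((t.e, t.g, t.j, t.α), (t.b, t.y, t.x, t.ε, t.ε', t.δ, t.β))
  invFun t := ⟨t.1.1, t.2.1, t.2.2.1, t.1.2.1, t.2.2.2.1, t.2.2.2.2.1, t.2.2.2.2.2.1,
    t.2.2.2.2.2.2.1, t.1.2.2.1, t.1.2.2.2, t.2.2.2.2.2.2.2⟩
  left_inv _ := rfl
  right_inv _ := rfl

/-- type a -/
def eqa (I : LabelCover A B) (d k n : ℕ) : Data I d k n ≃
    ((Fin k → I.E) × Xs A d k × (Fin k × (A → ZMod 2) × (A → ZMod 2)) ×
      ((Fin d → ZMod 2) × (Fin d → ZMod 2))) ×
      ((Fin k → Fin n) × Ys A B d k × (Fin k × A → ZMod 2) × (Fin d → Fin k → ZMod 2)) where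
  toFun t := ((t.e, t.g, (t.j, t.α, t.β), (t.ε, t.ε')), (t.b, t.y, t.x, t.δ))
  invFun t := ⟨t.1.1, t.2.1, t.2.2.1, t.1.2.1, t.2.2.2.1, t.1.2.2.2.1, t.1.2.2.2.2,
    t.2.2.2.2, t.1.2.2.1.1, t.1.2.2.1.2.1, t.1.2.2.1.2.2⟩
  left_inv _ := rfl
  right_inv _ := rfl

end VALUE

open VALUE in
set_option synthInstance.maxSize 1000 in
theorem value_le : VALUE := by
  intro A B _ _ _ _ I d k n _ _ v hv
  unfold Game.value
  have : Nonempty (((game I d k n).U → Fin (2 ^ (d + 2))) ×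
      ((game I d k n).V → Fin (2 ^ (d + 2)))) := ⟨(fun _ => 0, fun _ => 0)⟩
  refine ciSup_le fun L => ?_
  set LU : VL I d k → (Fin d → ZMod 2) × ZMod 2 × ZMod 2 := fun x => lab d (L.1 x) with hLU
  set LV : VR I d k → (Fin d → ZMod 2) × ZMod 2 × ZMod 2 := fun x => lab d (L.2 x) with hLV
  have h1 := hv LU LV
  set pze : (Fin k → I.E) → ℝ := fun e =>
    pz (fun ω : (Fin k → Fin n) × (Fin d → Fin k × (A ⊕ B) → ZMod 2) =>
      pull I e ω.1 ω.2) (fun ω => (LV (Sum.inl (side I e ω.1, mask (side I e ω.1) ω.2))).1)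
      (strat I LU LV fun i => I.src (e i)) with hpz
  set pce : (Fin k → I.E) → ℝ := fun e =>
    pc (fun ω : (Fin k → Fin n) × (Fin d → Fin k × (A ⊕ B) → ZMod 2) =>
      pull I e ω.1 ω.2) (fun ω => (LV (Sum.inl (side I e ω.1, mask (side I e ω.1) ω.2))).1)
      (strat I LU LV fun i => I.src (e i)) with hpc
  set pee : (Fin k → I.E) → ℝ := fun e => pe (strat I LU LV fun i => I.src (e i)) with hpe
  set pae : (Fin k → I.E) → ℝ := fun e => pa (strat I LU LV fun i => I.src (e i)) with hpa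
  have h2 : (avg fun e => 17 * (1 - pze e) + 5 * (1 - pce e) + 5 * (1 - pee e) +
      10 * (1 - pae e)) = 37 - (17 * avg pze + 5 * avg pce + 5 * avg pee + 10 * avg pae) := by
    have : (fun e => 17 * (1 - pze e) + 5 * (1 - pce e) + 5 * (1 - pee e) +
      10 * (1 - pae e)) = fun e => 37 - (((17 * pze e + 5 * pce e) + 5 * pee e) + 10 * pae e) := by
      funext e; ring
    rw [this, avg_sub, avg_const, avg_add, avg_add, avg_add, avg_mul_left, avg_mul_left,
      avg_mul_left, avg_mul_left]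
  have h3 : 37 * (1 - v) ≤ 37 - (17 * avg pze + 5 * avg pce + 5 * avg pee + 10 * avg pae) :=
    h2 ▸ h1
  -- the fraction of the satisfied edges
  set Q : Fin 37 × Data I d k n → Prop := fun p =>
    mapE I p.1 p.2 (LU (endL I p.1 p.2)) = LV (endR I p.1 p.2) with hQ
  have h4 : (Nat.card ((game I d k n).satisfied L.1 L.2) : ℝ) / (Nat.card (game I d k n).E : ℝ) =
      pr Q := by
    rw [← pr_eq_natCard]
    have : Nat.card ((game I d k n).satisfied L.1 L.2) = Nat.card {x // Q x} := by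
      refine Nat.card_congr (Equiv.subtypeEquivRight fun p => ?_)
      exact Equiv.symm_apply_eq (lab d)
    rw [this]
    rfl
  rw [h4]
  have h5 : pr Q = (∑ m : Fin 37, pr fun t => Q (m, t)) / 37 := by
    unfold pr
    rw [avg_prod]
    unfold avg
    rw [Fintype.card_fin]
    norm_num
  have hz : ∀ m : Fin 37, (m : ℕ) < 17 → (pr fun t => Q (m, t)) ≤ avg pze := by
    intro m hm
    have h6 : avg pze = pr fun t : Data I d k n =>
        lz ((strat I LU LV fun i => I.src (t.e i)).f (shift (pull I t.e t.b t.y) t.x t.ε t.δ) t.x)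
      ((strat I LU LV fun i => I.src (t.e i)).p (shift (pull I t.e t.b t.y) t.x t.ε t.δ) t.x)
        t.ε (par t.δ) = (LV (Sum.inl (side I t.e t.b, mask (side I t.e t.b) t.y))).1 := by
      rw [hpz]
      unfold pz pr
      rw [← avg_prod (fun w : (Fin k → I.E) × ((Fin k → Fin n) × Ys A B d k) ×
        (Fin k × A → ZMod 2) × (Fin d → ZMod 2) × (Fin d → Fin k → ZMod 2) =>
        ind (lz ((strat I LU LV fun i => I.src (w.1 i)).f
          (shift (pull I w.1 w.2.1.1 w.2.1.2) w.2.2.1 w.2.2.2.1 w.2.2.2.2) w.2.2.1)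
          ((strat I LU LV fun i => I.src (w.1 i)).p
          (shift (pull I w.1 w.2.1.1 w.2.1.2) w.2.2.1 w.2.2.2.1 w.2.2.2.2) w.2.2.1)
          w.2.2.2.1 (par w.2.2.2.2) =
          (LV (Sum.inl (side I w.1 w.2.1.1, mask (side I w.1 w.2.1.1) w.2.1.2))).1))]
      exact (avg_of_equiv (eqz I d k n) _).symm
    rw [h6]
    refine pr_mono fun t ht => ?_
    have h7 : mapE I m t (LU (endL I m t)) = LV (endR I m t) := ht
    unfold mapE endL endR at h7
    simp only [if_pos hm, if_pos (show (m : ℕ) < 22 by omega)] at h7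
    exact congrArg Prod.fst h7
  have hc : ∀ m : Fin 37, ¬ (m : ℕ) < 17 → (m : ℕ) < 22 → (pr fun t => Q (m, t)) ≤ avg pce := by
    intro m hm0 hm
    have h6 : avg pce = pr fun t : Data I d k n =>
        lz ((strat I LU LV fun i => I.src (t.e i)).f
          (shift (pull I t.e t.b t.y) (loc t.j t.α) t.ε t.δ) (loc t.j t.α))
      ((strat I LU LV fun i => I.src (t.e i)).p
          (shift (pull I t.e t.b t.y) (loc t.j t.α) t.ε t.δ) (loc t.j t.α))
        t.ε (par t.δ) = (LV (Sum.inl (side I t.e t.b, mask (side I t.e t.b) t.y))).1 := by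
      rw [hpc]
      unfold pc pr
      rw [← avg_prod (fun w : (Fin k → I.E) × ((Fin k → Fin n) × Ys A B d k) ×
        (Fin k × (A → ZMod 2)) × (Fin d → ZMod 2) × (Fin d → Fin k → ZMod 2) =>
        ind (lz ((strat I LU LV fun i => I.src (w.1 i)).f
          (shift (pull I w.1 w.2.1.1 w.2.1.2) (loc w.2.2.1.1 w.2.2.1.2) w.2.2.2.1 w.2.2.2.2)
            (loc w.2.2.1.1 w.2.2.1.2))
          ((strat I LU LV fun i => I.src (w.1 i)).p
          (shift (pull I w.1 w.2.1.1 w.2.1.2) (loc w.2.2.1.1 w.2.2.1.2) w.2.2.2.1 w.2.2.2.2)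
            (loc w.2.2.1.1 w.2.2.1.2))
          w.2.2.2.1 (par w.2.2.2.2) =
          (LV (Sum.inl (side I w.1 w.2.1.1, mask (side I w.1 w.2.1.1) w.2.1.2))).1))]
      exact (avg_of_equiv (eqc I d k n) _).symm
    rw [h6]
    refine pr_mono fun t ht => ?_
    have h7 : mapE I m t (LU (endL I m t)) = LV (endR I m t) := ht
    unfold mapE endL endR at h7
    simp only [if_neg hm0, if_pos hm] at h7
    exact congrArg Prod.fst h7
  have he : ∀ m : Fin 37, ¬ (m : ℕ) < 22 → (m : ℕ) < 27 → (pr fun t => Q (m, t)) ≤ avg pee := by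
    intro m hm0 hm
    have h6 : avg pee = pr fun t : Data I d k n =>
        (strat I LU LV fun i => I.src (t.e i)).f t.g (loc t.j t.α) =
          (strat I LU LV fun i => I.src (t.e i)).f' t.j t.α t.g ∧
        (strat I LU LV fun i => I.src (t.e i)).p t.g (loc t.j t.α) =
          (strat I LU LV fun i => I.src (t.e i)).p' t.j t.α t.g := by
      rw [hpe]
      unfold pe pr
      rw [← avg_prod (fun w : (Fin k → I.E) × Xs A d k × Fin k × (A → ZMod 2) =>
        ind ((strat I LU LV fun i => I.src (w.1 i)).f w.2.1 (loc w.2.2.1 w.2.2.2) =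
          (strat I LU LV fun i => I.src (w.1 i)).f' w.2.2.1 w.2.2.2 w.2.1 ∧
        (strat I LU LV fun i => I.src (w.1 i)).p w.2.1 (loc w.2.2.1 w.2.2.2) =
          (strat I LU LV fun i => I.src (w.1 i)).p' w.2.2.1 w.2.2.2 w.2.1))]
      exact (avg_of_equiv (eqe I d k n) _).symm
    rw [h6]
    refine pr_mono fun t ht => ?_
    have h7 : mapE I m t (LU (endL I m t)) = LV (endR I m t) := ht
    unfold mapE endL endR at h7
    simp only [if_neg hm0, if_neg (show ¬ (m : ℕ) < 17 by omega), if_pos hm] at h7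
    have h8 := congrArg Prod.fst h7
    have h9 := congrArg (fun l => l.2.1) h7
    exact ⟨h8, h9⟩
  have ha : ∀ m : Fin 37, ¬ (m : ℕ) < 27 → (pr fun t => Q (m, t)) ≤ avg pae := by
    intro m hm0
    have h6 : avg pae = pr fun t : Data I d k n =>
        (fun i => (strat I LU LV fun i => I.src (t.e i)).F t.j t.α t.β t.g i +
          t.ε i * (strat I LU LV fun i => I.src (t.e i)).r t.j t.α t.β t.g +
          t.ε' i * ((strat I LU LV fun i => I.src (t.e i)).q t.j t.α t.β t.g *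
            (strat I LU LV fun i => I.src (t.e i)).r t.j t.α t.β t.g)) =
          (strat I LU LV fun i => I.src (t.e i)).f' t.j t.α (shift2 t.g t.j t.α t.β t.ε t.ε') ∧
        (strat I LU LV fun i => I.src (t.e i)).q t.j t.α t.β t.g =
          (strat I LU LV fun i => I.src (t.e i)).p' t.j t.α
            (shift2 t.g t.j t.α t.β t.ε t.ε') := by
      rw [hpa]
      unfold pa pr
      rw [← avg_prod (fun w : (Fin k → I.E) × Xs A d k ×
        (Fin k × (A → ZMod 2) × (A → ZMod 2)) × ((Fin d → ZMod 2) × (Fin d → ZMod 2)) =>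
        ind ((fun i => (strat I LU LV fun i => I.src (w.1 i)).F w.2.2.1.1 w.2.2.1.2.1
            w.2.2.1.2.2 w.2.1 i +
          w.2.2.2.1 i * (strat I LU LV fun i => I.src (w.1 i)).r w.2.2.1.1 w.2.2.1.2.1
            w.2.2.1.2.2 w.2.1 +
          w.2.2.2.2 i * ((strat I LU LV fun i => I.src (w.1 i)).q w.2.2.1.1 w.2.2.1.2.1
            w.2.2.1.2.2 w.2.1 *
            (strat I LU LV fun i => I.src (w.1 i)).r w.2.2.1.1 w.2.2.1.2.1
            w.2.2.1.2.2 w.2.1)) =
          (strat I LU LV fun i => I.src (w.1 i)).f' w.2.2.1.1 w.2.2.1.2.1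
            (shift2 w.2.1 w.2.2.1.1 w.2.2.1.2.1 w.2.2.1.2.2 w.2.2.2.1 w.2.2.2.2) ∧
        (strat I LU LV fun i => I.src (w.1 i)).q w.2.2.1.1 w.2.2.1.2.1 w.2.2.1.2.2 w.2.1 =
          (strat I LU LV fun i => I.src (w.1 i)).p' w.2.2.1.1 w.2.2.1.2.1
            (shift2 w.2.1 w.2.2.1.1 w.2.2.1.2.1 w.2.2.1.2.2 w.2.2.2.1 w.2.2.2.2)))]
      exact (avg_of_equiv (eqa I d k n) _).symm
    rw [h6]
    refine pr_mono fun t ht => ?_
    have h7 : mapE I m t (LU (endL I m t)) = LV (endR I m t) := ht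
    unfold mapE endL endR at h7
    simp only [if_neg hm0, if_neg (show ¬ (m : ℕ) < 17 by omega),
      if_neg (show ¬ (m : ℕ) < 22 by omega)] at h7
    exact ⟨congrArg Prod.fst h7, congrArg (fun l => l.2.1) h7⟩
  have h6 : (∑ m : Fin 37, pr fun t => Q (m, t)) ≤
      17 * avg pze + 5 * avg pce + 5 * avg pee + 10 * avg pae := by
    rw [← sum_four]
    refine sum_le_sum fun m _ => ?_
    unfold four
    split_ifs with h7 h8 h9
    · exact hz m h7
    · exact hc m h7 h8
    · exact he m h8 h9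
    · exact ha m h9
  rw [h5, div_le_iff₀ (by norm_num)]
  linarith

end Pool.Agent.MP_ec946a.SE
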