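import Mathlib
import Pool.Agent.Lib.SE.Props

/-!
# The number of replaced blocks (row VAR; helper50)
-/

set_option autoImplicit false

namespace Pool.Agent.MP_ec946a.SE

open Finset Pool.Agent.MP_ec946a.LR

namespace VAR

/-- average of a function of one coordinate times a function of the others -/
lemma avg_split {k n : ℕ} [NeZero n] (j : Fin k) (f : Fin n → ℝ) (g : ({i // i ≠ j} → Fin n) → ℝ) :
    (avg fun b : Fin k → Fin n => f (b j) * g fun i => b i) = avg f * avg g := by
  rw [← avg_equiv (Equiv.funSplitAt j (Fin n)).symm]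
  have h : ∀ x : Fin n × ({i // i ≠ j} → Fin n),
      f ((Equiv.funSplitAt j (Fin n)).symm x j) * (g fun i => (Equiv.funSplitAt j (Fin n)).symm x i)
        = f x.1 * g x.2 := by
    intro x
    congr 1
    · congr 1
      simp [Equiv.funSplitAt, Equiv.piSplitAt]
    · congr 1
      funext i
      have := i.2
      simp [Equiv.funSplitAt, Equiv.piSplitAt, this]
  simp only [h]
  rw [avg_prod]
  simp only [avg_mul_left]
  rw [avg_mul_right]

lemma avg_coord {k n : ℕ} [NeZero n] (j : Fin k) (f : Fin n → ℝ) :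
    (avg fun b : Fin k → Fin n => f (b j)) = avg f := by
  have h := avg_split j f fun _ => (1 : ℝ)
  simp only [mul_one] at h
  rw [h, avg_const, mul_one]

lemma avg_cross {k n : ℕ} [NeZero n] {j j' : Fin k} (hj : j' ≠ j) (f g : Fin n → ℝ)
    (hf : avg f = 0) : (avg fun b : Fin k → Fin n => f (b j) * g (b j')) = 0 := by
  have h := avg_split j f fun r => g (r ⟨j', hj⟩)
  simp only at h
  rw [h, hf, zero_mul]

/-- the centred indicator -/
noncomputable def Y (n : ℕ) (x : Fin n) : ℝ := 1 / n - ind ((x : ℕ) = 0)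

lemma avg_ind {n : ℕ} [NeZero n] : (avg fun x : Fin n => ind ((x : ℕ) = 0)) = 1 / n := by
  unfold avg
  rw [Fintype.card_fin]
  congr 1
  rw [Finset.sum_eq_single (0 : Fin n)]
  · exact ind_true (by simp)
  · intro x _ hx
    refine ind_false fun h => hx ?_
    exact Fin.ext (by simpa using h)
  · intro h
    exact absurd (mem_univ _) h

lemma avg_Y {n : ℕ} [NeZero n] : avg (Y n) = 0 := by
  have h : avg (Y n) = avg fun x : Fin n => (1 / n : ℝ) - ind ((x : ℕ) = 0) := rfl
  rw [h, avg_sub, avg_const, avg_ind, sub_self]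

lemma ind_sq (p : Prop) : ind p ^ 2 = ind p := by
  by_cases h : p
  · rw [ind_true h]; norm_num
  · rw [ind_false h]; norm_num

lemma avg_Y_sq {n : ℕ} [NeZero n] : (avg fun x => Y n x ^ 2) ≤ 1 / n := by
  have h : ∀ x, Y n x ^ 2 = (1 / (n : ℝ)) ^ 2 + (1 - 2 * (1 / (n : ℝ))) * ind ((x : ℕ) = 0) := by
    intro x
    have := ind_sq ((x : ℕ) = 0)
    unfold Y
    linear_combination this
  simp only [h]
  rw [avg_add, avg_const, avg_mul_left, avg_ind]
  have hn : (0 : ℝ) < n := by exact_mod_cast Nat.pos_of_ne_zero (NeZero.ne n)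
  have h1 : (0 : ℝ) < 1 / n := by positivity
  nlinarith

lemma card_eq {k n : ℕ} [NeZero n] (J : Finset (Fin k)) (b : Fin k → Fin n) :
    (J.card : ℝ) / n - ((J.filter fun j => (b j : ℕ) = 0).card : ℝ) = ∑ j ∈ J, Y n (b j) := by
  unfold Y
  rw [Finset.sum_sub_distrib, Finset.sum_const, nsmul_eq_mul, mul_one_div]
  congr 1
  rw [Finset.card_filter]
  push_cast
  refine Finset.sum_congr rfl fun j _ => ?_
  by_cases h : (b j : ℕ) = 0
  · rw [if_pos h, ind_true h]
  · rw [if_neg h, ind_false h]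

lemma second {k n : ℕ} [NeZero n] (J : Finset (Fin k)) :
    (avg fun b : Fin k → Fin n => (∑ j ∈ J, Y n (b j)) ^ 2) ≤ (k : ℝ) / n := by
  have h1 : ∀ b : Fin k → Fin n, (∑ j ∈ J, Y n (b j)) ^ 2 =
      ∑ j ∈ J, ∑ j' ∈ J, Y n (b j) * Y n (b j') := by
    intro b
    rw [sq, Finset.sum_mul_sum]
  simp only [h1]
  rw [avg_finset_sum]
  simp only [avg_finset_sum]
  have hn : (0 : ℝ) < n := by exact_mod_cast Nat.pos_of_ne_zero (NeZero.ne n)
  have h2 : ∀ j ∈ J, ∑ j' ∈ J, (avg fun b : Fin k → Fin n => Y n (b j) * Y n (b j')) ≤ 1 / n := by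
    intro j hj
    rw [Finset.sum_eq_single_of_mem j hj]
    · have h3 : (avg fun b : Fin k → Fin n => Y n (b j) * Y n (b j)) =
          avg fun b : Fin k → Fin n => (fun x => Y n x ^ 2) (b j) := by
        congr 1
        funext b
        simp only
        ring
      rw [h3, avg_coord j fun x => Y n x ^ 2]
      exact avg_Y_sq
    · intro j' _ hj'
      exact avg_cross hj' (Y n) (Y n) avg_Y
  refine (Finset.sum_le_sum h2).trans ?_
  rw [Finset.sum_const, nsmul_eq_mul, mul_one_div]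
  refine div_le_div_of_nonneg_right ?_ hn.le
  have := Finset.card_le_univ J
  rw [Fintype.card_fin] at this
  exact_mod_cast this

end VAR

theorem var : VAR := by
  intro D _ _ k n _ R J
  have h0 : pr R * (J.card / n) - (avg fun w : D × (Fin k → Fin n) =>
      ind (R w) * ((J.filter fun j => (w.2 j : ℕ) = 0).card : ℝ)) =
      avg fun w : D × (Fin k → Fin n) => ind (R w) * ∑ j ∈ J, VAR.Y n (w.2 j) := by
    unfold pr
    rw [← avg_mul_right, ← avg_sub]
    congr 1
    funext w
    rw [← VAR.card_eq]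
    ring
  have h1 := avg_mul_sq_le (fun w : D × (Fin k → Fin n) => ind (R w))
    fun w => ∑ j ∈ J, VAR.Y n (w.2 j)
  have h2 : (avg fun w : D × (Fin k → Fin n) => ind (R w) ^ 2) ≤ 1 := by
    simp only [VAR.ind_sq]
    exact pr_le_one R
  have h3 : (avg fun w : D × (Fin k → Fin n) => (∑ j ∈ J, VAR.Y n (w.2 j)) ^ 2) ≤ (k : ℝ) / n := by
    have h4 := avg_snd (α := D) fun b : Fin k → Fin n => (∑ j ∈ J, VAR.Y n (b j)) ^ 2
    rw [h4]
    exact VAR.second J
  have h5 : 0 ≤ avg fun w : D × (Fin k → Fin n) => (∑ j ∈ J, VAR.Y n (w.2 j)) ^ 2 :=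
    avg_nonneg fun w => sq_nonneg _
  have h6 : (avg fun w : D × (Fin k → Fin n) => ind (R w) * ∑ j ∈ J, VAR.Y n (w.2 j)) ^ 2 ≤
      (k : ℝ) / n := by
    refine h1.trans ?_
    calc _ ≤ 1 * (avg fun w : D × (Fin k → Fin n) => (∑ j ∈ J, VAR.Y n (w.2 j)) ^ 2) :=
          mul_le_mul_of_nonneg_right h2 h5
      _ ≤ _ := by rw [one_mul]; exact h3
  have h7 := Real.le_sqrt_of_sq_le h6
  linarith

end Pool.Agent.MP_ec946a.SE
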